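import Pool.Agent.H77.ST.Mn

/-!
# Gx: conditional expectations by averaging

`gexp`: `minel` for the convex hull `K` of `{w x w* : w ∈ G}` (norm `≤ ‖x‖`) gives `z` in the 2-norm
closure of `K` with `w z w* = z` for `w ∈ G` (`a ↦ w a w*` is isometric and maps `K` into `K`), so
`w z = z w`.  If `t` commutes with `G`: `τ(t w x w*) = τ(w* t w x) = τ(t x)`, so `τ(t y) = τ(t x)` on
`K`, and `|τ(t (z - y))| ≤ ‖t*‖₂ ‖z - y‖₂` (`cs`), so `τ(t z) = τ(t x)`.  If `x* = x` all of `K` is
selfadjoint and so is `z` (`n2_star`).  If `a (w x w*) = 0` for all `w ∈ G`, then `a y = 0` on `K` and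
`‖a z‖₂ = ‖a (z - y)‖₂ ≤ ‖a‖ ‖z - y‖₂`.  Similarly for `a (w x w*) = w x w*`.
`cexp`: `G = unitary N`; an element commuting with all unitaries is central
(`CStarAlgebra.span_unitary`).
`uexp`: `G = {u^k : k : ℕ}`.
-/

open Filter Topology

namespace ST

open SC

variable {N : Type*} [CStarAlgebra N] {τ : N →ₗ[ℂ] ℂ}

private theorem Gx_small (h : IsTr τ) {v : N} {C : ℝ} (hC : 0 ≤ C)
    (hv : ∀ ε : ℝ, 0 < ε → n2 τ v ≤ C * ε) : v = 0 := by
  apply n2_eq_zero h
  refine le_antisymm (le_of_forall_pos_le_add fun ε hε => ?_) (n2_nonneg v)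
  have h1 := hv (ε / (C + 1)) (by positivity)
  have h2 : C * (ε / (C + 1)) ≤ ε := by
    rw [mul_div_assoc', div_le_iff₀ (by positivity)]
    nlinarith
  linarith

private theorem Gx_convex {E : Type*} [AddCommGroup E] [Module ℂ E] (f : N →ₗ[ℂ] E) (c : E) :
    Convex ℝ {y : N | f y = c} := by
  intro y₁ h₁ y₂ h₂ a b _ _ hab
  have h₁' : f y₁ = c := h₁
  have h₂' : f y₂ = c := h₂
  have h3 : f (a • y₁ + b • y₂) = c := by
    rw [← Complex.coe_smul, ← Complex.coe_smul, map_add, map_smul, map_smul, h₁', h₂', ← add_smul]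
    have : ((a : ℂ) + (b : ℂ)) = 1 := by exact_mod_cast hab
    rw [this, one_smul]
  exact h3

theorem gexp (h : IsTr τ) (G : Set N) (hG : ∀ w ∈ G, w ∈ unitary N) (h1 : (1 : N) ∈ G)
    (hm : ∀ w ∈ G, ∀ w' ∈ G, w * w' ∈ G) (x : N) :
    ∃ z : N, (∀ w ∈ G, w * z = z * w) ∧
      (∀ t : N, (∀ w ∈ G, w * t = t * w) → τ (t * z) = τ (t * x)) ∧
      (star x = x → star z = z) ∧
      (∀ a : N, (∀ w ∈ G, a * (w * x * star w) = 0) → a * z = 0) ∧
      (∀ a : N, (∀ w ∈ G, a * (w * x * star w) = w * x * star w) → a * z = z) := by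
  set S : Set N := {y | ∃ w ∈ G, y = w * x * star w} with hS
  set K : Set N := convexHull ℝ S with hK
  have hxS : x ∈ S := ⟨1, h1, by simp⟩
  have hSK : S ⊆ K := subset_convexHull ℝ S
  have hne : K.Nonempty := ⟨x, hSK hxS⟩
  have hb : ∀ y ∈ K, ‖y‖ ≤ ‖x‖ := by
    have h2 : K ⊆ Metric.closedBall (0 : N) ‖x‖ := by
      refine convexHull_min ?_ (convex_closedBall _ _)
      rintro _ ⟨w, hw, rfl⟩
      rw [mem_closedBall_zero_iff]
      have h3 := norm_unitary_le (hG w hw)
      have h4 : ‖star w‖ ≤ 1 := by rwa [norm_star]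
      calc ‖w * x * star w‖ ≤ ‖w * x‖ * ‖star w‖ := norm_mul_le _ _
        _ ≤ (‖w‖ * ‖x‖) * ‖star w‖ := by gcongr; exact norm_mul_le _ _
        _ ≤ (1 * ‖x‖) * 1 := by gcongr
        _ = ‖x‖ := by ring
    intro y hy
    exact mem_closedBall_zero_iff.1 (h2 hy)
  obtain ⟨z, hz1, hz2⟩ := minel h K (convex_convexHull ℝ S) hne ‖x‖ hb
  refine ⟨z, ?_, ?_, ?_, ?_, ?_⟩
  · intro w hw
    have hwu := hG w hw
    have hww : star w * w = 1 := (Unitary.mem_iff.1 hwu).1
    let T : N →ₗ[ℂ] N := (LinearMap.mulRight ℂ (star w)).comp (LinearMap.mulLeft ℂ w)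
    have hT : ∀ y, T y = w * y * star w := fun y => rfl
    have hsw : star w ∈ unitary N := Unitary.star_mem hwu
    have h2 := hz2 T (fun y => by
      rw [hT, n2_unitary_right h hsw, n2_unitary_left hwu]) (fun y hy => by
      have h3 : K ⊆ T ⁻¹' K := by
        refine convexHull_min ?_ ?_
        · rintro _ ⟨w', hw', rfl⟩
          refine hSK ⟨w * w', hm w hw w' hw', ?_⟩
          rw [hT, star_mul]
          noncomm_ring
        · exact (convex_convexHull ℝ S).linear_preimage (T.restrictScalars ℝ)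
      exact h3 hy)
    rw [hT] at h2
    calc w * z = w * z * (star w * w) := by rw [hww, mul_one]
      _ = (w * z * star w) * w := by noncomm_ring
      _ = z * w := by rw [h2]
  · intro t ht
    have h2 : K ⊆ {y | τ (t * y) = τ (t * x)} := by
      refine convexHull_min ?_ (Gx_convex (τ.comp (LinearMap.mulLeft ℂ t)) (τ (t * x)))
      rintro _ ⟨w, hw, rfl⟩
      have hww : star w * w = 1 := (Unitary.mem_iff.1 (hG w hw)).1
      change τ (t * (w * x * star w)) = τ (t * x)
      have h3 : t * (w * x * star w) = (t * w * x) * star w := by noncomm_ring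
      rw [h3, h.tracial]
      congr 1
      rw [← ht w hw]
      calc star w * (w * t * x) = (star w * w) * (t * x) := by noncomm_ring
        _ = t * x := by rw [hww, one_mul]
    have h4 : ∀ ε : ℝ, 0 < ε → ‖τ (t * z) - τ (t * x)‖ ≤ 0 + ε := by
      intro ε hε
      obtain ⟨y, hy, hlt⟩ := hz1 (ε / (n2 τ (star t) + 1)) (by
        have := n2_nonneg (τ := τ) (star t)
        positivity)
      have h5 : τ (t * y) = τ (t * x) := h2 hy
      rw [← h5, ← map_sub, ← mul_sub]
      have h6 := cs h (star t) (z - y)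
      rw [star_star] at h6
      have h7 := n2_nonneg (τ := τ) (star t)
      have h8 : n2 τ (star t) * n2 τ (z - y) ≤ n2 τ (star t) * (ε / (n2 τ (star t) + 1)) := by
        gcongr
      have h9 : n2 τ (star t) * (ε / (n2 τ (star t) + 1)) ≤ ε := by
        rw [mul_div_assoc', div_le_iff₀ (by positivity)]
        nlinarith
      linarith
    have h5 : ‖τ (t * z) - τ (t * x)‖ = 0 :=
      le_antisymm (le_of_forall_pos_le_add h4) (norm_nonneg _)
    exact sub_eq_zero.1 (norm_eq_zero.1 h5)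
  · intro hx
    have h2 : K ⊆ {y | star y = y} := by
      refine convexHull_min ?_ ?_
      · rintro _ ⟨w, hw, rfl⟩
        change star (w * x * star w) = w * x * star w
        rw [star_mul, star_star, star_mul, hx]
        noncomm_ring
      · intro y₁ h₁ y₂ h₂ a b _ _ _
        have h₁' : star y₁ = y₁ := h₁
        have h₂' : star y₂ = y₂ := h₂
        change star (a • y₁ + b • y₂) = a • y₁ + b • y₂
        rw [star_add, star_smul, star_smul, h₁', h₂', star_trivial, star_trivial]
    refine sub_eq_zero.1 (Gx_small h (C := 2) (by norm_num) fun ε hε => ?_)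
    obtain ⟨y, hy, hlt⟩ := hz1 ε hε
    have h3 : star y = y := h2 hy
    have h4 : star z - z = star (z - y) + (y - z) := by
      rw [star_sub, h3]
      abel
    rw [h4]
    have h5 := n2_add_le h (star (z - y)) (y - z)
    rw [n2_star h, n2_sub_comm y z] at h5
    linarith
  · intro a ha
    have h2 : K ⊆ {y | a * y = 0} := by
      refine convexHull_min ?_ (Gx_convex (LinearMap.mulLeft ℂ a) 0)
      rintro _ ⟨w, hw, rfl⟩
      exact ha w hw
    refine Gx_small h (C := ‖a‖) (norm_nonneg a) fun ε hε => ?_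
    obtain ⟨y, hy, hlt⟩ := hz1 ε hε
    have h3 : a * y = 0 := h2 hy
    have h4 : a * z = a * (z - y) := by rw [mul_sub, h3, sub_zero]
    rw [h4]
    exact (n2_mul_le h a (z - y)).trans (by gcongr)
  · intro a ha
    have h2 : K ⊆ {y | a * y - y = 0} := by
      refine convexHull_min ?_ (Gx_convex (LinearMap.mulLeft ℂ a - LinearMap.id) 0)
      rintro _ ⟨w, hw, rfl⟩
      exact sub_eq_zero.2 (ha w hw)
    refine sub_eq_zero.1 (Gx_small h (C := ‖a‖ + 1) (by positivity) fun ε hε => ?_)
    obtain ⟨y, hy, hlt⟩ := hz1 ε hε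
    have h3 : a * y - y = 0 := h2 hy
    have h4 : a * z - z = a * (z - y) - (z - y) := by
      have : a * y = y := sub_eq_zero.1 h3
      rw [mul_sub, this]
      abel
    rw [h4]
    have h5 := n2_add_le h (a * (z - y)) (-(z - y))
    rw [n2_neg, ← sub_eq_add_neg] at h5
    have h6 := n2_mul_le h a (z - y)
    have h7 : ‖a‖ * n2 τ (z - y) ≤ ‖a‖ * ε := by gcongr
    linarith

/-- centre-valued trace -/
theorem cexp (h : IsTr τ) (x : N) :
    ∃ z : N, (∀ a : N, z * a = a * z) ∧
      (∀ t : N, (∀ a : N, t * a = a * t) → τ (t * z) = τ (t * x)) ∧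
      (star x = x → star z = z) ∧ (∀ a : N, (∀ b : N, a * b * x = 0) → a * z = 0) := by
  obtain ⟨z, h1, h2, h3, h4, -⟩ := gexp h (unitary N : Set N) (fun w hw => hw)
    (one_mem (unitary N)) (fun w hw w' hw' => mul_mem hw hw') x
  refine ⟨z, ?_, fun t ht => h2 t fun w _ => (ht w).symm, h3, fun a ha => h4 a fun w _ => ?_⟩
  · intro a
    have ha : a ∈ Submodule.span ℂ (unitary N : Set N) := by
      rw [CStarAlgebra.span_unitary]
      trivial
    induction ha using Submodule.span_induction with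
    | mem w hw => exact (h1 w hw).symm
    | zero => simp
    | add a b _ _ ha hb => rw [mul_add, add_mul, ha, hb]
    | smul c a _ ha => rw [mul_smul_comm, smul_mul_assoc, ha]
  · rw [← mul_assoc, ← mul_assoc, ha w, zero_mul]

/-- conditional expectation onto the commutant of `u` -/
theorem uexp (h : IsTr τ) {u : N} (hu : u ∈ unitary N) (x : N) :
    ∃ z : N, z * u = u * z ∧ (∀ t : N, t * u = u * t → τ (t * z) = τ (t * x)) ∧
      (star x = x → star z = z) ∧ (∀ a : N, a * u = u * a → a * x = x → a * z = z) := by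
  obtain ⟨z, h1, h2, h3, -, h4⟩ := gexp h {w | ∃ k : ℕ, w = u ^ k}
    (by
      rintro _ ⟨k, rfl⟩
      exact pow_mem hu k)
    ⟨0, (pow_zero u).symm⟩
    (by
      rintro _ ⟨k, rfl⟩ _ ⟨l, rfl⟩
      exact ⟨k + l, (pow_add u k l).symm⟩) x
  refine ⟨z, ?_, ?_, h3, ?_⟩
  · have h5 := h1 u ⟨1, (pow_one u).symm⟩
    exact h5.symm
  · intro t ht
    refine h2 t ?_
    rintro _ ⟨k, rfl⟩
    have h5 : Commute u t := ht.symm
    exact h5.pow_left k
  · intro a ha hax
    refine h4 a ?_
    rintro _ ⟨k, rfl⟩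
    have h5 : Commute a (u ^ k) := Commute.pow_right (show Commute a u from ha) k
    calc a * (u ^ k * x * star (u ^ k)) = (a * u ^ k) * x * star (u ^ k) := by noncomm_ring
      _ = (u ^ k * a) * x * star (u ^ k) := by rw [h5.eq]
      _ = u ^ k * (a * x) * star (u ^ k) := by noncomm_ring
      _ = u ^ k * x * star (u ^ k) := by rw [hax]

end ST
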