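import Pool.Agent.H77.ST.Mp
import Pool.Agent.H77.ST.Gx

/-!
# Cm: comparison of projections

`csupp`: let `t = cexp(g)`: central, selfadjoint, `τ(s t) = τ(s g)` for central `s`.  If `g = 0`
take `z = 0`.  Otherwise `τ(t) = τ(g) > 0`, `t ≠ 0`; `polar2` for `y = t` gives `v`, which commutes
with everything (as everything commutes with `t = t*`), `z = v* v` is a central projection and
`t z = t`.  `τ((1-z) g) = τ((1-z) t) = 0` and `(1-z) g` is a projection (`z` central), so
`z g = g` (`proj_tau`).  If `c a g = 0` for all `a`, i.e. `c b g = 0`, then `c t = 0` (`cexp`); then for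
selfadjoint `c`: `t (1 - c) = t` (`t` central), so `v (1 - c) = v`, `v c = 0`, `z c = 0`.

`compare`: `x` from `max_pi`, `f' = f - x* x`, `g' = g - x x*` (projections), `f' a* g' = 0` for all
`a` (adjoint of `g' a f' = 0`), so with `z = csupp(g')`, `c = f'`: `z g' = g'`, `z f' = 0`.
Then `z f = z x* x = (z x)* (z x)` (`z` central), `g (z x) = z x`; and
`(1-z) g = (1-z) x x*`, so `y = (1-z) x*` satisfies `y* y = (1-z) x x* = (1-z) g`,
`f y = (1-z) f x* = y`.

`sub_of_trace`: `x` from `max_pi` (from `e` to `f`), `e' = e - x* x`, `f' = f - x x*`,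
`f' a e' = 0`.  `z = csupp(e')` with `c = f'`: `z e' = e'`, `z f' = 0`.
`τ(z e) = τ(e') + τ(z x* x) = τ(e') + τ(z x x*) = τ(e') + τ(z f)` (`z central`, `z f' = 0`), so
`hz z` gives `τ(e') ≤ 0`, `e' = 0`, `x* x = e`.
-/

open Filter Topology

namespace ST

open SC

variable {N : Type*} [CStarAlgebra N] {τ : N →ₗ[ℂ] ℂ}

theorem cproj_mul {z p : N} (hz : CProj z) (hp : IsProj p) : IsProj (z * p) := by
  obtain ⟨⟨z1, z2⟩, z3⟩ := hz
  obtain ⟨p1, p2⟩ := hp
  refine ⟨?_, ?_⟩
  · rw [star_mul, z1, p1, z3]
  · calc z * p * (z * p) = z * (p * z) * p := by simp only [mul_assoc]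
      _ = (z * z) * (p * p) := by rw [← z3 p]; simp only [mul_assoc]
      _ = z * p := by rw [z2, p2]

theorem cproj_compl {z : N} (hz : CProj z) : CProj (1 - z) := by
  obtain ⟨⟨z1, z2⟩, z3⟩ := hz
  refine ⟨⟨by rw [star_sub, star_one, z1], ?_⟩, fun a => ?_⟩
  · rw [sub_mul, one_mul, mul_sub, mul_one, z2, sub_self, sub_zero]
  · rw [sub_mul, mul_sub, one_mul, mul_one, z3]

/-- the difference of a projection and the range projection of a partial isometry below it -/
theorem isProj_sub {f x : N} (hf : IsProj f) (hx : PIso x) (hfx : f * x = x) :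
    IsProj (f - x * star x) := by
  obtain ⟨f1, f2⟩ := hf
  have h1 : x * star x * x = x := hx
  have h2 : star x * f = star x := by
    have h3 := congrArg star hfx
    rwa [star_mul, f1] at h3
  refine ⟨by rw [star_sub, f1, star_mul, star_star], ?_⟩
  have e1 : f * (x * star x) = x * star x := by rw [← mul_assoc, hfx]
  have e2 : x * star x * f = x * star x := by rw [mul_assoc, h2]
  have e3 : x * star x * (x * star x) = x * star x := by rw [← mul_assoc, h1]
  rw [sub_mul, mul_sub, mul_sub, f2, e1, e2, e3, sub_self, sub_zero]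

theorem isProj_sub' {f x : N} (hf : IsProj f) (hx : PIso x) (hfx : x * f = x) :
    IsProj (f - star x * x) := by
  have h1 : star x * star (star x) * star x = star x := by
    have h2 : x * star x * x = x := hx
    have h3 := congrArg star h2
    rw [star_mul, star_mul] at h3
    rw [mul_assoc]
    exact h3
  have h2 : f * star x = star x := by
    have h3 := congrArg star hfx
    rwa [star_mul, hf.1] at h3
  have h3 := isProj_sub hf (x := star x) h1 h2
  rwa [star_star] at h3

theorem csupp (h : IsTr τ) {g : N} (hg : IsProj g) :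
    ∃ z : N, CProj z ∧ z * g = g ∧
      ∀ c : N, star c = c → (∀ a : N, c * a * g = 0) → z * c = 0 := by
  by_cases hg0 : g = 0
  · refine ⟨0, ⟨⟨star_zero _, zero_mul _⟩, fun a => by rw [zero_mul, mul_zero]⟩, by rw [hg0, mul_zero],
      fun c _ _ => zero_mul _⟩
  obtain ⟨t, htc, htt, hts, hta⟩ := cexp h g
  have hts' : star t = t := hts hg.1
  have ht0 : t ≠ 0 := by
    intro h0
    apply hg0
    apply (proj_tau h hg).2.2.2
    have h1 := htt 1 (fun a => by rw [one_mul, mul_one])
    rw [h0, mul_zero, map_zero, one_mul] at h1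
    rw [← h1, Complex.zero_re]
  obtain ⟨v, -, hvP, -, he, hb, hy⟩ := polar2 h t ht0
  have hvc : ∀ b : N, b * v = v * b := fun b => hb b (htc b).symm (by rw [hts']; exact (htc b).symm)
  have hvs : ∀ b : N, b * star v = star v * b := by
    intro b
    have h1 := congrArg star (hvc (star b))
    rw [star_mul, star_mul, star_star] at h1
    exact h1.symm
  have hzc : ∀ a : N, star v * v * a = a * (star v * v) := by
    intro a
    rw [mul_assoc, ← hvc a, ← mul_assoc, ← hvs a, mul_assoc]
  have hz : CProj (star v * v) := ⟨⟨by rw [star_mul, star_star], hvP⟩, hzc⟩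
  refine ⟨star v * v, hz, ?_, ?_⟩
  · have h1 : IsProj ((1 - star v * v) * g) := cproj_mul (cproj_compl hz) hg
    have h2 := htt (1 - star v * v) (cproj_compl hz).2
    have h3 : (1 - star v * v) * t = 0 := by
      rw [(cproj_compl hz).2 t, mul_sub, mul_one, hy, sub_self]
    rw [h3, map_zero] at h2
    have h4 := (proj_tau h h1).2.2.2 (by rw [← h2, Complex.zero_re])
    rw [sub_mul, one_mul] at h4
    exact (sub_eq_zero.1 h4).symm
  · intro c hc hca
    have h1 : c * t = 0 := hta c hca
    have h2 : t * (1 - c) = t := by rw [mul_sub, mul_one, htc c, h1, sub_zero]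
    have h3 := he (1 - c) (by rw [star_sub, star_one, hc]) h2
    have h4 : v * c = 0 := by
      rw [mul_sub, mul_one] at h3
      exact (sub_eq_self.1 h3)
    rw [mul_assoc, h4, mul_zero]

theorem compare (h : IsTr τ) {f g : N} (hf : IsProj f) (hg : IsProj g) :
    ∃ z : N, CProj z ∧ (∃ x : N, star x * x = z * f ∧ g * x = x) ∧
      ∃ y : N, star y * y = (1 - z) * g ∧ f * y = y := by
  obtain ⟨x, hx, hgx, hxf, hmax⟩ := max_pi h hf hg
  have hg' := isProj_sub hg hx hgx
  have hf' := isProj_sub' hf hx hxf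
  obtain ⟨z, hz, hz1, hz2⟩ := csupp h hg'
  have hz3 : z * (f - star x * x) = 0 := by
    apply hz2 _ hf'.1
    intro a
    have h1 := congrArg star (hmax (star a))
    rw [star_mul, star_mul, star_star, hf'.1, hg'.1, star_zero, ← mul_assoc] at h1
    exact h1
  have hc := cproj_compl hz
  refine ⟨z, hz, ⟨z * x, ?_, ?_⟩, (1 - z) * star x, ?_, ?_⟩
  · rw [mul_sub, sub_eq_zero] at hz3
    rw [hz3, star_mul, hz.1.1]
    calc star x * z * (z * x) = star x * (z * z) * x := by simp only [mul_assoc]
      _ = star x * z * x := by rw [hz.1.2]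
      _ = z * (star x * x) := by rw [← hz.2 (star x), mul_assoc]
  · rw [← mul_assoc, ← hz.2 g, mul_assoc, hgx]
  · have h1 : (1 - z) * (g - x * star x) = 0 := by rw [sub_mul, one_mul, hz1, sub_self]
    rw [mul_sub, sub_eq_zero] at h1
    rw [h1, star_mul, star_star, hc.1.1]
    calc x * (1 - z) * ((1 - z) * star x) = x * ((1 - z) * (1 - z)) * star x := by
          simp only [mul_assoc]
      _ = x * (1 - z) * star x := by rw [hc.1.2]
      _ = (1 - z) * (x * star x) := by rw [← hc.2 x, mul_assoc]
  · have h2 : f * star x = star x := by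
      have h3 := congrArg star hxf
      rwa [star_mul, hf.1] at h3
    rw [← mul_assoc, ← hc.2 f, mul_assoc, h2]

/-- `τ(z x* x) = τ(z x x*)` for central `z`. -/
theorem tau_central (h : IsTr τ) {z : N} (hz : ∀ a : N, z * a = a * z) (x : N) :
    τ (z * (star x * x)) = τ (z * (x * star x)) := by
  rw [← mul_assoc, h.tracial, ← mul_assoc, ← hz x, mul_assoc]

theorem sub_of_trace (h : IsTr τ) {e f : N} (he : IsProj e) (hf : IsProj f)
    (hz : ∀ z : N, CProj z → (τ (z * e)).re ≤ (τ (z * f)).re) :
    ∃ x : N, star x * x = e ∧ f * x = x := by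
  obtain ⟨x, hx, hfx, hxe, hmax⟩ := max_pi h he hf
  have hf' := isProj_sub hf hx hfx
  have he' := isProj_sub' he hx hxe
  obtain ⟨z, hzc, hz1, hz2⟩ := csupp h he'
  have hz3 := hz2 _ hf'.1 hmax
  refine ⟨x, ?_, hfx⟩
  have h1 := hz z hzc
  have e1 : z * e = (e - star x * x) + z * (star x * x) := by
    rw [← hz1]
    nth_rewrite 1 [mul_sub]
    rw [sub_add_cancel]
  have e2 : τ (z * (star x * x)) = τ (z * f) := by
    rw [tau_central h hzc.2, ← sub_eq_zero, ← map_sub, ← mul_sub]
    rw [← neg_sub, mul_neg, hz3, neg_zero, map_zero]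
  rw [e1, map_add, e2, Complex.add_re] at h1
  have h2 := proj_tau h he'
  have h3 := h2.2.2.2 (le_antisymm (by linarith) h2.2.1)
  exact (sub_eq_zero.1 h3).symm

/-- if `x* x = e`, `f x = x` then `τ(z e) ≤ τ(z f)` for central projections `z`. -/
theorem trace_of_sub (h : IsTr τ) {e f x : N} (he : IsProj e) (hf : IsProj f)
    (hx : star x * x = e) (hfx : f * x = x) (z : N) (hz : CProj z) :
    (τ (z * e)).re ≤ (τ (z * f)).re := by
  have hp : PIso x := piso_of_proj (by rw [hx]; exact he.2)
  have h1 := (proj_tau h (cproj_mul hz (isProj_sub hf hp hfx))).2.1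
  rw [mul_sub, map_sub, Complex.sub_re] at h1
  rw [← hx, tau_central h hz.2]
  linarith

end ST
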