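import Pool.Agent.H77.ST.Ba2

/-!
# P2: polar, with more conclusions (compare `SC/Cp1.lean`)

The proof of `SC.polar` (`Pool/Agent/H77/SC/Cp1.lean`: `v` is the 2-norm limit of
`v_k = y f_k(a)`, `a = y* y`, `f_k(t) = (t + 1/(k+1))^{-1/2}`), with two more conclusions:
* if `b` commutes with `y` and with `y*`, it commutes with `a`, `f_k(a)`, `v_k`, so with `v`;
* `a P = a` with `P = v* v`, so `(y (1-P))* (y (1-P)) = (1-P) a (1-P) = 0` and `y P = y`.
-/

open Filter Topology

namespace ST

open SC

variable {N : Type*} [CStarAlgebra N] {τ : N →ₗ[ℂ] ℂ}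

private noncomputable def pf (k : ℕ) (t : ℝ) : ℝ := 1 / Real.sqrt (|t| + 1 / ((k : ℝ) + 1))

private lemma pf_pos (k : ℕ) (t : ℝ) : 0 < |t| + 1 / ((k : ℝ) + 1) := by positivity

private lemma pf_cont (k : ℕ) : Continuous (pf k) := by
  unfold pf
  refine Continuous.div continuous_const ?_ ?_
  · exact (continuous_abs.add continuous_const).sqrt
  · intro t
    exact (Real.sqrt_pos.2 (pf_pos k t)).ne'

private lemma pf_nonneg (k : ℕ) (t : ℝ) : 0 ≤ pf k t := by unfold pf; positivity

private lemma pf_sq (k : ℕ) (t : ℝ) : pf k t * pf k t = 1 / (|t| + 1 / ((k : ℝ) + 1)) := by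
  unfold pf
  rw [div_mul_div_comm, one_mul, Real.mul_self_sqrt (pf_pos k t).le]

private lemma pf_mono {k l : ℕ} (hkl : k ≤ l) (t : ℝ) : pf k t ≤ pf l t := by
  unfold pf
  apply one_div_le_one_div_of_le (Real.sqrt_pos.2 (pf_pos l t))
  apply Real.sqrt_le_sqrt
  have : (1 : ℝ) / ((l : ℝ) + 1) ≤ 1 / ((k : ℝ) + 1) := by
    apply one_div_le_one_div_of_le (by positivity)
    have : (k : ℝ) ≤ l := by exact_mod_cast hkl
    linarith
  linarith

theorem polar2 (h : IsTr τ) (y : N) (hy : y ≠ 0) :
    ∃ v : N, v ≠ 0 ∧ star v * v * (star v * v) = star v * v ∧ (∀ f : N, f * y = y → f * v = v) ∧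
      (∀ e : N, star e = e → y * e = y → v * e = v) ∧
      (∀ b : N, b * y = y * b → b * star y = star y * b → b * v = v * b) ∧
      y * (star v * v) = y := by
  obtain ⟨a, ha⟩ : ∃ a : N, a = star y * y := ⟨_, rfl⟩
  have hsa : IsSelfAdjoint a := by rw [ha]; exact IsSelfAdjoint.star_mul_self y
  have hsp : ∀ t ∈ spectrum ℝ a, 0 ≤ t := by
    rw [ha]
    exact fun t ht => spectrum_star_mul_self_nonneg t ht
  -- continuous functions of `a`
  have hmul : ∀ f g : ℝ → ℝ, Continuous f → Continuous g →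
      cfc f a * cfc g a = cfc (fun t => f t * g t) a := fun f g hf hg =>
    (cfc_mul f g a hf.continuousOn hg.continuousOn).symm
  have hsub : ∀ f g : ℝ → ℝ, Continuous f → Continuous g →
      cfc f a - cfc g a = cfc (fun t => f t - g t) a := fun f g hf hg =>
    (cfc_sub f g a hf.continuousOn hg.continuousOn).symm
  have hida : cfc (fun t : ℝ => t) a = a := cfc_id' ℝ a hsa
  have hstar : ∀ f : ℝ → ℝ, star (cfc f a) = cfc f a := fun f => cfc_predicate f a
  have hpos : ∀ f : ℝ → ℝ, Continuous f → (∀ t ∈ spectrum ℝ a, 0 ≤ f t) →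
      0 ≤ (τ (cfc f a)).re := by
    intro f hf h0
    have e : cfc f a = star (cfc (fun t => Real.sqrt (f t)) a) * cfc (fun t => Real.sqrt (f t)) a := by
      rw [hstar, hmul _ _ hf.sqrt hf.sqrt]
      exact cfc_congr fun t ht => (Real.mul_self_sqrt (h0 t ht)).symm
    rw [e]
    exact h.nonneg _
  have hka : ∀ f : ℝ → ℝ, Continuous f → cfc f a * a = cfc (fun t => f t * t) a := by
    intro f hf
    have h1 := hmul f (fun t => t) hf continuous_id
    rwa [hida] at h1
  have hak : ∀ f : ℝ → ℝ, Continuous f → a * cfc f a = cfc (fun t => t * f t) a := by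
    intro f hf
    have h1 := hmul (fun t => t) f continuous_id hf
    rwa [hida] at h1
  -- the sequence
  obtain ⟨F, hF⟩ : ∃ F : ℕ → N, ∀ k, F k = cfc (pf k) a := ⟨_, fun _ => rfl⟩
  obtain ⟨V, hV⟩ : ∃ V : ℕ → N, ∀ k, V k = y * F k := ⟨_, fun _ => rfl⟩
  have hFs : ∀ k, star (F k) = F k := by
    intro k
    rw [hF, hstar]
  have hVV : ∀ k l, star (V k) * V l = cfc (fun t => pf k t * t * pf l t) a := by
    intro k l
    have e : star (V k) * V l = F k * a * F l := by
      rw [hV, hV, star_mul, hFs, ha]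
      simp only [mul_assoc]
    have hk : Continuous fun t : ℝ => pf k t * t := (pf_cont k).mul continuous_id
    rw [e, hF, hF, hka _ (pf_cont k), hmul _ _ hk (pf_cont l)]
  have hcc : ∀ k l, Continuous fun t : ℝ => pf k t * t * pf l t := fun k l =>
    ((pf_cont k).mul continuous_id).mul (pf_cont l)
  have hV1 : ∀ k, ‖V k‖ ≤ 1 := by
    intro k
    have h1 : ‖V k‖ * ‖V k‖ ≤ 1 := by
      rw [← CStarRing.norm_star_mul_self, hVV]
      refine norm_cfc_le zero_le_one fun t ht => ?_
      have ht0 := hsp t ht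
      have e : pf k t * t * pf k t = t / (|t| + 1 / ((k : ℝ) + 1)) := by
        have := pf_sq k t
        calc pf k t * t * pf k t = t * (pf k t * pf k t) := by ring
          _ = _ := by rw [this]; ring
      rw [e, Real.norm_eq_abs, abs_of_nonneg (div_nonneg ht0 (pf_pos k t).le),
        div_le_one (pf_pos k t), abs_of_nonneg ht0]
      have : (0 : ℝ) < 1 / ((k : ℝ) + 1) := by positivity
      linarith
    nlinarith [norm_nonneg (V k)]
  obtain ⟨c, hc⟩ : ∃ c : ℕ → ℝ, ∀ k, c k = (τ (cfc (fun t => pf k t * t * pf k t) a)).re :=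
    ⟨_, fun _ => rfl⟩
  have hcn : ∀ k, c k = n2 τ (V k) ^ 2 := by
    intro k
    rw [n2_sq h, hVV, hc]
  have hc1 : ∀ k, c k ≤ 1 := by
    intro k
    rw [hcn]
    have h1 := (n2_le_norm h (V k)).trans (hV1 k)
    nlinarith [n2_nonneg (τ := τ) (V k)]
  have hdiff : ∀ k l, k ≤ l → n2 τ (V l - V k) ^ 2 ≤ c l - c k := by
    intro k l hkl
    have c1 : Continuous fun t : ℝ => pf l t * t * pf l t - pf l t * t * pf k t :=
      (hcc l l).sub (hcc l k)
    have c2 : Continuous fun t : ℝ => pf k t * t * pf l t - pf k t * t * pf k t :=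
      (hcc k l).sub (hcc k k)
    have c3 : Continuous fun t : ℝ => pf l t * t * pf l t - pf k t * t * pf k t :=
      (hcc l l).sub (hcc k k)
    have e1 : star (V l - V k) * (V l - V k) =
        cfc (fun t => pf l t * t * pf l t - pf l t * t * pf k t -
          (pf k t * t * pf l t - pf k t * t * pf k t)) a := by
      rw [star_sub, sub_mul, mul_sub, mul_sub, hVV, hVV, hVV, hVV,
        hsub _ _ (hcc l l) (hcc l k), hsub _ _ (hcc k l) (hcc k k),
        hsub _ _ c1 c2]
    have hC : Continuous fun t : ℝ => pf l t * t * pf l t - pf l t * t * pf k t -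
          (pf k t * t * pf l t - pf k t * t * pf k t) :=
      c1.sub c2
    have h2 : 0 ≤ (τ (cfc (fun t => (pf l t * t * pf l t - pf k t * t * pf k t) -
        (pf l t * t * pf l t - pf l t * t * pf k t -
          (pf k t * t * pf l t - pf k t * t * pf k t))) a)).re := by
      refine hpos _ (c3.sub hC) fun t ht => ?_
      have ht0 := hsp t ht
      have h3 := pf_mono hkl t
      have h4 := pf_nonneg k t
      have e : (pf l t * t * pf l t - pf k t * t * pf k t) -
        (pf l t * t * pf l t - pf l t * t * pf k t -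
          (pf k t * t * pf l t - pf k t * t * pf k t)) = 2 * (t * (pf k t * (pf l t - pf k t))) := by
        ring
      rw [e]
      have : 0 ≤ pf l t - pf k t := by linarith
      positivity
    rw [← hsub _ _ c3 hC, ← hsub _ _ (hcc l l) (hcc k k), map_sub, map_sub,
      Complex.sub_re, Complex.sub_re] at h2
    rw [n2_sq h, e1, hc, hc]
    linarith
  have hmono : Monotone c := by
    intro k l hkl
    have := hdiff k l hkl
    nlinarith [sq_nonneg (n2 τ (V l - V k))]
  have hcau : ∀ ε : ℝ, 0 < ε → ∃ K, ∀ k ≥ K, ∀ l ≥ K, n2 τ (V k - V l) < ε := by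
    intro ε hε
    have hb : BddAbove (Set.range c) := ⟨1, by rintro _ ⟨k, rfl⟩; exact hc1 k⟩
    have hlim := (tendsto_atTop_ciSup hmono hb).cauchySeq
    rw [Metric.cauchySeq_iff] at hlim
    obtain ⟨K, hK⟩ := hlim (ε ^ 2) (by positivity)
    have main : ∀ k l, K ≤ k → k ≤ l → n2 τ (V l - V k) < ε := by
      intro k l hk hkl
      have h1 := hK l (le_trans hk hkl) k hk
      rw [Real.dist_eq] at h1
      have h2 := hdiff k l hkl
      have h3 := le_abs_self (c l - c k)
      have h4 : n2 τ (V l - V k) ^ 2 < ε ^ 2 := by linarith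
      exact lt_of_pow_lt_pow_left₀ 2 hε.le h4
    refine ⟨K, fun k hk l hl => ?_⟩
    rcases le_total k l with h1 | h1
    · rw [n2_sub_comm]
      exact main k l hk h1
    · exact main l k hl h1
  obtain ⟨v, hv1, hvlim⟩ := h.complete V hV1 hcau
  have hslim : Tendsto (fun k : ℕ => 1 / ((k : ℝ) + 1)) atTop (𝓝 0) :=
    tendsto_one_div_add_atTop_nhds_zero_nat
  have hzero : ∀ (X : N) (C C' : ℝ),
      (∀ k, n2 τ X ≤ C * n2 τ (V k - v) + C' * (1 / ((k : ℝ) + 1))) → X = 0 := by
    intro X C C' hX
    apply n2_eq_zero h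
    refine le_antisymm ?_ (n2_nonneg _)
    have h1 : Tendsto (fun k : ℕ => C * n2 τ (V k - v) + C' * (1 / ((k : ℝ) + 1))) atTop
        (𝓝 (C * 0 + C' * 0)) := (hvlim.const_mul C).add (hslim.const_mul C')
    rw [mul_zero, mul_zero, add_zero] at h1
    exact ge_of_tendsto' h1 hX
  -- transfer of one-sided identities
  have hleft : ∀ f : N, (∀ k, f * V k = V k) → f * v = v := by
    intro f hf
    refine sub_eq_zero.1 (hzero (f * v - v) (‖f‖ + 1) 0 fun k => ?_)
    have e : f * v - v = -(f * (V k - v)) + (V k - v) := by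
      rw [mul_sub, hf k]
      abel
    have h1 := n2_add_le h (-(f * (V k - v))) (V k - v)
    rw [n2_neg] at h1
    have h2 := n2_mul_le h f (V k - v)
    rw [e]
    linarith
  have hright : ∀ f : N, (∀ k, V k * f = V k) → v * f = v := by
    intro f hf
    refine sub_eq_zero.1 (hzero (v * f - v) (‖f‖ + 1) 0 fun k => ?_)
    have e : v * f - v = -((V k - v) * f) + (V k - v) := by
      rw [sub_mul, hf k]
      abel
    have h1 := n2_add_le h (-((V k - v) * f)) (V k - v)
    rw [n2_neg] at h1
    have h2 := n2_mul_le' h (V k - v) f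
    rw [e]
    linarith
  -- the projection
  obtain ⟨P, hP⟩ : ∃ P : N, P = star v * v := ⟨_, rfl⟩
  have hPs : star P = P := by rw [hP, star_mul, star_star]
  have hP1 : ‖P‖ ≤ 1 := by
    rw [hP, CStarRing.norm_star_mul_self]
    nlinarith [norm_nonneg v]
  obtain ⟨G, hG⟩ : ∃ G : ℕ → N, ∀ k, G k = star (V k) * V k := ⟨_, fun _ => rfl⟩
  have hG1 : ∀ k, ‖G k‖ ≤ 1 := by
    intro k
    rw [hG, CStarRing.norm_star_mul_self]
    nlinarith [norm_nonneg (V k), hV1 k]
  have hGP : ∀ k, n2 τ (G k - P) ≤ 2 * n2 τ (V k - v) := by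
    intro k
    have e : G k - P = star (V k) * (V k - v) + star (V k - v) * v := by
      rw [hG, hP, star_sub, mul_sub, sub_mul]
      abel
    have h1 := n2_add_le h (star (V k) * (V k - v)) (star (V k - v) * v)
    have h2 := n2_mul_le h (star (V k)) (V k - v)
    have h3 := n2_mul_le' h (star (V k - v)) v
    rw [norm_star] at h2
    rw [n2_star h] at h3
    have h4 := n2_nonneg (τ := τ) (V k - v)
    have h5 : ‖V k‖ * n2 τ (V k - v) ≤ 1 * n2 τ (V k - v) :=
      mul_le_mul_of_nonneg_right (hV1 k) h4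
    have h6 : n2 τ (V k - v) * ‖v‖ ≤ n2 τ (V k - v) * 1 := mul_le_mul_of_nonneg_left hv1 h4
    rw [e]
    linarith
  have haG : ∀ k, n2 τ (a - a * G k) ≤ 1 / ((k : ℝ) + 1) := by
    intro k
    have e : a - a * G k = cfc (fun t => t - t * (pf k t * t * pf k t)) a := by
      rw [hG, hVV, hak _ (hcc k k)]
      have h1 := hsub (fun t => t) (fun t => t * (pf k t * t * pf k t)) continuous_id
        (continuous_id.mul (hcc k k))
      rwa [hida] at h1
    refine (n2_le_norm h _).trans ?_
    rw [e]
    refine norm_cfc_le (by positivity) fun t ht => ?_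
    have ht0 := hsp t ht
    have hp := pf_pos k t
    have hsk : (0 : ℝ) < 1 / ((k : ℝ) + 1) := by positivity
    have e2 : t - t * (pf k t * t * pf k t) =
        (1 / ((k : ℝ) + 1)) * (t / (|t| + 1 / ((k : ℝ) + 1))) := by
      have h1 : pf k t * t * pf k t = t * (pf k t * pf k t) := by ring
      rw [h1, pf_sq, abs_of_nonneg ht0]
      rw [abs_of_nonneg ht0] at hp
      field_simp
      ring
    have h3 : 0 ≤ t / (|t| + 1 / ((k : ℝ) + 1)) := div_nonneg ht0 hp.le
    have h4 : t / (|t| + 1 / ((k : ℝ) + 1)) ≤ 1 := by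
      rw [div_le_one hp, abs_of_nonneg ht0]
      linarith
    rw [e2, Real.norm_eq_abs, abs_of_nonneg (mul_nonneg hsk.le h3)]
    nlinarith
  have haP : a * P = a := by
    symm
    refine sub_eq_zero.1 (hzero (a - a * P) (‖a‖ * 2) 1 fun k => ?_)
    have e : a - a * P = (a - a * G k) + a * (G k - P) := by
      rw [mul_sub]
      abel
    have h1 := n2_add_le h (a - a * G k) (a * (G k - P))
    have h2 := n2_mul_le h a (G k - P)
    have h3 : ‖a‖ * n2 τ (G k - P) ≤ ‖a‖ * (2 * n2 τ (V k - v)) :=
      mul_le_mul_of_nonneg_left (hGP k) (norm_nonneg a)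
    have h4 := haG k
    rw [e]
    linarith
  have hGPe : ∀ k, G k * P = G k := by
    intro k
    have e : G k = cfc (fun t => pf k t * pf k t) a * a := by
      have hk : Continuous fun t : ℝ => pf k t * pf k t := (pf_cont k).mul (pf_cont k)
      rw [hka _ hk, hG, hVV]
      congr 1
      ext t
      ring
    rw [e, mul_assoc, haP]
  have hPP : P * P = P := by
    refine sub_eq_zero.1 (hzero (P * P - P) 4 0 fun k => ?_)
    have e : P * P - P = -((G k - P) * P) + (G k - P) := by
      rw [sub_mul, hGPe]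
      abel
    have h1 := n2_add_le h (-((G k - P) * P)) (G k - P)
    rw [n2_neg] at h1
    have h2 := n2_mul_le' h (G k - P) P
    have h3 := hGP k
    have h4 : n2 τ (G k - P) * ‖P‖ ≤ n2 τ (G k - P) * 1 :=
      mul_le_mul_of_nonneg_left hP1 (n2_nonneg _)
    rw [e]
    linarith
  have hFcomm : ∀ b : N, Commute a b → ∀ k, F k * b = b * F k := by
    intro b hb k
    rw [hF]
    exact (hb.cfc_real (pf k)).eq
  refine ⟨v, ?_, ?_, ?_, ?_, ?_, ?_⟩
  · intro hv0
    apply hy
    have h1 : a = 0 := by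
      rw [← haP, hP, hv0, mul_zero, mul_zero]
    rw [ha] at h1
    exact CStarRing.star_mul_self_eq_zero_iff y |>.1 h1
  · rw [← hP, hPP]
  · intro f hf
    apply hleft
    intro k
    rw [hV, ← mul_assoc, hf]
  · intro e he hye
    apply hright
    intro k
    have h1 : a * e = a := by rw [ha, mul_assoc, hye]
    have h2 : e * a = a := by
      have := congrArg star h1
      rwa [star_mul, he, hsa.star_eq] at this
    have h3 := hFcomm e (h1.trans h2.symm) k
    rw [hV, mul_assoc, h3, ← mul_assoc, hye]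
  · intro b hb1 hb2
    have hab : Commute a b := by
      change a * b = b * a
      rw [ha, mul_assoc, ← hb1, ← mul_assoc, ← hb2, mul_assoc]
    have hk : ∀ k, b * V k = V k * b := by
      intro k
      rw [hV, mul_assoc, hFcomm b hab k, ← mul_assoc, hb1, mul_assoc]
    refine sub_eq_zero.1 (hzero (b * v - v * b) (‖b‖ + ‖b‖) 0 fun k => ?_)
    have e : b * v - v * b = -(b * (V k - v)) + (V k - v) * b := by
      rw [mul_sub, sub_mul, hk k]
      abel
    have h1 := n2_add_le h (-(b * (V k - v))) ((V k - v) * b)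
    rw [n2_neg] at h1
    have h2 := n2_mul_le h b (V k - v)
    have h3 := n2_mul_le' h (V k - v) b
    rw [e]
    linarith
  · rw [← hP]
    have h1 : star (y - y * P) * (y - y * P) = 0 := by
      have e : star (y - y * P) * (y - y * P) = a - a * P - P * (a - a * P) := by
        rw [star_sub, star_mul, hPs, ha]
        noncomm_ring
      rw [e, haP, sub_self, mul_zero, sub_zero]
    have h2 := CStarRing.star_mul_self_eq_zero_iff _ |>.1 h1
    exact (sub_eq_zero.1 h2).symm

end ST
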