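import Pool.Agent.H77.ST.Pl
import Pool.Agent.H77.ST.P2

/-!
# Mp: a maximal partial isometry between two projections

`exhaust` with `S = {x : PIso x, g x = x, x f = x}`, `le = Extends`, value `(τ (x* x)).re`
(`ext_props` gives monotonicity: `‖y - x‖₂² ≥ 0`), upper bounds from `pi_limit` (`g x = x`, `x f = x`
pass to the limit), start `x0 = 0`.  For the maximal `x` suppose
`y = (g - x x*) a (f - x* x) ≠ 0` (`g - x x*`, `f - x* x` are projections).  `polar2` gives `d ≠ 0`,
`PIso d` (`piso_of_proj`), `(g - x x*) d = d`, `d (f - x* x) = d`.  By `piso_add` `x + d` is in `S`,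
extends `x` and `τ((x+d)* (x+d)) = τ(x* x) + τ(d* d)` with `τ(d* d) > 0`: contradiction.
-/

open Filter Topology

namespace ST

open SC

variable {N : Type*} [CStarAlgebra N] {τ : N →ₗ[ℂ] ℂ}

theorem max_pi (h : IsTr τ) {f g : N} (hf : IsProj f) (hg : IsProj g) :
    ∃ x : N, PIso x ∧ g * x = x ∧ x * f = x ∧
      ∀ a : N, (g - x * star x) * a * (f - star x * x) = 0 := by
  obtain ⟨⟨x, hx, hgx, hxf⟩, -, hmax⟩ := exhaust
    (S := {x : N // PIso x ∧ g * x = x ∧ x * f = x})
    (fun x y => Extends x.1 y.1) (fun x => ext_refl x.2.1)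
    (fun x y z h1 h2 => ext_trans x.2.1 y.2.1 h1 h2)
    (fun x => (τ (star x.1 * x.1)).re)
    (fun x y he => by
      have h1 := (ext_props h x.2.1 y.2.1 he).2.2.2
      have h2 : 0 ≤ n2 τ (y.1 - x.1) ^ 2 := sq_nonneg _
      linarith)
    ⟨1, fun x => (proj_tau h (piso_proj x.2.1).1).2.2.1⟩
    (fun x hext => by
      obtain ⟨y, hy1, hy2, hy3⟩ := pi_limit h (fun k => (x k).1) (fun k => (x k).2.1) hext
      have hgy : g * y = y := by
        refine lim_unique2 h (x := fun k => (x k).1) ?_ hy3
        have h3 : Tendsto (fun k => ‖g‖ * n2 τ ((x k).1 - y)) atTop (𝓝 0) := by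
          simpa using hy3.const_mul ‖g‖
        refine squeeze_zero (fun k => n2_nonneg _) (fun k => ?_) h3
        have e : (x k).1 - g * y = g * ((x k).1 - y) := by
          rw [mul_sub, (x k).2.2.1]
        rw [e]
        exact n2_mul_le h _ _
      have hyf : y * f = y := by
        refine lim_unique2 h (x := fun k => (x k).1) ?_ hy3
        have h3 : Tendsto (fun k => n2 τ ((x k).1 - y) * ‖f‖) atTop (𝓝 0) := by
          simpa using hy3.mul_const ‖f‖
        refine squeeze_zero (fun k => n2_nonneg _) (fun k => ?_) h3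
        have e : (x k).1 - y * f = ((x k).1 - y) * f := by
          rw [sub_mul, (x k).2.2.2]
        rw [e]
        exact n2_mul_le' h _ _
      exact ⟨⟨y, hy1, hgy, hyf⟩, hy2⟩)
    ⟨0, by unfold PIso; rw [zero_mul, zero_mul], mul_zero _, zero_mul _⟩
  refine ⟨x, hx, hgx, hxf, fun a => ?_⟩
  by_contra hy
  obtain ⟨hfs, hff⟩ := hf
  obtain ⟨hgs, hgg⟩ := hg
  have hxx : x * star x * (x * star x) = x * star x := (piso_proj hx).2.2
  have hxx' : star x * x * (star x * x) = star x * x := (piso_proj hx).1.2
  have hg1 : g * (x * star x) = x * star x := by rw [← mul_assoc, hgx]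
  have hsg : star x * g = star x := by
    have := congrArg star hgx
    rwa [star_mul, hgs] at this
  have hg2 : x * star x * g = x * star x := by rw [mul_assoc, hsg]
  have hfsx : f * star x = star x := by
    have := congrArg star hxf
    rwa [star_mul, hfs] at this
  have hf1 : star x * x * f = star x * x := by rw [mul_assoc, hxf]
  have hf2 : f * (star x * x) = star x * x := by rw [← mul_assoc, hfsx]
  have hG : (g - x * star x) * (g - x * star x) = g - x * star x := by
    rw [mul_sub, sub_mul, sub_mul, hgg, hg1, hg2, hxx, sub_self, sub_zero]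
  have hF : (f - star x * x) * (f - star x * x) = f - star x * x := by
    rw [mul_sub, sub_mul, sub_mul, hff, hf1, hf2, hxx', sub_self, sub_zero]
  have hFs : star (f - star x * x) = f - star x * x := by
    rw [star_sub, star_mul, star_star, hfs]
  obtain ⟨d, hd0, hdp, hL, hR, -, -⟩ := polar2 h _ hy
  have hdL : (g - x * star x) * d = d := by
    refine hL _ ?_
    rw [← mul_assoc, ← mul_assoc, hG]
  have hdR : d * (f - star x * x) = d := by
    refine hR _ hFs ?_
    rw [mul_assoc, hF]
  have hd : PIso d := piso_of_proj hdp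
  have hgF : g * (g - x * star x) = g - x * star x := by rw [mul_sub, hgg, hg1]
  have hFf : (f - star x * x) * f = f - star x * x := by rw [sub_mul, hff, hf1]
  have hgd : g * d = d := by
    rw [← hdL, ← mul_assoc, hgF]
  have hdf : d * f = d := by
    rw [← hdR, mul_assoc, hFf]
  have hds : star d = (f - star x * x) * star d := by
    conv_lhs => rw [← hdR, star_mul, hFs]
  have o1 : star x * x * (star d * d) = 0 := by
    rw [hds, ← mul_assoc, ← mul_assoc]
    have : star x * x * (f - star x * x) = 0 := by rw [mul_sub, hf1, hxx', sub_self]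
    rw [this, zero_mul, zero_mul]
  have o2 : x * star x * (d * star d) = 0 := by
    rw [← hdL]
    have : x * star x * (g - x * star x) = 0 := by rw [mul_sub, hg2, hxx, sub_self]
    rw [← mul_assoc, ← mul_assoc, this, zero_mul, zero_mul]
  obtain ⟨a1, a2, a3, -⟩ := piso_add hx hd o1 o2
  have h5 := hmax ⟨x + d, a1, by rw [mul_add, hgx, hgd], by rw [add_mul, hxf, hdf]⟩ a2
  have h6 : (τ (star (x + d) * (x + d))).re ≤ (τ (star x * x)).re := h5
  rw [a3, map_add, Complex.add_re] at h6
  have h7 := h.nonneg d
  have h8 : τ (star d * d) = 0 := by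
    refine Complex.ext ?_ ?_
    · rw [Complex.zero_re]; linarith
    · rw [Complex.zero_im]; exact h.real d
  exact hd0 (h.faithful d h8)

end ST
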