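import Pool.Agent.H77.ST.Hr

/-!
# H2: `haar_log` and `haar_fin` with commutation

`A` in `haar_log` is a 2-norm limit of elements of the closed *-algebra generated by the unitary
`v`; an element `a` commuting with `v` commutes with `v*` (`v` unitary), so with the closed
*-algebra generated by `v`, so with `A` (multiplication by `a` is 2-norm continuous).  In
`haar_fin`, `u' = u exp (-(I/n) A)` with `A` from `haar_log` for `u^n`, so everything commuting with
`u` commutes with `u'` (look at the proof of `haar_fin` in `Hr.lean`).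
-/

open Filter Topology

namespace ST

open SC

variable {N : Type*} [CStarAlgebra N] {τ : N →ₗ[ℂ] ℂ}

private lemma h2_skew {A : N} (hA : star A = A) {c : ℂ} (hc : star c = -c) :
    star (c • A) = -(c • A) := by
  rw [star_smul, hA, hc, neg_smul]

private lemma h2_starI : star (Complex.I) = -Complex.I := Complex.conj_I

private lemma h2_exp_mem {w B : N} (hB : B ∈ StarAlgebra.elemental ℂ w) (c : ℂ) :
    NormedSpace.exp (c • B) ∈ StarAlgebra.elemental ℂ w := by
  rw [NormedSpace.exp_eq_tsum ℂ]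
  refine tsum_mem (StarAlgebra.elemental.isClosed ℂ w) fun i => ?_
  exact SMulMemClass.smul_mem _ (pow_mem (SMulMemClass.smul_mem _ hB) i)

private lemma h2_comm {u B : N} (hu : u ∈ unitary N) {n : ℕ}
    (hB : B ∈ StarAlgebra.elemental ℂ (u ^ n)) : u * B = B * u := by
  have h1 := StarAlgebra.elemental.le_centralizer_centralizer (R := ℂ) (u ^ n) hB
  rw [StarSubalgebra.mem_centralizer_iff] at h1
  have hc : Commute (star u) u := by
    rw [commute_iff_eq, Unitary.star_mul_self_of_mem hu, Unitary.mul_star_self_of_mem hu]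
  have h2 : u ∈ StarSubalgebra.centralizer ℂ {u ^ n} := by
    rw [StarSubalgebra.mem_centralizer_iff]
    intro g hg
    rw [Set.mem_singleton_iff] at hg
    subst hg
    refine ⟨((Commute.refl u).pow_left n).eq, ?_⟩
    rw [star_pow]
    exact (hc.pow_left n).eq
  exact (h1 u h2).1

/-- An element commuting with a unitary commutes with the C*-algebra it generates. -/
private lemma h2_elem {v a B : N} (hv : v ∈ unitary N) (ha : a * v = v * a)
    (hB : B ∈ StarAlgebra.elemental ℂ v) : a * B = B * a := by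
  have h1 := StarAlgebra.elemental.le_centralizer_centralizer (R := ℂ) v hB
  rw [StarSubalgebra.mem_centralizer_iff] at h1
  have h2 : a ∈ StarSubalgebra.centralizer ℂ {v} := by
    rw [StarSubalgebra.mem_centralizer_iff]
    intro g hg
    rw [Set.mem_singleton_iff] at hg
    subst hg
    refine ⟨ha.symm, ?_⟩
    calc star g * a = star g * a * (g * star g) := by
          rw [Unitary.mul_star_self_of_mem hv, mul_one]
      _ = star g * (a * g) * star g := by simp only [mul_assoc]
      _ = star g * (g * a) * star g := by rw [ha]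
      _ = (star g * g) * a * star g := by simp only [mul_assoc]
      _ = a * star g := by rw [Unitary.star_mul_self_of_mem hv, one_mul]
  exact (h1 a h2).1

theorem haar_log2 (h : IsTr τ) {v : N} (hv : v ∈ Haar τ) :
    ∃ A : N, star A = A ∧ ‖A‖ ≤ Real.pi ∧ NormedSpace.exp (Complex.I • A) = v ∧
      (∀ a : N, a * v = v * a → a * A = A * a) ∧
      ∀ ε : ℝ, 0 < ε → ∃ B ∈ StarAlgebra.elemental ℂ v, star B = B ∧ n2 τ (A - B) < ε := by
  obtain ⟨A, hA, hAn, hAe, hAB⟩ := haar_log h hv
  refine ⟨A, hA, hAn, hAe, ?_, hAB⟩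
  intro a ha
  have h1 : n2 τ (a * A - A * a) = 0 := by
    refine eq_zero_of_small (c := 2 * ‖a‖ + 1) (n2_nonneg _) (by positivity) fun ε hε => ?_
    obtain ⟨B, hB1, -, hB3⟩ := hAB ε hε
    have e : a * A - A * a = a * (A - B) + (B - A) * a := by
      have e1 := h2_elem hv.1 ha hB1
      rw [mul_sub, sub_mul, e1]
      abel
    rw [e]
    have h2 := n2_add_le h (a * (A - B)) ((B - A) * a)
    have h3 := n2_mul_le h a (A - B)
    have h4 := n2_mul_le' h (B - A) a
    rw [n2_sub_comm B A] at h4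
    have h5 : ‖a‖ * n2 τ (A - B) ≤ ‖a‖ * ε := mul_le_mul_of_nonneg_left hB3.le (norm_nonneg a)
    nlinarith
  exact sub_eq_zero.1 (n2_eq_zero h h1)

theorem haar_fin2 (h : IsTr τ) {u : N} (hu : u ∈ Haar τ) (n : ℕ) (hn : 1 ≤ n) :
    ∃ u' ∈ unitary N, u' ^ n = 1 ∧ (∀ k : ℕ, 0 < k → k < n → τ (u' ^ k) = 0) ∧
      n2 τ (u - u') ≤ 4 / n ∧ ∀ a : N, a * u = u * a → a * u' = u' * a := by
  have huu : u ∈ unitary N := hu.1
  have hv : u ^ n ∈ Haar τ := by
    refine ⟨pow_mem huu n, fun m hm => ?_⟩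
    rw [← pow_mul]
    exact hu.2 _ (Nat.mul_pos hn hm)
  obtain ⟨A, hA, hAn, hAe, hAc, hAB⟩ := haar_log2 h hv
  -- `A` commutes with `u`
  have hcom : u * A = A * u := by
    have h1 : n2 τ (u * A - A * u) = 0 := by
      refine eq_zero_of_small (c := 2) (n2_nonneg _) (by norm_num) fun ε hε => ?_
      obtain ⟨B, hB1, -, hB3⟩ := hAB ε hε
      have e : u * A - A * u = u * (A - B) + (B - A) * u := by
        have e1 := h2_comm huu hB1
        rw [mul_sub, sub_mul, e1]
        abel
      rw [e]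
      have h2 := n2_add_le h (u * (A - B)) ((B - A) * u)
      rw [n2_unitary_left huu, n2_unitary_right h huu, n2_sub_comm B A] at h2
      linarith
    exact sub_eq_zero.1 (n2_eq_zero h h1)
  have hn0 : (0 : ℝ) < n := Nat.cast_pos.2 hn
  have hnc : (n : ℂ) ≠ 0 := Nat.cast_ne_zero.2 (Nat.pos_iff_ne_zero.1 hn)
  let _ : NormedAlgebra ℚ N := NormedAlgebra.restrictScalars ℚ ℂ N
  have hcst : ∀ k : ℕ, star (-((k : ℂ) * (Complex.I / n))) = -(-((k : ℂ) * (Complex.I / n))) := by
    intro k
    simp [Complex.conj_I, neg_div]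
  have hcn : ∀ k : ℕ, ‖-((k : ℂ) * (Complex.I / n))‖ = (k : ℝ) / n := by
    intro k
    rw [norm_neg, norm_mul, norm_div, Complex.norm_I, Complex.norm_natCast, Complex.norm_natCast]
    ring
  have hpw : ∀ k : ℕ, NormedSpace.exp ((-((1 : ℕ) * (Complex.I / n)) : ℂ) • A) ^ k
      = NormedSpace.exp ((-((k : ℂ) * (Complex.I / n)) : ℂ) • A) := by
    intro k
    rw [← NormedSpace.exp_nsmul, ← Nat.cast_smul_eq_nsmul ℂ, smul_smul]
    congr 2
    push_cast
    ring
  have hE : NormedSpace.exp ((-((1 : ℕ) * (Complex.I / n)) : ℂ) • A) ∈ unitary N :=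
    exp_skew_unitary (h2_skew hA (hcst 1))
  have hcE : Commute u (NormedSpace.exp ((-((1 : ℕ) * (Complex.I / n)) : ℂ) • A)) := by
    apply Commute.exp_right
    exact (commute_iff_eq _ _).2 (by rw [mul_smul_comm, smul_mul_assoc, hcom])
  refine ⟨u * NormedSpace.exp ((-((1 : ℕ) * (Complex.I / n)) : ℂ) • A), mul_mem huu hE, ?_, ?_, ?_, ?_⟩
  · rw [hcE.mul_pow, hpw n]
    have e : (-((n : ℂ) * (Complex.I / n)) : ℂ) • A = -(Complex.I • A) := by
      rw [mul_div_cancel₀ _ hnc, neg_smul]
    rw [e, ← hAe, ← NormedSpace.exp_add_of_commute (Commute.refl (Complex.I • A)).neg_right,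
      add_neg_cancel, NormedSpace.exp_zero]
  · intro k hk hkn
    rw [hcE.mul_pow, hpw k]
    have h1 : ‖τ (u ^ k * NormedSpace.exp ((-((k : ℂ) * (Complex.I / n)) : ℂ) • A))‖ = 0 := by
      refine eq_zero_of_small (c := 1) (norm_nonneg _) (by norm_num) fun ε hε => ?_
      obtain ⟨B, hB1, hB2, hB3⟩ := hAB ε hε
      have h2 : τ (u ^ k * NormedSpace.exp ((-((k : ℂ) * (Complex.I / n)) : ℂ) • B)) = 0 :=
        tau_pow_elemental h hu hk hkn _ (h2_exp_mem hB1 _)
      have e : τ (u ^ k * NormedSpace.exp ((-((k : ℂ) * (Complex.I / n)) : ℂ) • A))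
          = τ (u ^ k * (NormedSpace.exp ((-((k : ℂ) * (Complex.I / n)) : ℂ) • A)
            - NormedSpace.exp ((-((k : ℂ) * (Complex.I / n)) : ℂ) • B))) := by
        rw [mul_sub, map_sub, h2, sub_zero]
      rw [e]
      refine (tau_le_n2 h _).trans ?_
      rw [n2_unitary_left (pow_mem huu k)]
      refine (exp_lip h (h2_skew hA (hcst k)) (h2_skew hB2 (hcst k))).trans ?_
      rw [← smul_sub, n2_smul h, hcn k]
      have h3 : (k : ℝ) / n ≤ 1 := by
        rw [div_le_one hn0]
        exact Nat.cast_le.2 hkn.le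
      calc (k : ℝ) / n * n2 τ (A - B) ≤ 1 * n2 τ (A - B) :=
            mul_le_mul_of_nonneg_right h3 (n2_nonneg _)
        _ ≤ ε * 1 := by linarith
    exact norm_eq_zero.1 h1
  · have e : u - u * NormedSpace.exp ((-((1 : ℕ) * (Complex.I / n)) : ℂ) • A)
        = u * (NormedSpace.exp (0 : N)
          - NormedSpace.exp ((-((1 : ℕ) * (Complex.I / n)) : ℂ) • A)) := by
      rw [NormedSpace.exp_zero, mul_sub, mul_one]
    rw [e, n2_unitary_left huu]
    have h0 : star (0 : N) = -0 := by rw [star_zero, neg_zero]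
    refine (exp_lip h h0 (h2_skew hA (hcst 1))).trans ?_
    rw [zero_sub, n2_neg, n2_smul h, hcn 1]
    have h1 := n2_le_norm h A
    have h2 : n2 τ A ≤ 4 := h1.trans (hAn.trans Real.pi_le_four)
    rw [Nat.cast_one]
    calc (1 : ℝ) / n * n2 τ A ≤ 1 / n * 4 := mul_le_mul_of_nonneg_left h2 (by positivity)
      _ = 4 / n := by ring
  · intro a ha
    have h1 : Commute a u := (commute_iff_eq _ _).2 ha
    have h2 : Commute a A := (commute_iff_eq _ _).2 (hAc a (h1.pow_right n).eq)
    have h3 : Commute a (NormedSpace.exp ((-((1 : ℕ) * (Complex.I / n)) : ℂ) • A)) :=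
      (h2.smul_right _).exp_right
    exact (h1.mul_right h3).eq

end ST
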