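import Pool.Agent.H77.ST.Pl
import Pool.Agent.H77.ST.H2

/-!
# Hc: halving and Haar unitaries in corners of the commutant of a Haar unitary

`small_comm`: for `n ≥ 1` with `1/n < ε` take `u'` from `haar_fin2` and
`g_j = (1/n) Σ_{k<n} ζ^{-jk} u'^k` (`ζ = exp(2πi/n)`): projections with sum `1`, trace `1/n`,
commuting with everything commuting with `u` (in particular with `u` and `p`).  `g_j p` is a
projection commuting with `u`, `Σ g_j p = p ≠ 0`, so some `e = g_j p ≠ 0`, and
`τ(g_j p) = τ(g_j p g_j) ≤ τ(g_j) = 1/n`.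

`half_comm`: `exhaust` with `S = {e : IsProj e, e u = u e, p e = e, τ(e) ≤ τ(p)/2}`,
`le e e' : e' e = e` (then `τ(e' - e) = ‖e' - e‖₂² ≥ 0`), upper bounds: `e_k` nondecreasing,
`‖e_l - e_k‖₂² = τ(e_l) - τ(e_k)`, 2-norm limit (or `pi_limit`: projections are partial isometries
and `Extends e e'` is `e' e = e`).  If the maximal `e` has `τ(e) < τ(p)/2` then `p - e ≠ 0` and
`small_comm` gives `0 ≠ d` under `p - e` with trace `< τ(p)/2 - τ(e)`; `e + d` contradicts the
maximality.

`haar_corner`: as in `SC/X4.lean` (`haar_exists`): iterate `half_comm` below `p` to get projections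
`e k j`, `j < 2^k`, commuting with `u`, with `e 0 0 = p`, `e k j = e (k+1) (2j) + e (k+1) (2j+1)`,
`τ(e k j) = τ(p)/2^k`, and `y = lim Σ_j exp(2πi j/2^k) e k j`.

-/

open Filter Topology

namespace ST

open SC

variable {N : Type*} [CStarAlgebra N] {τ : N →ₗ[ℂ] ℂ}

/-- the average of the powers of `v` -/
private noncomputable def hcAv (n : ℕ) (v : N) : N := ((n : ℂ)⁻¹) • ∑ k ∈ Finset.range n, v ^ k

private theorem hc_mul {n : ℕ} {v : N} (hv : v ^ n = 1) : v * hcAv n v = hcAv n v := by
  unfold hcAv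
  rw [mul_smul_comm]
  congr 1
  have h1 : v * ∑ k ∈ Finset.range n, v ^ k = ∑ k ∈ Finset.range n, v ^ (k + 1) := by
    rw [Finset.mul_sum]
    exact Finset.sum_congr rfl fun k _ => (pow_succ' v k).symm
  have h2 := Finset.sum_range_succ (fun k => v ^ k) n
  have h3 := Finset.sum_range_succ' (fun k => v ^ k) n
  rw [h1]
  rw [h3, hv, pow_zero] at h2
  exact add_right_cancel h2

private theorem hc_pow_mul {n : ℕ} {v w : N} (hv : v * w = w) : v ^ n * w = w := by
  induction n with
  | zero => rw [pow_zero, one_mul]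
  | succ n ih => rw [pow_succ, mul_assoc, hv, ih]

private theorem hc_av_mul {n : ℕ} (hn : 1 ≤ n) {v w : N} (hv : v * w = w) : hcAv n v * w = w := by
  unfold hcAv
  rw [smul_mul_assoc, Finset.sum_mul, Finset.sum_congr rfl fun k _ => hc_pow_mul (n := k) hv, Finset.sum_const,
    Finset.card_range, ← Nat.cast_smul_eq_nsmul ℂ, smul_smul, inv_mul_cancel₀, one_smul]
  exact_mod_cast (by omega : n ≠ 0)

private theorem hc_star (n : ℕ) (v : N) : star (hcAv n v) = hcAv n (star v) := by
  unfold hcAv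
  rw [star_smul, star_sum]
  congr 1
  · simp
  · exact Finset.sum_congr rfl fun k _ => star_pow v k

private theorem hc_proj {n : ℕ} (hn : 1 ≤ n) {v : N} (hu : v ∈ unitary N) (hv : v ^ n = 1) : IsProj (hcAv n v) := by
  have h1 := hc_mul hv
  have h2 : star v * hcAv n v = hcAv n v := by
    have h3 := congrArg (fun x => star v * x) h1
    simp only [← mul_assoc] at h3
    rw [(Unitary.mem_iff.1 hu).1, one_mul] at h3
    exact h3.symm
  have h3 : star (hcAv n v) * hcAv n v = hcAv n v := by
    rw [hc_star]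
    exact hc_av_mul hn h2
  refine ⟨?_, hc_av_mul hn h1⟩
  have h4 := congrArg star h3
  rw [star_mul, star_star, h3] at h4
  exact h4.symm

private theorem hc_comm {n : ℕ} {v a : N} (h : a * v = v * a) : a * hcAv n v = hcAv n v * a := by
  unfold hcAv
  rw [mul_smul_comm, smul_mul_assoc, Finset.mul_sum, Finset.sum_mul]
  congr 1
  refine Finset.sum_congr rfl fun k _ => ?_
  exact ((show Commute a v from h).pow_right k)

/-- the spectral projections of an element of order `n` sum to `1` -/
private theorem hc_sum {n : ℕ} (hn : 1 ≤ n) {ζ : ℂ} (hζ : IsPrimitiveRoot ζ n) (v : N) :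
    ∑ j ∈ Finset.range n, hcAv n (ζ ^ j • v) = 1 := by
  have hnc : (n : ℂ) ≠ 0 := by exact_mod_cast (by omega : n ≠ 0)
  unfold hcAv
  rw [← Finset.smul_sum, Finset.sum_comm]
  have h1 : ∀ k ∈ Finset.range n, ∑ j ∈ Finset.range n, (ζ ^ j • v) ^ k = if k = 0 then (n : ℂ) • (1 : N) else 0 := by
    intro k hk
    have hk' := Finset.mem_range.1 hk
    have e : ∀ j ∈ Finset.range n, (ζ ^ j • v) ^ k = (ζ ^ k) ^ j • v ^ k := by
      intro j _
      rw [smul_pow, ← pow_mul, ← pow_mul, mul_comm j k]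
    rw [Finset.sum_congr rfl e, ← Finset.sum_smul]
    split_ifs with h0
    · subst h0
      simp
    · have h2 : ζ ^ k ≠ 1 := hζ.pow_ne_one_of_pos_of_lt h0 hk'
      have h3 : (ζ ^ k) ^ n = 1 := by rw [← pow_mul, mul_comm, pow_mul, hζ.pow_eq_one, one_pow]
      have h4 : ∑ j ∈ Finset.range n, (ζ ^ k) ^ j = 0 := by
        rw [geom_sum_eq h2, h3, sub_self, zero_div]
      rw [h4, zero_smul]
  rw [Finset.sum_congr rfl h1, Finset.sum_ite_eq' (Finset.range n) 0, if_pos (Finset.mem_range.2 (by omega)), smul_smul,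
    inv_mul_cancel₀ hnc, one_smul]

private theorem hc_tau (h : IsTr τ) {n : ℕ} (hn : 1 ≤ n) {v : N} (hv : ∀ k : ℕ, 0 < k → k < n → τ (v ^ k) = 0) (c : ℂ) :
    τ (hcAv n (c • v)) = (n : ℂ)⁻¹ := by
  unfold hcAv
  rw [map_smul, map_sum, smul_eq_mul]
  have h1 : ∀ k ∈ Finset.range n, τ ((c • v) ^ k) = if k = 0 then 1 else 0 := by
    intro k hk
    rw [smul_pow, map_smul, smul_eq_mul]
    split_ifs with h0
    · subst h0
      rw [pow_zero, pow_zero, h.map_one, one_mul]
    · rw [hv k (by omega) (Finset.mem_range.1 hk), mul_zero]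
  rw [Finset.sum_congr rfl h1, Finset.sum_ite_eq' (Finset.range n) 0, if_pos (Finset.mem_range.2 (by omega)), mul_one]

private theorem hc_proj_mul {g p : N} (hg : IsProj g) (hp : IsProj p) (hc : g * p = p * g) : IsProj (g * p) := by
  refine ⟨?_, ?_⟩
  · rw [star_mul, hg.1, hp.1, hc]
  · calc g * p * (g * p) = g * (p * g) * p := by noncomm_ring
      _ = g * (g * p) * p := by rw [hc]
      _ = (g * g) * (p * p) := by noncomm_ring
      _ = g * p := by rw [hg.2, hp.2]

private theorem hc_proj_sub {p : N} (hp : IsProj p) : IsProj (1 - p) := by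
  refine ⟨?_, ?_⟩
  · rw [star_sub, star_one, hp.1]
  · calc (1 - p) * (1 - p) = 1 - p - p + p * p := by noncomm_ring
      _ = 1 - p := by rw [hp.2]; noncomm_ring

theorem small_comm (h : IsTr τ) {u : N} (hu : u ∈ Haar τ) {p : N} (hp : IsProj p)
    (hpu : p * u = u * p) (hp0 : p ≠ 0) (ε : ℝ) (hε : 0 < ε) :
    ∃ e : N, IsProj e ∧ e * u = u * e ∧ p * e = e ∧ e ≠ 0 ∧ (τ e).re < ε := by
  obtain ⟨m, hm⟩ := exists_nat_gt (1 / ε)
  obtain ⟨n, hn, hnε⟩ : ∃ n : ℕ, 1 ≤ n ∧ 1 / (n : ℝ) < ε := by
    refine ⟨m + 1, by omega, ?_⟩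
    have h1 : 1 / ε < ((m + 1 : ℕ) : ℝ) := by push_cast; linarith
    rw [div_lt_iff₀ hε] at h1
    rw [div_lt_iff₀ (by positivity)]
    linarith
  obtain ⟨u', hu1, hu2, hu3, -, hu4⟩ := haar_fin2 h hu n hn
  have hζ := Complex.isPrimitiveRoot_exp n (by omega)
  set ζ := Complex.exp (2 * Real.pi * Complex.I / n) with hζd
  have hnorm : ‖ζ‖ = 1 := hζ.norm'_eq_one (by omega)
  have hup : p * u' = u' * p := hu4 p hpu
  have huu : u * u' = u' * u := hu4 u rfl
  have hun : ∀ j : ℕ, ζ ^ j • u' ∈ unitary N := by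
    intro j
    have hc : starRingEnd ℂ (ζ ^ j) * ζ ^ j = 1 := by
      rw [← Complex.normSq_eq_conj_mul_self, Complex.normSq_eq_norm_sq, norm_pow, hnorm]
      simp
    rw [Unitary.mem_iff]
    constructor
    · rw [star_smul, smul_mul_smul_comm, (Unitary.mem_iff.1 hu1).1, Complex.star_def, hc, one_smul]
    · rw [star_smul, smul_mul_smul_comm, (Unitary.mem_iff.1 hu1).2, Complex.star_def, mul_comm, hc, one_smul]
  have hpw : ∀ j : ℕ, (ζ ^ j • u') ^ n = 1 := by
    intro j
    rw [smul_pow, hu2, ← pow_mul, mul_comm, pow_mul, hζ.pow_eq_one, one_pow, one_smul]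
  have hex : ∃ j ∈ Finset.range n, hcAv n (ζ ^ j • u') * p ≠ 0 := by
    by_contra hcon
    push Not at hcon
    apply hp0
    have h1 := hc_sum hn hζ u'
    have h2 := congrArg (fun x => x * p) h1
    simp only [one_mul] at h2
    rw [Finset.sum_mul, Finset.sum_congr rfl hcon, Finset.sum_const_zero] at h2
    exact h2.symm
  obtain ⟨j, -, hj⟩ := hex
  set g := hcAv n (ζ ^ j • u') with hg
  have hgp : IsProj g := hc_proj hn (hun j) (hpw j)
  have hcp : p * g = g * p := hc_comm (by rw [mul_smul_comm, smul_mul_assoc, hup])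
  have hcu : u * g = g * u := hc_comm (by rw [mul_smul_comm, smul_mul_assoc, huu])
  have hproj := hc_proj_mul hgp hp hcp.symm
  refine ⟨g * p, hproj, ?_, ?_, hj, ?_⟩
  · calc g * p * u = g * (p * u) := by noncomm_ring
      _ = g * (u * p) := by rw [hpu]
      _ = (g * u) * p := by noncomm_ring
      _ = (u * g) * p := by rw [hcu]
      _ = u * (g * p) := by noncomm_ring
  · calc p * (g * p) = (p * g) * p := by noncomm_ring
      _ = (g * p) * p := by rw [hcp]
      _ = g * (p * p) := by noncomm_ring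
      _ = g * p := by rw [hp.2]
  · have h1 : IsProj (g * (1 - p)) := hc_proj_mul hgp (hc_proj_sub hp) (by
      rw [mul_sub, sub_mul, mul_one, one_mul, hcp])
    have h2 := (proj_tau h h1).2.1
    have h3 : g * (1 - p) = g - g * p := by noncomm_ring
    rw [h3, map_sub, Complex.sub_re] at h2
    have h4 : τ g = (n : ℂ)⁻¹ := hc_tau h hn hu3 (ζ ^ j)
    have h5 : (τ g).re = 1 / (n : ℝ) := by
      rw [h4, one_div, ← Complex.ofReal_natCast, ← Complex.ofReal_inv, Complex.ofReal_re]
    rw [h5] at h2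
    linarith

private theorem hc_tau_mono (h : IsTr τ) {x y : N} (hx : IsProj x) (hy : IsProj y) (hxy : y * x = x) :
    IsProj (y - x) ∧ (τ x).re ≤ (τ y).re := by
  have h1 : x * y = x := by
    have := congrArg star hxy
    rwa [star_mul, hx.1, hy.1] at this
  have h2 : IsProj (y - x) := by
    refine ⟨?_, ?_⟩
    · rw [star_sub, hy.1, hx.1]
    · calc (y - x) * (y - x) = y * y - y * x - x * y + x * x := by noncomm_ring
        _ = y - x := by rw [hy.2, hxy, h1, hx.2]; noncomm_ring
  refine ⟨h2, ?_⟩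
  have h3 := (proj_tau h h2).2.1
  rw [map_sub, Complex.sub_re] at h3
  linarith

/-- the set of subprojections -/
private abbrev HcS (τ : N →ₗ[ℂ] ℂ) (u p : N) : Type _ :=
  {e : N // IsProj e ∧ e * u = u * e ∧ p * e = e ∧ (τ e).re ≤ (τ p).re / 2}

private theorem hc_norm {p : N} (hp : IsProj p) : ‖p‖ ≤ 1 :=
  piso_norm (show p * star p * p = p by rw [hp.1, hp.2, hp.2])

theorem half_comm (h : IsTr τ) {u : N} (hu : u ∈ Haar τ) {p : N} (hp : IsProj p)
    (hpu : p * u = u * p) :
    ∃ e : N, IsProj e ∧ e * u = u * e ∧ p * e = e ∧ τ e = τ p / 2 := by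
  have hu1 : ‖u‖ ≤ 1 := norm_unitary_le hu.1
  have hp1 : ‖p‖ ≤ 1 := hc_norm hp
  obtain ⟨hpi, hp0, hple, -⟩ := proj_tau h hp
  have h0 : IsProj (0 : N) := ⟨star_zero N, mul_zero 0⟩
  obtain ⟨e, -, hmax⟩ := exhaust (S := HcS τ u p) (fun x y => y.1 * x.1 = x.1) (fun x => x.2.1.2)
    (fun x y z h1 h2 => by
      show z.1 * x.1 = x.1
      rw [← h1, ← mul_assoc, h2])
    (fun x => (τ x.1).re) (fun x y hxy => (hc_tau_mono h x.2.1 y.2.1 hxy).2)
    ⟨1, fun x => (proj_tau h x.2.1).2.2.1⟩
    (by
      intro x hx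
      have hpx : ∀ k, PIso (x k).1 := by
        intro k
        show (x k).1 * star (x k).1 * (x k).1 = (x k).1
        rw [(x k).2.1.1, (x k).2.1.2, (x k).2.1.2]
      obtain ⟨y, hy1, hy2, hy3⟩ := pi_limit h (fun k => (x k).1) hpx (fun k => by
        show (x (k + 1)).1 * (star (x k).1 * (x k).1) = (x k).1
        rw [(x k).2.1.1, (x k).2.1.2]
        exact hx k)
      have hy2' : ∀ k, y * (x k).1 = (x k).1 := by
        intro k
        have := hy2 k
        unfold Extends at this
        rwa [(x k).2.1.1, (x k).2.1.2] at this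
      have hyn : ‖y‖ ≤ 1 := piso_norm hy1
      have hxn : ∀ k, ‖(x k).1‖ ≤ 1 := fun k => hc_norm (x k).2.1
      have hst : star y = y := by
        refine lim_unique2 h (x := fun k => (x k).1) ?_ hy3
        refine hy3.congr fun k => ?_
        rw [← n2_star h, star_sub, (x k).2.1.1]
      have hsq : y * y = y := by
        have h1 := tendsto_mul2 h (x := fun k => (x k).1) (y := fun k => (x k).1) (a := y) (b := y) 1 hxn hyn hy3 hy3
        refine lim_unique2 h (x := fun k => (x k).1) ?_ hy3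
        refine h1.congr fun k => ?_
        rw [(x k).2.1.2]
      have hyu : y * u = u * y := by
        refine lim_unique2 h (x := fun k => (x k).1 * u) ?_ ?_
        · refine squeeze_zero (fun k => n2_nonneg _) (fun k => ?_) hy3
          rw [← sub_mul]
          refine (n2_mul_le' h _ _).trans ?_
          exact mul_le_of_le_one_right (n2_nonneg _) hu1
        · refine squeeze_zero (fun k => n2_nonneg _) (fun k => ?_) hy3
          rw [(x k).2.2.1, ← mul_sub]
          refine (n2_mul_le h _ _).trans ?_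
          exact mul_le_of_le_one_left (n2_nonneg _) hu1
      have hpy : p * y = y := by
        refine lim_unique2 h (x := fun k => (x k).1) ?_ hy3
        refine squeeze_zero (fun k => n2_nonneg _) (fun k => ?_) hy3
        have e : (x k).1 - p * y = p * ((x k).1 - y) := by
          rw [mul_sub, (x k).2.2.2.1]
        rw [e]
        refine (n2_mul_le h _ _).trans ?_
        exact mul_le_of_le_one_left (n2_nonneg _) hp1
      have hty : (τ y).re ≤ (τ p).re / 2 := by
        have h1 : Tendsto (fun k => (τ (x k).1).re) atTop (𝓝 (τ y).re) := by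
          rw [tendsto_iff_norm_sub_tendsto_zero]
          refine squeeze_zero (fun k => norm_nonneg _) (fun k => ?_) hy3
          rw [← Complex.sub_re, ← map_sub, Real.norm_eq_abs]
          exact (Complex.abs_re_le_norm _).trans (tau_le_n2 h _)
        exact le_of_tendsto' h1 fun k => (x k).2.2.2.2
      exact ⟨⟨y, ⟨hst, hsq⟩, hyu, hpy, hty⟩, hy2'⟩)
    ⟨0, h0, by rw [zero_mul, mul_zero], mul_zero p, by rw [map_zero, Complex.zero_re]; linarith⟩
  obtain ⟨he, heu, hpe, hte⟩ := e.2
  have hei := (proj_tau h he).1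
  have he0 := (proj_tau h he).2.1
  have hep : e.1 * p = e.1 := by
    have := congrArg star hpe
    rwa [star_mul, he.1, hp.1] at this
  refine ⟨e.1, he, heu, hpe, ?_⟩
  have hre : (τ e.1).re = (τ p).re / 2 := by
    by_contra hne
    have hlt : (τ e.1).re < (τ p).re / 2 := lt_of_le_of_ne hte hne
    obtain ⟨hq, -⟩ := hc_tau_mono h he hp hpe
    have hqu : (p - e.1) * u = u * (p - e.1) := by
      rw [sub_mul, mul_sub, hpu, heu]
    have hq0 : p - e.1 ≠ 0 := by
      intro h1
      have h2 : (τ p).re = (τ e.1).re := congrArg (fun x => (τ x).re) (sub_eq_zero.1 h1)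
      linarith
    obtain ⟨d, hd1, hd2, hd3, hd4, hd5⟩ := small_comm h hu hq hqu hq0 ((τ p).re / 2 - (τ e.1).re) (by linarith)
    have hed : e.1 * d = 0 := by
      rw [← hd3, ← mul_assoc, mul_sub, hep, he.2, sub_self, zero_mul]
    have hde : d * e.1 = 0 := by
      have := congrArg star hed
      rwa [star_mul, he.1, hd1.1, star_zero] at this
    have hpd : p * d = d := by
      have h1 : p * (p - e.1) = p - e.1 := by rw [mul_sub, hp.2, hpe]
      rw [← hd3, ← mul_assoc, h1]
    have hproj : IsProj (e.1 + d) := by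
      refine ⟨?_, ?_⟩
      · rw [star_add, he.1, hd1.1]
      · calc (e.1 + d) * (e.1 + d) = e.1 * e.1 + e.1 * d + d * e.1 + d * d := by noncomm_ring
          _ = e.1 + d := by rw [he.2, hed, hde, hd1.2, add_zero, add_zero]
    have hdp : 0 < (τ d).re := by
      obtain ⟨-, h1, -, h2⟩ := proj_tau h hd1
      exact lt_of_le_of_ne h1 fun h3 => hd4 (h2 h3.symm)
    have h1 := hmax ⟨e.1 + d, hproj, by rw [add_mul, mul_add, heu, hd2], by rw [mul_add, hpe, hpd], by
      rw [map_add, Complex.add_re]; linarith⟩ (by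
        show (e.1 + d) * e.1 = e.1
        rw [add_mul, he.2, hde, add_zero])
    have h2 : (τ (e.1 + d)).re ≤ (τ e.1).re := h1
    rw [map_add, Complex.add_re] at h2
    linarith
  apply Complex.ext
  · rw [hre]
    simp
  · rw [hei]
    simp [hpi]

end ST
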