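import Pool.Agent.H77.ST.Hc

/-!
# Hk: Haar unitaries in corners of the commutant of a Haar unitary

As in `SC/X4.lean` (`haar_exists`, proved there; same tree argument): iterate `half_comm` below `p`
to get projections `e k j`, `j < 2^k`, commuting with `u`, with `e 0 0 = p`,
`e k j = e (k+1) (2j) + e (k+1) (2j+1)`, mutually orthogonal for fixed `k`, `τ(e k j) = τ(p)/2^k`,
and `y = lim_k Σ_{j<2^k} exp(2πi j/2^k) e k j` (norm limit, or 2-norm limit of elements of norm `≤ 1`).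
`y* y = y y* = p`, `y` commutes with `u`, and
`τ(y^m) = lim τ(p) 2^{-k} Σ_j exp(2πi j m/2^k) = 0` for `m ≥ 1`.
-/

open Filter Topology

namespace ST

open SC

variable {N : Type*} [CStarAlgebra N] {τ : N →ₗ[ℂ] ℂ}

private structure Hk_S (τ : N →ₗ[ℂ] ℂ) (u p : N) (k : ℕ) (e : ℕ → N) : Prop where
  sa : ∀ j, j < 2 ^ k → star (e j) = e j
  idem : ∀ j, j < 2 ^ k → e j * e j = e j
  orth : ∀ i, i < 2 ^ k → ∀ j, j < 2 ^ k → i ≠ j → e i * e j = 0
  sum : ∑ j ∈ Finset.range (2 ^ k), e j = p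
  tr : ∀ j, j < 2 ^ k → τ (e j) = (1 / 2) ^ k * τ p
  comm : ∀ j, j < 2 ^ k → e j * u = u * e j

private theorem Hk_mul {u p : N} {k : ℕ} {e : ℕ → N} (H : Hk_S τ u p k e) (a b : ℕ → ℂ) :
    (∑ j ∈ Finset.range (2 ^ k), a j • e j) * (∑ j ∈ Finset.range (2 ^ k), b j • e j) =
      ∑ j ∈ Finset.range (2 ^ k), (a j * b j) • e j := by
  rw [Finset.sum_mul]
  refine Finset.sum_congr rfl fun i hi => ?_
  rw [Finset.mem_range] at hi
  rw [Finset.mul_sum, Finset.sum_eq_single i]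
  · rw [smul_mul_smul_comm, H.idem i hi]
  · intro j hj hji
    rw [Finset.mem_range] at hj
    rw [smul_mul_smul_comm, H.orth i hi j hj (Ne.symm hji), smul_zero]
  · intro h
    exact absurd (Finset.mem_range.2 hi) h

private theorem Hk_star {u p : N} {k : ℕ} {e : ℕ → N} (H : Hk_S τ u p k e) (a : ℕ → ℂ) :
    star (∑ j ∈ Finset.range (2 ^ k), a j • e j) =
      ∑ j ∈ Finset.range (2 ^ k), (star (a j)) • e j := by
  rw [star_sum]
  refine Finset.sum_congr rfl fun i hi => ?_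
  rw [star_smul, H.sa i (Finset.mem_range.1 hi)]

private theorem Hk_one {u p : N} {k : ℕ} {e : ℕ → N} (H : Hk_S τ u p k e) :
    ∑ j ∈ Finset.range (2 ^ k), (1 : ℂ) • e j = p := by
  simp only [one_smul]
  exact H.sum

private theorem Hk_pow {u p : N} {k : ℕ} {e : ℕ → N} (H : Hk_S τ u p k e) (a : ℕ → ℂ) (m : ℕ) :
    (∑ j ∈ Finset.range (2 ^ k), a j • e j) ^ (m + 1) =
      ∑ j ∈ Finset.range (2 ^ k), (a j ^ (m + 1)) • e j := by
  induction m with
  | zero =>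
    simp only [zero_add, pow_one]
  | succ m ih =>
    rw [pow_succ, ih, Hk_mul H]
    refine Finset.sum_congr rfl fun i _ => ?_
    rw [pow_succ (a i) (m + 1)]

private theorem Hk_two {M : Type*} [AddCommMonoid M] (F : ℕ → M) (n : ℕ) :
    ∑ i ∈ Finset.range (2 * n), F i = ∑ j ∈ Finset.range n, (F (2 * j) + F (2 * j + 1)) := by
  induction n with
  | zero => simp
  | succ n ih =>
    rw [show 2 * (n + 1) = 2 * n + 1 + 1 by ring, Finset.sum_range_succ, Finset.sum_range_succ, ih,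
      Finset.sum_range_succ, add_assoc]

private theorem Hk_step (h : IsTr τ) {u p : N} (hu : u ∈ Haar τ) {k : ℕ} {e : ℕ → N}
    (H : Hk_S τ u p k e) :
    ∃ e' : ℕ → N, Hk_S τ u p (k + 1) e' ∧ ∀ j, j < 2 ^ k → e j = e' (2 * j) + e' (2 * j + 1) := by
  have hf : ∀ j, ∃ f : N, j < 2 ^ k → star f = f ∧ f * f = f ∧ e j * f = f ∧
      τ f = τ (e j) / 2 ∧ f * u = u * f := by
    intro j
    by_cases hj : j < 2 ^ k
    · obtain ⟨f, h1, h2, h3, h4⟩ := half_comm h hu (p := e j) ⟨H.sa j hj, H.idem j hj⟩ (H.comm j hj)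
      exact ⟨f, fun _ => ⟨h1.1, h1.2, h3, h4, h2⟩⟩
    · exact ⟨0, fun h' => absurd h' hj⟩
  choose f hf using hf
  have hfe : ∀ j, j < 2 ^ k → f j * e j = f j := fun j hj => by
    have h1 := congrArg star (hf j hj).2.2.1
    rwa [star_mul, (hf j hj).1, H.sa j hj] at h1
  obtain ⟨e', he'⟩ : ∃ e' : ℕ → N, ∀ n, e' n = if n % 2 = 0 then f (n / 2) else e (n / 2) - f (n / 2) :=
    ⟨_, fun _ => rfl⟩
  have hlt : ∀ n, n < 2 ^ (k + 1) → n / 2 < 2 ^ k := fun n hn => by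
    rw [pow_succ] at hn
    omega
  have hl : ∀ n, n < 2 ^ (k + 1) → e (n / 2) * e' n = e' n := fun n hn => by
    rw [he']
    split_ifs
    · exact (hf _ (hlt n hn)).2.2.1
    · rw [mul_sub, H.idem _ (hlt n hn), (hf _ (hlt n hn)).2.2.1]
  have hr : ∀ n, n < 2 ^ (k + 1) → e' n * e (n / 2) = e' n := fun n hn => by
    rw [he']
    split_ifs
    · exact hfe _ (hlt n hn)
    · rw [sub_mul, H.idem _ (hlt n hn), hfe _ (hlt n hn)]
  have hev : ∀ j, e' (2 * j) = f j := fun j => by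
    rw [he', if_pos (by omega), show 2 * j / 2 = j by omega]
  have hod : ∀ j, e' (2 * j + 1) = e j - f j := fun j => by
    rw [he', if_neg (by omega), show (2 * j + 1) / 2 = j by omega]
  have hdec : ∀ j, e j = e' (2 * j) + e' (2 * j + 1) := fun j => by
    rw [hev, hod]
    abel
  refine ⟨e', ⟨?_, ?_, ?_, ?_, ?_, ?_⟩, fun j _ => hdec j⟩
  · intro n hn
    rw [he']
    split_ifs
    · exact (hf _ (hlt n hn)).1
    · rw [star_sub, H.sa _ (hlt n hn), (hf _ (hlt n hn)).1]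
  · intro n hn
    rw [he']
    split_ifs
    · exact (hf _ (hlt n hn)).2.1
    · rw [sub_mul, mul_sub, mul_sub, H.idem _ (hlt n hn), (hf _ (hlt n hn)).2.2.1,
        hfe _ (hlt n hn), (hf _ (hlt n hn)).2.1, sub_self, sub_zero]
  · intro i hi j hj hij
    by_cases hq : i / 2 = j / 2
    · rw [he' i, he' j, hq]
      have h2 := hf _ (hlt j hj)
      split_ifs with hi2 hj2 hj2
      · exfalso
        omega
      · rw [mul_sub, hfe _ (hlt j hj), h2.2.1, sub_self]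
      · rw [sub_mul, h2.2.2.1, h2.2.1, sub_self]
      · exfalso
        omega
    · rw [← hr i hi, ← hl j hj, mul_assoc, ← mul_assoc (e (i / 2)),
        H.orth _ (hlt i hi) _ (hlt j hj) hq, zero_mul, mul_zero]
  · rw [pow_succ, mul_comm, Hk_two, ← H.sum]
    exact Finset.sum_congr rfl fun j _ => (hdec j).symm
  · intro n hn
    rw [he']
    split_ifs
    · rw [(hf _ (hlt n hn)).2.2.2.1, H.tr _ (hlt n hn), pow_succ]
      ring
    · rw [map_sub, (hf _ (hlt n hn)).2.2.2.1, H.tr _ (hlt n hn), pow_succ]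
      ring
  · intro n hn
    rw [he']
    split_ifs
    · exact (hf _ (hlt n hn)).2.2.2.2
    · rw [sub_mul, mul_sub, H.comm _ (hlt n hn), (hf _ (hlt n hn)).2.2.2.2]

private noncomputable def Hk_z (k : ℕ) : ℂ :=
  Complex.exp (2 * Real.pi * Complex.I / ((2 ^ k : ℕ) : ℂ))

private theorem Hk_z_prim (k : ℕ) : IsPrimitiveRoot (Hk_z k) (2 ^ k) :=
  Complex.isPrimitiveRoot_exp _ (by positivity)

private theorem Hk_z_norm (k : ℕ) : ‖Hk_z k‖ = 1 := by
  have h1 := (Hk_z_prim k).norm'_eq_one (by positivity)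
  exact h1

private theorem Hk_z_sq (k : ℕ) : Hk_z (k + 1) ^ 2 = Hk_z k := by
  rw [Hk_z, Hk_z, ← Complex.exp_nat_mul]
  congr 1
  push_cast
  rw [pow_succ]
  field_simp

private theorem Hk_z_sub (k : ℕ) : ‖Hk_z (k + 1) - 1‖ ≤ Real.pi * (1 / 2) ^ k := by
  have h1 : Hk_z (k + 1) = Complex.exp (Complex.I * ((Real.pi * (1 / 2) ^ k : ℝ) : ℂ)) := by
    rw [Hk_z]
    congr 1
    push_cast
    rw [pow_succ, one_div, inv_pow]
    field_simp
  rw [h1]
  refine (Real.norm_exp_I_mul_ofReal_sub_one_le (x := Real.pi * (1 / 2) ^ k)).trans ?_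
  rw [Real.norm_eq_abs, abs_of_nonneg (by positivity)]

private noncomputable def Hk_U (k : ℕ) (e : ℕ → N) : N :=
  ∑ j ∈ Finset.range (2 ^ k), (Hk_z k ^ j) • e j

private theorem Hk_cz (k j : ℕ) : star (Hk_z k ^ j) * Hk_z k ^ j = 1 := by
  have h2 := Complex.conj_mul' (Hk_z k ^ j)
  rw [norm_pow, Hk_z_norm, one_pow] at h2
  simpa using h2

private theorem Hk_U_left {u p : N} {k : ℕ} {e : ℕ → N} (H : Hk_S τ u p k e) :
    star (Hk_U k e) * Hk_U k e = p := by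
  rw [Hk_U, Hk_star H, Hk_mul H, ← Hk_one H]
  exact Finset.sum_congr rfl fun i _ => by rw [Hk_cz]

private theorem Hk_U_right {u p : N} {k : ℕ} {e : ℕ → N} (H : Hk_S τ u p k e) :
    Hk_U k e * star (Hk_U k e) = p := by
  rw [Hk_U, Hk_star H, Hk_mul H, ← Hk_one H]
  exact Finset.sum_congr rfl fun i _ => by rw [mul_comm, Hk_cz]

private theorem Hk_U_p {u p : N} {k : ℕ} {e : ℕ → N} (H : Hk_S τ u p k e) :
    p * Hk_U k e = Hk_U k e ∧ Hk_U k e * p = Hk_U k e := by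
  constructor
  · rw [Hk_U]
    nth_rewrite 1 [← Hk_one H]
    rw [Hk_mul H]
    exact Finset.sum_congr rfl fun i _ => by rw [one_mul]
  · rw [Hk_U]
    nth_rewrite 1 [← Hk_one H]
    rw [Hk_mul H]
    exact Finset.sum_congr rfl fun i _ => by rw [mul_one]

private theorem Hk_U_comm {u p : N} {k : ℕ} {e : ℕ → N} (H : Hk_S τ u p k e) :
    Hk_U k e * u = u * Hk_U k e := by
  rw [Hk_U, Finset.sum_mul, Finset.mul_sum]
  refine Finset.sum_congr rfl fun i hi => ?_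
  rw [smul_mul_assoc, mul_smul_comm, H.comm i (Finset.mem_range.1 hi)]

private theorem Hk_U_tr {u p : N} {k : ℕ} {e : ℕ → N} (H : Hk_S τ u p k e) {m : ℕ} (hm : 0 < m)
    (hm2 : m < 2 ^ k) : τ (Hk_U k e ^ m) = 0 := by
  obtain ⟨l, rfl⟩ : ∃ l, m = l + 1 := ⟨m - 1, by omega⟩
  rw [Hk_U, Hk_pow H, map_sum]
  have h1 : ∀ j ∈ Finset.range (2 ^ k), τ ((Hk_z k ^ j) ^ (l + 1) • e j) =
      (Hk_z k ^ (l + 1)) ^ j * ((1 / 2) ^ k * τ p) := by
    intro j hj
    rw [map_smul, smul_eq_mul, H.tr j (Finset.mem_range.1 hj), ← pow_mul, ← pow_mul, mul_comm j (l + 1)]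
  rw [Finset.sum_congr rfl h1, ← Finset.sum_mul]
  have h2 := geom_sum_mul (Hk_z k ^ (l + 1)) (2 ^ k)
  have h3 : (Hk_z k ^ (l + 1)) ^ (2 ^ k) = 1 := by
    rw [← pow_mul, mul_comm, pow_mul, (Hk_z_prim k).pow_eq_one, one_pow]
  have h4 : Hk_z k ^ (l + 1) ≠ 1 := (Hk_z_prim k).pow_ne_one_of_pos_of_lt hm.ne' hm2
  rw [h3, sub_self] at h2
  rcases mul_eq_zero.1 h2 with h5 | h5
  · rw [h5, zero_mul]
  · exact absurd (sub_eq_zero.1 h5) h4

private theorem Hk_proj_norm {q : N} (h1 : star q = q) (h2 : q * q = q) : ‖q‖ ≤ 1 := by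
  have h3 : ‖star q * q‖ = ‖q‖ * ‖q‖ := CStarRing.norm_star_mul_self
  rw [h1, h2] at h3
  by_contra h4
  push Not at h4
  nlinarith

private theorem Hk_U_norm {u p : N} (hp : IsProj p) {k : ℕ} {e : ℕ → N} (H : Hk_S τ u p k e) :
    ‖Hk_U k e‖ ≤ 1 := by
  have h3 : ‖star (Hk_U k e) * Hk_U k e‖ = ‖Hk_U k e‖ * ‖Hk_U k e‖ := CStarRing.norm_star_mul_self
  rw [Hk_U_left H] at h3
  have h4 := Hk_proj_norm hp.1 hp.2
  by_contra h5
  push Not at h5
  nlinarith

private theorem Hk_U_sub {u p : N} {k : ℕ} {e e' : ℕ → N} (H : Hk_S τ u p (k + 1) e')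
    (hU : ‖Hk_U k e‖ ≤ 1) (he : ∀ j, j < 2 ^ k → e j = e' (2 * j) + e' (2 * j + 1)) :
    ‖Hk_U (k + 1) e' - Hk_U k e‖ ≤ Real.pi * (1 / 2) ^ k := by
  have h1 : Hk_U k e = ∑ i ∈ Finset.range (2 ^ (k + 1)), (Hk_z k ^ (i / 2)) • e' i := by
    rw [pow_succ, mul_comm, Hk_two, Hk_U]
    refine Finset.sum_congr rfl fun j hj => ?_
    rw [show 2 * j / 2 = j by omega, show (2 * j + 1) / 2 = j by omega, ← smul_add,
      ← he j (Finset.mem_range.1 hj)]
  obtain ⟨q, hq⟩ : ∃ q : N, q = ∑ i ∈ Finset.range (2 ^ (k + 1)),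
      (if i % 2 = 0 then (0 : ℂ) else 1) • e' i := ⟨_, rfl⟩
  have hq1 : star q = q := by
    rw [hq, Hk_star H]
    refine Finset.sum_congr rfl fun i _ => ?_
    split_ifs <;> simp
  have hq2 : q * q = q := by
    rw [hq, Hk_mul H]
    refine Finset.sum_congr rfl fun i _ => ?_
    split_ifs <;> simp
  have h2 : Hk_U (k + 1) e' - Hk_U k e = (Hk_z (k + 1) - 1) • (Hk_U k e * q) := by
    rw [h1, hq, Hk_mul H, Hk_U, Finset.smul_sum, ← Finset.sum_sub_distrib]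
    refine Finset.sum_congr rfl fun i _ => ?_
    rw [← sub_smul, smul_smul]
    congr 1
    rw [← Hk_z_sq k, ← pow_mul]
    split_ifs with hi
    · rw [show 2 * (i / 2) = i by omega]
      ring
    · have h3 : i = 2 * (i / 2) + 1 := by omega
      conv_lhs => rw [h3]
      rw [show (2 * (i / 2) + 1) / 2 = i / 2 by omega, pow_succ]
      ring
  rw [h2, norm_smul]
  have h4 : ‖Hk_U k e * q‖ ≤ 1 := by
    refine (norm_mul_le _ _).trans ?_
    exact mul_le_one₀ hU (norm_nonneg _) (Hk_proj_norm hq1 hq2)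
  have h5 := Hk_z_sub k
  calc ‖Hk_z (k + 1) - 1‖ * ‖Hk_U k e * q‖ ≤ ‖Hk_z (k + 1) - 1‖ * 1 :=
        mul_le_mul_of_nonneg_left h4 (norm_nonneg _)
    _ ≤ Real.pi * (1 / 2) ^ k := by rw [mul_one]; exact h5

theorem haar_corner (h : IsTr τ) {u : N} (hu : u ∈ Haar τ) {p : N} (hp : IsProj p)
    (hpu : p * u = u * p) :
    ∃ y : N, y * u = u * y ∧ p * y = y ∧ y * p = y ∧ star y * y = p ∧ y * star y = p ∧
      ∀ m : ℕ, 1 ≤ m → τ (y ^ m) = 0 := by
  have h0 : Hk_S τ u p 0 (fun _ => p) := by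
    refine ⟨fun _ _ => hp.1, fun _ _ => hp.2, fun i hi j hj hij => ?_, ?_, fun _ _ => ?_, fun _ _ => hpu⟩
    · rw [pow_zero] at hi hj
      omega
    · simp
    · simp
  choose E' hE' using fun (k : ℕ) (e : {e : ℕ → N // Hk_S τ u p k e}) => Hk_step h hu e.2
  obtain ⟨S, hS⟩ : ∃ S : (k : ℕ) → {e : ℕ → N // Hk_S τ u p k e},
      ∀ k, (S (k + 1)).1 = E' k (S k) :=
    ⟨fun k => Nat.rec ⟨_, h0⟩ (fun k e => ⟨E' k e, (hE' k e).1⟩) k, fun k => rfl⟩
  have hS' : ∀ k j, j < 2 ^ k → (S k).1 j = (S (k + 1)).1 (2 * j) + (S (k + 1)).1 (2 * j + 1) := by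
    intro k j hj
    rw [hS]
    exact (hE' k (S k)).2 j hj
  obtain ⟨w, hw⟩ : ∃ w : ℕ → N, ∀ k, w k = Hk_U k (S k).1 := ⟨_, fun _ => rfl⟩
  have hd : ∀ k, dist (w k) (w (k + 1)) ≤ Real.pi * (1 / 2) ^ k := fun k => by
    rw [dist_comm, dist_eq_norm, hw, hw]
    exact Hk_U_sub (S (k + 1)).2 (Hk_U_norm hp (S k).2) (hS' k)
  have hc : CauchySeq w := cauchySeq_of_le_geometric (1 / 2) Real.pi (by norm_num) hd
  obtain ⟨y, hy⟩ := cauchySeq_tendsto_of_complete hc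
  refine ⟨y, ?_, ?_, ?_, ?_, ?_, fun m hm => ?_⟩
  · refine tendsto_nhds_unique (hy.mul_const u) ?_
    refine (hy.const_mul u).congr fun k => ?_
    rw [hw, Hk_U_comm (S k).2]
  · refine tendsto_nhds_unique (hy.const_mul p) ?_
    refine hy.congr fun k => ?_
    rw [hw, (Hk_U_p (S k).2).1]
  · refine tendsto_nhds_unique (hy.mul_const p) ?_
    refine hy.congr fun k => ?_
    rw [hw, (Hk_U_p (S k).2).2]
  · refine tendsto_nhds_unique (hy.star.mul hy) ?_
    refine tendsto_const_nhds.congr fun k => ?_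
    rw [hw, Hk_U_left (S k).2]
  · refine tendsto_nhds_unique (hy.mul hy.star) ?_
    refine tendsto_const_nhds.congr fun k => ?_
    rw [hw, Hk_U_right (S k).2]
  · have hn : Tendsto (fun k => ‖y ^ m - w k ^ m‖) atTop (𝓝 0) := by
      have h1 := tendsto_iff_norm_sub_tendsto_zero.1 (hy.pow m)
      refine h1.congr fun k => norm_sub_rev _ _
    have hev : ∀ᶠ k in atTop, ‖τ (y ^ m)‖ ≤ ‖y ^ m - w k ^ m‖ := by
      filter_upwards [eventually_ge_atTop m] with k hk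
      have hm2 : m < 2 ^ k := lt_of_le_of_lt hk Nat.lt_two_pow_self
      have e : τ (y ^ m) = τ (y ^ m - w k ^ m) := by
        rw [map_sub, hw, Hk_U_tr (S k).2 (by omega) hm2, sub_zero]
      rw [e]
      exact (tau_le_n2 h _).trans (n2_le_norm h _)
    have h2 : ‖τ (y ^ m)‖ ≤ 0 := ge_of_tendsto hn hev
    exact norm_eq_zero.1 (le_antisymm h2 (norm_nonneg _))

end ST
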