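import Pool.Agent.H77.ST.Ex

/-!
# Bp: bump functions and truncated arguments of a unitary

For a unitary `w` (spectrum in the unit circle, `Unitary.spectrum_subset_circle` etc.) the functions
`bump δ`, `targ δ` are continuous on the circle (`targ`: `Complex.arg` is continuous off the
negative axis and bounded, and the factor tends to `0` at `-1`), so `cfc` is available (`w` is
normal).
* `bump_nonneg`: `cfc f w` for a continuous real `f ≥ 0` is `star c * c` with `c = cfc √f w`.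
* `bump_sum`: the `m` points `-ζ_j⁻¹`, `ζ_j = exp (2π i j/m)`, are distinct; let `d` be their minimal
  distance (if `m = 1` any `d`) and `δ₀ = d/4`.  For `δ ≤ δ₀` the functions
  `z ↦ bump δ (ζ_j z)` (supported in `|z + ζ_j⁻¹| < 2δ`) have disjoint supports, so their sum is
  `≤ 1` everywhere, and `1 - Σ_j cfc (bump δ) (ζ_j • w) = cfc (1 - Σ_j bump δ (ζ_j ·)) w` has trace
  `≥ 0` (`cfc_comp_const_mul`-type lemma: `cfc f (ζ • w) = cfc (fun z => f (ζ z)) w`).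
* `targ_exp`: `exp (I • cfc (targ δ) w) = cfc (fun z => exp (I * targ δ z)) w`
  (`CFC.exp_eq_normedSpace_exp`, `cfc_comp`), and on the circle
  `|z - exp (I targ δ z)|² ≤ 4 bump δ z`: for `|z+1| ≥ δ` it is `0` (`z = exp (I arg z)`), for
  `|z+1| < δ` the bump is `1`.  Then `‖c‖₂² = τ(c* c)` with `c = cfc (…) w` and positivity.
* `targ_sub`: `|targ δ z - targ δ' z|² ≤ π² bump δ z` for `0 < δ' ≤ δ`.
Proved by helper85.
-/

open Filter Topology

namespace ST

open SC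

variable {N : Type*} [CStarAlgebra N] {τ : N →ₗ[ℂ] ℂ}

/-- bump function at `-1` -/
noncomputable def bump (δ : ℝ) (z : ℂ) : ℂ := ((max 0 (min 1 (2 - ‖z + 1‖ / δ)) : ℝ) : ℂ)

/-- truncated argument -/
noncomputable def targ (δ : ℝ) (z : ℂ) : ℂ := ((Complex.arg z * min 1 (‖z + 1‖ / δ) : ℝ) : ℂ)

theorem Bp_circ {w : N} (hw : w ∈ unitary N) {z : ℂ} (hz : z ∈ spectrum ℂ w) : ‖z‖ = 1 :=
  spectrum.norm_eq_one_of_unitary hw hz

theorem Bp_normal {w : N} (hw : w ∈ unitary N) : IsStarNormal w := by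
  refine ⟨?_⟩
  show star w * w = w * star w
  rw [Unitary.star_mul_self_of_mem hw, Unitary.mul_star_self_of_mem hw]

/-- the trace of `|f(w)|²` -/
theorem Bp_sq (h : IsTr τ) {w : N} (hw : w ∈ unitary N) {f : ℂ → ℂ} (hf : ContinuousOn f (spectrum ℂ w)) :
    n2 τ (cfc f w) ^ 2 = (τ (cfc (fun z => ((‖f z‖ ^ 2 : ℝ) : ℂ)) w)).re := by
  have hn := Bp_normal hw
  rw [n2_sq h, ← cfc_star, ← cfc_mul (fun z => star (f z)) f w (hf.star) hf]
  congr 2
  refine cfc_congr fun z _ => ?_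
  show star (f z) * f z = ((‖f z‖ ^ 2 : ℝ) : ℂ)
  rw [Complex.star_def, ← Complex.normSq_eq_conj_mul_self, Complex.normSq_eq_norm_sq]

theorem Bp_pos (h : IsTr τ) {w : N} (hw : w ∈ unitary N) {f : ℂ → ℝ} (hf : ContinuousOn f (spectrum ℂ w))
    (h0 : ∀ z ∈ spectrum ℂ w, 0 ≤ f z) : 0 ≤ (τ (cfc (fun z => ((f z : ℝ) : ℂ)) w)).re := by
  have hs : ContinuousOn (fun z : ℂ => ((Real.sqrt (f z) : ℝ) : ℂ)) (spectrum ℂ w) :=
    Complex.continuous_ofReal.comp_continuousOn (Real.continuous_sqrt.comp_continuousOn hf)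
  have h1 := Bp_sq h hw hs
  have h2 : cfc (fun z => ((‖((Real.sqrt (f z) : ℝ) : ℂ)‖ ^ 2 : ℝ) : ℂ)) w = cfc (fun z => ((f z : ℝ) : ℂ)) w := by
    refine cfc_congr fun z hz => ?_
    show ((‖((Real.sqrt (f z) : ℝ) : ℂ)‖ ^ 2 : ℝ) : ℂ) = ((f z : ℝ) : ℂ)
    rw [Complex.norm_real, Real.norm_of_nonneg (Real.sqrt_nonneg _), Real.sq_sqrt (h0 z hz)]
  rw [h2] at h1
  rw [← h1]
  positivity

/-- comparison of traces of real functions of `w` -/
theorem Bp_mono (h : IsTr τ) {w : N} (hw : w ∈ unitary N) {f g : ℂ → ℝ} (hf : ContinuousOn f (spectrum ℂ w))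
    (hg : ContinuousOn g (spectrum ℂ w)) (hfg : ∀ z ∈ spectrum ℂ w, f z ≤ g z) :
    (τ (cfc (fun z => ((f z : ℝ) : ℂ)) w)).re ≤ (τ (cfc (fun z => ((g z : ℝ) : ℂ)) w)).re := by
  have h1 := Bp_pos h hw (hg.sub hf) (fun z hz => sub_nonneg.2 (hfg z hz))
  have h2 : cfc (fun z => (((g - f) z : ℝ) : ℂ)) w = cfc (fun z => ((g z : ℝ) : ℂ)) w - cfc (fun z => ((f z : ℝ) : ℂ)) w := by
    rw [← cfc_sub (fun z => ((g z : ℝ) : ℂ)) (fun z => ((f z : ℝ) : ℂ)) w (Complex.continuous_ofReal.comp_continuousOn hg)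
      (Complex.continuous_ofReal.comp_continuousOn hf)]
    refine cfc_congr fun z _ => ?_
    show (((g z - f z : ℝ)) : ℂ) = (g z : ℂ) - (f z : ℂ)
    push_cast
    rfl
  have h3 : (τ (cfc (fun z => (((g - f) z : ℝ) : ℂ)) w)).re =
      (τ (cfc (fun z => ((g z : ℝ) : ℂ)) w)).re - (τ (cfc (fun z => ((f z : ℝ) : ℂ)) w)).re := by
    rw [h2, map_sub, Complex.sub_re]
  have h4 : 0 ≤ (τ (cfc (fun z => (((g - f) z : ℝ) : ℂ)) w)).re := h1
  rw [h3] at h4
  linarith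

/-- the real bump function -/
noncomputable def Bp_b (δ : ℝ) (z : ℂ) : ℝ := max 0 (min 1 (2 - ‖z + 1‖ / δ))

theorem Bp_b_cont (δ : ℝ) : Continuous (Bp_b δ) := by
  unfold Bp_b
  fun_prop

theorem Bp_b_nonneg (δ : ℝ) (z : ℂ) : 0 ≤ Bp_b δ z := le_max_left _ _

theorem Bp_b_le (δ : ℝ) (z : ℂ) : Bp_b δ z ≤ 1 := max_le zero_le_one (min_le_left _ _)

theorem Bp_b_one {δ : ℝ} (hδ : 0 < δ) {z : ℂ} (hz : ‖z + 1‖ < δ) : Bp_b δ z = 1 := by
  have h1 : ‖z + 1‖ / δ < 1 := (div_lt_one hδ).2 hz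
  unfold Bp_b
  rw [min_eq_left (by linarith), max_eq_right zero_le_one]

theorem Bp_b_supp {δ : ℝ} (hδ : 0 < δ) {z : ℂ} (hz : Bp_b δ z ≠ 0) : ‖z + 1‖ < 2 * δ := by
  by_contra hc
  rw [not_lt] at hc
  apply hz
  have h1 : 2 ≤ ‖z + 1‖ / δ := (le_div_iff₀ hδ).2 hc
  unfold Bp_b
  rw [max_eq_left]
  exact (min_le_right _ _).trans (by linarith)

/-- the real truncated argument -/
noncomputable def Bp_t (δ : ℝ) (z : ℂ) : ℝ := Complex.arg z * min 1 (‖z + 1‖ / δ)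

theorem Bp_min_mem {δ : ℝ} (hδ : 0 < δ) (z : ℂ) : 0 ≤ min 1 (‖z + 1‖ / δ) ∧ min 1 (‖z + 1‖ / δ) ≤ 1 :=
  ⟨le_min zero_le_one (div_nonneg (norm_nonneg _) hδ.le), min_le_left _ _⟩

theorem Bp_t_abs {δ : ℝ} (hδ : 0 < δ) (z : ℂ) : |Bp_t δ z| ≤ Real.pi := by
  unfold Bp_t
  rw [abs_mul, abs_of_nonneg (Bp_min_mem hδ z).1]
  calc |Complex.arg z| * min 1 (‖z + 1‖ / δ) ≤ Real.pi * 1 :=
        mul_le_mul (Complex.abs_arg_le_pi z) (Bp_min_mem hδ z).2 (Bp_min_mem hδ z).1 Real.pi_pos.le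
    _ = Real.pi := mul_one _

theorem Bp_t_cont {δ : ℝ} (hδ : 0 < δ) : ContinuousOn (Bp_t δ) {z : ℂ | ‖z‖ = 1} := by
  intro z hz
  by_cases h1 : z = -1
  · subst h1
    have h0 : Bp_t δ (-1) = 0 := by
      unfold Bp_t
      simp
    have hc : ContinuousAt (Bp_t δ) (-1) := by
      unfold ContinuousAt
      rw [h0]
      have hb : ∀ z : ℂ, |Bp_t δ z| ≤ Real.pi * (‖z + 1‖ / δ) := by
        intro z
        unfold Bp_t
        rw [abs_mul, abs_of_nonneg (Bp_min_mem hδ z).1]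
        exact mul_le_mul (Complex.abs_arg_le_pi z) (min_le_right _ _) (Bp_min_mem hδ z).1 Real.pi_pos.le
      have hl : Tendsto (fun z : ℂ => Real.pi * (‖z + 1‖ / δ)) (𝓝 (-1)) (𝓝 0) := by
        have : Continuous (fun z : ℂ => Real.pi * (‖z + 1‖ / δ)) := by fun_prop
        have h2 := this.tendsto (-1)
        simpa using h2
      exact squeeze_zero_norm hb hl
    exact hc.continuousWithinAt
  · have hsl : z ∈ Complex.slitPlane := by
      rw [Complex.mem_slitPlane_iff]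
      by_contra hc
      push Not at hc
      obtain ⟨h2, h3⟩ := hc
      apply h1
      have h4 : z = (z.re : ℂ) := Complex.ext rfl (by simp [h3])
      have h5 : ‖z‖ = 1 := hz
      rw [h4, Complex.norm_real, Real.norm_eq_abs, abs_of_nonpos h2] at h5
      rw [h4, show z.re = -1 by linarith]
      simp
    have : ContinuousAt (Bp_t δ) z := by
      unfold Bp_t
      exact (Complex.continuousAt_arg hsl).mul (by fun_prop)
    exact this.continuousWithinAt

theorem Bp_t_contS {w : N} (hw : w ∈ unitary N) {δ : ℝ} (hδ : 0 < δ) : ContinuousOn (Bp_t δ) (spectrum ℂ w) :=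
  (Bp_t_cont hδ).mono fun _ hz => Bp_circ hw hz

theorem Bp_targ_contS {w : N} (hw : w ∈ unitary N) {δ : ℝ} (hδ : 0 < δ) : ContinuousOn (targ δ) (spectrum ℂ w) :=
  Complex.continuous_ofReal.comp_continuousOn (Bp_t_contS hw hδ)

theorem Bp_arg {z : ℂ} (hz : ‖z‖ = 1) : Complex.exp (Complex.I * (Complex.arg z : ℝ)) = z := by
  have h1 := Complex.norm_mul_exp_arg_mul_I z
  rw [hz, Complex.ofReal_one, one_mul] at h1
  rw [mul_comm]
  exact h1

theorem bump_nonneg (h : IsTr τ) {w : N} (hw : w ∈ unitary N) {δ : ℝ} (hδ : 0 < δ) :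
    0 ≤ (τ (cfc (bump δ) w)).re := by
  exact Bp_pos h hw (f := Bp_b δ) (Bp_b_cont δ).continuousOn (fun z _ => Bp_b_nonneg δ z)

theorem Bp_min (S : Finset (ℕ × ℕ)) (f : ℕ × ℕ → ℝ) (hf : ∀ p ∈ S, 0 < f p) : ∃ δ : ℝ, 0 < δ ∧ ∀ p ∈ S, δ ≤ f p := by
  classical
  induction S using Finset.induction_on with
  | empty => exact ⟨1, one_pos, fun p hp => absurd hp (Finset.notMem_empty p)⟩
  | insert a S ha ih =>
    obtain ⟨δ, h1, h2⟩ := ih fun p hp => hf p (Finset.mem_insert_of_mem hp)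
    refine ⟨min δ (f a), lt_min h1 (hf a (Finset.mem_insert_self a S)), fun p hp => ?_⟩
    rcases Finset.mem_insert.1 hp with h3 | h3
    · rw [h3]
      exact min_le_right _ _
    · exact (min_le_left _ _).trans (h2 p h3)

/-- the roots of unity -/
noncomputable def Bp_z (m j : ℕ) : ℂ := Complex.exp (2 * Real.pi * Complex.I * j / m)

theorem Bp_z_eq (m j : ℕ) : Bp_z m j = Complex.exp (2 * Real.pi * Complex.I / m) ^ j := by
  unfold Bp_z
  rw [← Complex.exp_nat_mul]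
  congr 1
  ring

theorem Bp_z_norm (m j : ℕ) : ‖Bp_z m j‖ = 1 := by
  unfold Bp_z
  rw [show (2 * Real.pi * Complex.I * j / m : ℂ) = ((2 * Real.pi * j / m : ℝ) : ℂ) * Complex.I by push_cast; ring]
  exact Complex.norm_exp_ofReal_mul_I _

theorem Bp_z_inj {m i j : ℕ} (hm : 1 ≤ m) (hi : i < m) (hj : j < m) (h : Bp_z m i = Bp_z m j) : i = j := by
  rw [Bp_z_eq, Bp_z_eq] at h
  exact (Complex.isPrimitiveRoot_exp m (by omega)).pow_inj hi hj h

theorem bump_sum (h : IsTr τ) (m : ℕ) (hm : 1 ≤ m) : ∃ δ₀ : ℝ, 0 < δ₀ ∧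
    ∀ δ : ℝ, 0 < δ → δ ≤ δ₀ → ∀ w ∈ unitary N,
      ∑ j ∈ Finset.range m,
        (τ (cfc (bump δ) (Complex.exp (2 * Real.pi * Complex.I * j / m) • w))).re ≤ 1 := by
  classical
  obtain ⟨δ₁, h1, h2⟩ := Bp_min (((Finset.range m) ×ˢ (Finset.range m)).filter fun p => p.1 ≠ p.2)
    (fun p => ‖Bp_z m p.1 - Bp_z m p.2‖) (by
      intro p hp
      rw [Finset.mem_filter, Finset.mem_product, Finset.mem_range, Finset.mem_range] at hp
      rw [norm_pos_iff, sub_ne_zero]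
      exact fun h3 => hp.2 (Bp_z_inj hm hp.1.1 hp.1.2 h3))
  refine ⟨δ₁ / 4, by positivity, fun δ hδ hle w hw => ?_⟩
  have hn := Bp_normal hw
  have hbc : Continuous (bump δ) := Complex.continuous_ofReal.comp (Bp_b_cont δ)
  have e1 : ∀ j : ℕ, cfc (bump δ) (Complex.exp (2 * Real.pi * Complex.I * j / m) • w) =
      cfc (fun z => ((Bp_b δ (Bp_z m j * z) : ℝ) : ℂ)) w := by
    intro j
    exact (cfc_comp_const_mul (Bp_z m j) (bump δ) w hbc.continuousOn hn).symm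
  have e2 : ∑ j ∈ Finset.range m, (τ (cfc (bump δ) (Complex.exp (2 * Real.pi * Complex.I * j / m) • w))).re =
      (τ (cfc (fun z => (((∑ j ∈ Finset.range m, Bp_b δ (Bp_z m j * z)) : ℝ) : ℂ)) w)).re := by
    have e3 : cfc (fun z => (((∑ j ∈ Finset.range m, Bp_b δ (Bp_z m j * z)) : ℝ) : ℂ)) w =
        ∑ j ∈ Finset.range m, cfc (fun z => ((Bp_b δ (Bp_z m j * z) : ℝ) : ℂ)) w := by
      rw [← cfc_sum (fun j z => ((Bp_b δ (Bp_z m j * z) : ℝ) : ℂ)) w (Finset.range m) (fun j _ =>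
        (Complex.continuous_ofReal.comp ((Bp_b_cont δ).comp (continuous_const.mul continuous_id))).continuousOn)]
      refine cfc_congr fun z _ => ?_
      show (((∑ j ∈ Finset.range m, Bp_b δ (Bp_z m j * z)) : ℝ) : ℂ) = (∑ j ∈ Finset.range m, fun z => ((Bp_b δ (Bp_z m j * z) : ℝ) : ℂ)) z
      rw [Finset.sum_apply]
      push_cast
      rfl
    rw [e3, map_sum, Complex.re_sum]
    exact Finset.sum_congr rfl fun j _ => by rw [e1 j]
  rw [e2]
  have e4 : (τ (cfc (fun _ : ℂ => (((1 : ℝ)) : ℂ)) w)).re = 1 := by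
    have : cfc (fun _ : ℂ => (((1 : ℝ)) : ℂ)) w = 1 := by
      have h3 := cfc_const_one ℂ w hn
      rw [← h3]
      exact cfc_congr fun z _ => by simp
    rw [this, h.map_one, Complex.one_re]
  rw [← e4]
  refine Bp_mono h hw (f := fun z => ∑ j ∈ Finset.range m, Bp_b δ (Bp_z m j * z)) (g := fun _ => 1)
    (continuous_finset_sum _ fun j _ => (Bp_b_cont δ).comp (continuous_const.mul continuous_id)).continuousOn continuousOn_const ?_
  intro z hz
  show ∑ j ∈ Finset.range m, Bp_b δ (Bp_z m j * z) ≤ 1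
  have hz1 := Bp_circ hw hz
  by_cases hE : ∃ i ∈ Finset.range m, Bp_b δ (Bp_z m i * z) ≠ 0
  · obtain ⟨i, hi, hbi⟩ := hE
    rw [Finset.sum_eq_single_of_mem i hi]
    · exact Bp_b_le _ _
    · intro j hj hji
      by_contra hbj
      have h3 := Bp_b_supp hδ hbi
      have h4 := Bp_b_supp hδ hbj
      have h5 := h2 (i, j) (by
        rw [Finset.mem_filter, Finset.mem_product]
        exact ⟨⟨hi, hj⟩, fun h6 => hji h6.symm⟩)
      have h6 : ‖Bp_z m i - Bp_z m j‖ = ‖(Bp_z m i * z + 1) - (Bp_z m j * z + 1)‖ := by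
        rw [show (Bp_z m i * z + 1) - (Bp_z m j * z + 1) = (Bp_z m i - Bp_z m j) * z by ring, norm_mul, hz1, mul_one]
      have h7 := norm_sub_le (Bp_z m i * z + 1) (Bp_z m j * z + 1)
      have h8 : δ₁ ≤ ‖Bp_z m i - Bp_z m j‖ := h5
      rw [h6] at h8
      linarith
  · push Not at hE
    rw [Finset.sum_eq_zero hE]
    exact zero_le_one

theorem targ_sa {w : N} (hw : w ∈ unitary N) {δ : ℝ} (hδ : 0 < δ) :
    star (cfc (targ δ) w) = cfc (targ δ) w := by
  rw [← cfc_star]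
  refine cfc_congr fun z _ => ?_
  show star (targ δ z) = targ δ z
  unfold targ
  rw [Complex.star_def, Complex.conj_ofReal]

theorem targ_norm {w : N} (hw : w ∈ unitary N) {δ : ℝ} (hδ : 0 < δ) :
    ‖cfc (targ δ) w‖ ≤ Real.pi := by
  refine norm_cfc_le Real.pi_pos.le fun z _ => ?_
  show ‖((Bp_t δ z : ℝ) : ℂ)‖ ≤ Real.pi
  rw [Complex.norm_real, Real.norm_eq_abs]
  exact Bp_t_abs hδ z

theorem targ_exp (h : IsTr τ) {w : N} (hw : w ∈ unitary N) {δ : ℝ} (hδ : 0 < δ) :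
    n2 τ (w - NormedSpace.exp (Complex.I • cfc (targ δ) w)) ^ 2 ≤
      4 * (τ (cfc (bump δ) w)).re := by
  have hn := Bp_normal hw
  have ht := Bp_targ_contS hw hδ
  have hg : ContinuousOn (fun z => Complex.I * targ δ z) (spectrum ℂ w) := continuousOn_const.mul ht
  have hge : ContinuousOn (fun z => Complex.exp (Complex.I * targ δ z)) (spectrum ℂ w) := Complex.continuous_exp.comp_continuousOn hg
  have e1 : Complex.I • cfc (targ δ) w = cfc (fun z => Complex.I * targ δ z) w := (cfc_const_mul Complex.I (targ δ) w ht).symm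
  have e2 : NormedSpace.exp (Complex.I • cfc (targ δ) w) = cfc (fun z => Complex.exp (Complex.I * targ δ z)) w := by
    rw [e1, ← CFC.complex_exp_eq_normedSpace_exp (cfc_predicate _ w)]
    exact (cfc_comp' Complex.exp (fun z => Complex.I * targ δ z) w Complex.continuous_exp.continuousOn hg hn).symm
  have e3 : w - NormedSpace.exp (Complex.I • cfc (targ δ) w) = cfc (fun z => z - Complex.exp (Complex.I * targ δ z)) w := by
    rw [e2, cfc_sub (fun z => z) (fun z => Complex.exp (Complex.I * targ δ z)) w continuousOn_id hge, cfc_id' ℂ w hn]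
  have hc : ContinuousOn (fun z => z - Complex.exp (Complex.I * targ δ z)) (spectrum ℂ w) := continuousOn_id.sub hge
  rw [e3, Bp_sq h hw hc]
  have e4 : (τ (cfc (fun z => ((4 * Bp_b δ z : ℝ) : ℂ)) w)).re = 4 * (τ (cfc (bump δ) w)).re := by
    have h1 : cfc (fun z => ((4 * Bp_b δ z : ℝ) : ℂ)) w = (4 : ℂ) • cfc (bump δ) w := by
      rw [← cfc_const_mul (4 : ℂ) (bump δ) w (Complex.continuous_ofReal.comp (Bp_b_cont δ)).continuousOn]
      refine cfc_congr fun z _ => ?_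
      show ((4 * Bp_b δ z : ℝ) : ℂ) = 4 * ((Bp_b δ z : ℝ) : ℂ)
      push_cast
      rfl
    rw [h1, map_smul, smul_eq_mul]
    simp
  rw [← e4]
  refine Bp_mono h hw (f := fun z => ‖z - Complex.exp (Complex.I * targ δ z)‖ ^ 2) (g := fun z => 4 * Bp_b δ z)
    (hc.norm.pow 2) (continuous_const.mul (Bp_b_cont δ)).continuousOn ?_
  intro z hz
  show ‖z - Complex.exp (Complex.I * targ δ z)‖ ^ 2 ≤ 4 * Bp_b δ z
  have hz1 := Bp_circ hw hz
  rcases lt_or_ge ‖z + 1‖ δ with h1 | h1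
  · rw [Bp_b_one hδ h1]
    have h2 : ‖Complex.exp (Complex.I * targ δ z)‖ = 1 := by
      rw [mul_comm]
      exact Complex.norm_exp_ofReal_mul_I _
    have h3 := norm_sub_le z (Complex.exp (Complex.I * targ δ z))
    rw [hz1, h2] at h3
    nlinarith [norm_nonneg (z - Complex.exp (Complex.I * targ δ z))]
  · have h2 : targ δ z = (Complex.arg z : ℝ) := by
      unfold targ
      rw [min_eq_left ((one_le_div hδ).2 h1), mul_one]
    rw [h2, Bp_arg hz1, sub_self, norm_zero]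
    have := Bp_b_nonneg δ z
    nlinarith

theorem targ_sub (h : IsTr τ) {w : N} (hw : w ∈ unitary N) {δ δ' : ℝ} (hδ' : 0 < δ')
    (hle : δ' ≤ δ) :
    n2 τ (cfc (targ δ) w - cfc (targ δ') w) ^ 2 ≤
      Real.pi ^ 2 * (τ (cfc (bump δ) w)).re := by
  have hδ : 0 < δ := lt_of_lt_of_le hδ' hle
  have hn := Bp_normal hw
  have ht := Bp_targ_contS hw hδ
  have ht' := Bp_targ_contS hw hδ'
  have e3 : cfc (targ δ) w - cfc (targ δ') w = cfc (fun z => targ δ z - targ δ' z) w :=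
    (cfc_sub (targ δ) (targ δ') w ht ht').symm
  have hc : ContinuousOn (fun z => targ δ z - targ δ' z) (spectrum ℂ w) := ht.sub ht'
  rw [e3, Bp_sq h hw hc]
  have e4 : (τ (cfc (fun z => ((Real.pi ^ 2 * Bp_b δ z : ℝ) : ℂ)) w)).re = Real.pi ^ 2 * (τ (cfc (bump δ) w)).re := by
    have h1 : cfc (fun z => ((Real.pi ^ 2 * Bp_b δ z : ℝ) : ℂ)) w = ((Real.pi ^ 2 : ℝ) : ℂ) • cfc (bump δ) w := by
      rw [← cfc_const_mul ((Real.pi ^ 2 : ℝ) : ℂ) (bump δ) w (Complex.continuous_ofReal.comp (Bp_b_cont δ)).continuousOn]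
      refine cfc_congr fun z _ => ?_
      show ((Real.pi ^ 2 * Bp_b δ z : ℝ) : ℂ) = ((Real.pi ^ 2 : ℝ) : ℂ) * ((Bp_b δ z : ℝ) : ℂ)
      push_cast
      rfl
    rw [h1, map_smul, smul_eq_mul, Complex.re_ofReal_mul]
  rw [← e4]
  refine Bp_mono h hw (f := fun z => ‖targ δ z - targ δ' z‖ ^ 2) (g := fun z => Real.pi ^ 2 * Bp_b δ z)
    (hc.norm.pow 2) (continuous_const.mul (Bp_b_cont δ)).continuousOn ?_
  intro z hz
  show ‖targ δ z - targ δ' z‖ ^ 2 ≤ Real.pi ^ 2 * Bp_b δ z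
  have e5 : ‖targ δ z - targ δ' z‖ = |Bp_t δ z - Bp_t δ' z| := by
    have : targ δ z - targ δ' z = ((Bp_t δ z - Bp_t δ' z : ℝ) : ℂ) := by
      rw [Complex.ofReal_sub]
      rfl
    rw [this, Complex.norm_real, Real.norm_eq_abs]
  rw [e5]
  rcases lt_or_ge ‖z + 1‖ δ with h1 | h1
  · rw [Bp_b_one hδ h1, mul_one]
    have h2 : |Bp_t δ z - Bp_t δ' z| ≤ Real.pi := by
      unfold Bp_t
      rw [← mul_sub, abs_mul]
      have h3 := Bp_min_mem hδ z
      have h4 := Bp_min_mem hδ' z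
      have h5 : |min 1 (‖z + 1‖ / δ) - min 1 (‖z + 1‖ / δ')| ≤ 1 := by
        rw [abs_le]
        constructor <;> linarith
      calc |Complex.arg z| * |min 1 (‖z + 1‖ / δ) - min 1 (‖z + 1‖ / δ')| ≤ Real.pi * 1 :=
            mul_le_mul (Complex.abs_arg_le_pi z) h5 (abs_nonneg _) Real.pi_pos.le
        _ = Real.pi := mul_one _
    exact pow_le_pow_left₀ (abs_nonneg _) h2 2
  · have h2 : Bp_t δ z - Bp_t δ' z = 0 := by
      unfold Bp_t
      rw [min_eq_left ((one_le_div hδ).2 h1), min_eq_left ((one_le_div hδ').2 (hle.trans h1)), sub_self]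
    rw [h2]
    have := Bp_b_nonneg δ z
    have : (0 : ℝ) ≤ Real.pi ^ 2 * Bp_b δ z := by positivity
    simpa using this

end ST
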