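import Pool.Agent.H77.ST.U1

/-!
# Cl: the 2-norm closure of a group of unitaries (as in `SC/O2.lean`)
-/

open Filter Topology

namespace ST

open SC

variable {N : Type*} [CStarAlgebra N] {τ : N →ₗ[ℂ] ℂ}

theorem cl_group (h : IsTr τ) (G : Set N) (hG : ∀ w ∈ G, w ∈ unitary N) (h1 : (1 : N) ∈ G)
    (hm : ∀ w ∈ G, ∀ w' ∈ G, w * w' ∈ G) (hs : ∀ w ∈ G, star w ∈ G) :
    ClGroup τ {x : N | ∀ ε : ℝ, 0 < ε → ∃ w ∈ G, n2 τ (x - w) < ε} := by
  have hsub : ∀ x ∈ {x : N | ∀ ε : ℝ, 0 < ε → ∃ w ∈ G, n2 τ (x - w) < ε}, x ∈ unitary N := by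
    intro x hx
    apply unitary_closed h x
    intro ε hε
    obtain ⟨w, hw, hlt⟩ := hx ε hε
    exact ⟨w, hG w hw, hlt⟩
  refine ⟨hsub, ?_, ?_, ?_, ?_⟩
  · intro ε hε
    refine ⟨1, h1, ?_⟩
    rw [sub_self, n2_zero]
    exact hε
  · intro x hx x' hx' ε hε
    obtain ⟨w, hw, hlt⟩ := hx (ε / 2) (by positivity)
    obtain ⟨w', hw', hlt'⟩ := hx' (ε / 2) (by positivity)
    refine ⟨w * w', hm w hw w' hw', ?_⟩
    have e : x * x' - w * w' = (x - w) * x' + w * (x' - w') := by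
      rw [sub_mul, mul_sub]; abel
    rw [e]
    have h2 := n2_add_le h ((x - w) * x') (w * (x' - w'))
    rw [n2_unitary_right h (hsub x' hx'), n2_unitary_left (hG w hw)] at h2
    linarith
  · intro x hx ε hε
    obtain ⟨w, hw, hlt⟩ := hx ε hε
    refine ⟨star w, hs w hw, ?_⟩
    rw [← star_sub, n2_star h]
    exact hlt
  · intro x hx ε hε
    obtain ⟨y, hy, hlt⟩ := hx (ε / 2) (by positivity)
    obtain ⟨w, hw, hlt'⟩ := hy (ε / 2) (by positivity)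
    refine ⟨w, hw, ?_⟩
    have h2 := n2_sub_le h x y w
    linarith

end ST
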