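import Pool.Agent.H77.SC.Df

/-!
# Tracial von Neumann algebras (not necessarily factors)

The files `ST/X.lean` with `X` in `Ba1, Ba2, U1, Mn, Ex, Tr, L1, L2, Er, Ld, Bp, Ux, Ha, Hr, Cp1` are
the files `SC/X.lean` with `IsII1` replaced by `IsTr` (their proofs do not use that `N` is a factor).
-/

open Filter Topology

namespace ST

open SC

variable {N : Type*} [CStarAlgebra N]

/-- `(N, τ)` is a tracial von Neumann algebra: `τ` is a faithful tracial state and the unit ball is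
complete in the 2-norm. -/
structure IsTr (τ : N →ₗ[ℂ] ℂ) : Prop where
  map_one : τ 1 = 1
  tracial : ∀ x y : N, τ (x * y) = τ (y * x)
  nonneg : ∀ x : N, 0 ≤ (τ (star x * x)).re
  real : ∀ x : N, (τ (star x * x)).im = 0
  faithful : ∀ x : N, τ (star x * x) = 0 → x = 0
  complete : ∀ x : ℕ → N, (∀ k, ‖x k‖ ≤ 1) →
    (∀ ε : ℝ, 0 < ε → ∃ K, ∀ k ≥ K, ∀ l ≥ K, n2 τ (x k - x l) < ε) →
    ∃ y : N, ‖y‖ ≤ 1 ∧ Tendsto (fun k => n2 τ (x k - y)) atTop (𝓝 0)

theorem isTr_of_isII1 {τ : N →ₗ[ℂ] ℂ} (h : IsII1 τ) : IsTr τ :=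
  ⟨h.map_one, h.tracial, h.nonneg, h.real, h.faithful, h.complete⟩

/-- `p` is a projection. -/
def IsProj (p : N) : Prop := star p = p ∧ p * p = p

/-- `z` is a central projection. -/
def CProj (z : N) : Prop := IsProj z ∧ ∀ a : N, z * a = a * z

end ST
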