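import Pool.Agent.H77.ST.Cm
import Pool.Agent.H77.ST.H2

/-!
# Dh: a dichotomy for projections in the commutant of a Haar unitary `u`

Suppose the first alternative fails.
(1) Let `g` be a projection commuting with `u`, `f g = g`.  `compare` for `g` and `f - g` gives a
central projection `z` with `z g` equivalent to a projection under `f - g` (in fact under
`z (f - g)`: replace `x` by `z x`) and `(1-z)(f-g)` equivalent to a projection under `(1-z) g`.
If `z g ≠ 0` then `f' = z g` commutes with `u`, `f f' = f'`, and for central projections `z'`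
(`trace_of_sub`): `τ(z' z g) ≤ τ(z' z (f - g))`, so
`2 τ(z' z g) ≤ τ(z' z f) ≤ τ(z' f)`: the first alternative.  So `z g = 0`, and in the same
way `(1-z)(f-g) = 0`.  So `g = (1-z) g = (1-z) f`: a central projection times `f`.  In particular
`g x = x g` for every `x` with `f x = x = x f`.
(2) For `n ≥ 1` take `u'` from `haar_fin2` and `g_j = (1/n) Σ_{k<n} ζ^{-jk} u'^k`, `ζ = exp(2πi/n)`:
projections with sum `1`, `u' = Σ_j ζ^j g_j`, commuting with everything that commutes with `u`;
so `g_j f = f g_j` is a projection commuting with `u`, under `f`; by (1) it commutes with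
`y = f x f`.  So `u' f = Σ ζ^j g_j f` commutes with `y`, `u' y = u' f y = y u' f = y u'`, and
`‖u - u'‖₂ ≤ 4/n`, so `‖u y - y u‖₂ ≤ 8 ‖y‖/n` for all `n`: `u y = y u`.
-/

open Filter Topology

namespace ST

open SC

variable {N : Type*} [CStarAlgebra N] {τ : N →ₗ[ℂ] ℂ}

theorem dh_proj_re_nonneg (h : IsTr τ) {p : N} (hp : IsProj p) : 0 ≤ (τ p).re := by
  have h1 := h.nonneg p
  rwa [hp.1, hp.2] at h1

theorem dh_proj_cmul {z g : N} (hz : CProj z) (hg : IsProj g) : IsProj (z * g) := by
  refine ⟨by rw [star_mul, hg.1, hz.1.1, hz.2], ?_⟩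
  calc z * g * (z * g) = z * (g * z) * g := by simp only [mul_assoc]
    _ = z * (z * g) * g := by rw [hz.2 g]
    _ = (z * z) * (g * g) := by simp only [mul_assoc]
    _ = z * g := by rw [hz.1.2, hg.2]

theorem dh_cproj_one_sub {z : N} (hz : CProj z) : CProj (1 - z) := by
  refine ⟨⟨by rw [star_sub, star_one, hz.1.1], ?_⟩, fun a => ?_⟩
  · calc (1 - z) * (1 - z) = 1 - z - z + z * z := by noncomm_ring
      _ = 1 - z := by
        rw [hz.1.2]
        abel
  · rw [sub_mul, mul_sub, one_mul, mul_one, hz.2]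

/-- `f` has no half in the commutant of `u`. -/
def DhNoHalf (τ : N →ₗ[ℂ] ℂ) (u f : N) : Prop :=
  ¬ ∃ f' : N, IsProj f' ∧ f' * u = u * f' ∧ f * f' = f' ∧ f' ≠ 0 ∧
      ∀ z : N, CProj z → 2 * (τ (z * f')).re ≤ (τ (z * f)).re

theorem dh_half_zero (h : IsTr τ) {u f g k z x : N} (hf : IsProj f) (hg : IsProj g) (hk : IsProj k)
    (hgk : g + k = f) (hfg : f * g = g) (hgu : g * u = u * g) (hno : DhNoHalf τ u f)
    (hz : CProj z) (hx : star x * x = z * g) (hkx : k * x = x) : z * g = 0 := by
  by_contra hne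
  apply hno
  have pzg : IsProj (z * g) := dh_proj_cmul hz hg
  have pzk : IsProj (z * k) := dh_proj_cmul hz hk
  refine ⟨z * g, pzg, ?_, ?_, hne, fun z' hz' => ?_⟩
  · rw [mul_assoc, hgu, ← mul_assoc, hz.2 u, mul_assoc]
  · rw [← mul_assoc, ← hz.2 f, mul_assoc, hfg]
  · have h1 : star (z * x) * (z * x) = z * g := by
      calc star (z * x) * (z * x) = star x * (z * z) * x := by
            rw [star_mul, hz.1.1]
            simp only [mul_assoc]
        _ = (star x * z) * x := by rw [hz.1.2]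
        _ = z * (star x * x) := by rw [← hz.2 (star x), mul_assoc]
        _ = z * g := by rw [hx, ← mul_assoc, hz.1.2]
    have h2 : z * k * (z * x) = z * x := by
      calc z * k * (z * x) = z * (k * z) * x := by simp only [mul_assoc]
        _ = z * (z * k) * x := by rw [hz.2 k]
        _ = (z * z) * (k * x) := by simp only [mul_assoc]
        _ = z * x := by rw [hz.1.2, hkx]
    have h3 := trace_of_sub h pzg pzk h1 h2 z' hz'
    have h4 : z' * f = z' * (z * g) + z' * (z * k) + z' * ((1 - z) * f) := by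
      rw [← mul_add, ← mul_add, ← mul_add, hgk, ← add_mul]
      rw [add_sub_cancel, one_mul]
    have h5 := dh_proj_re_nonneg h (dh_proj_cmul hz' (dh_proj_cmul (dh_cproj_one_sub hz) hf))
    rw [h4, map_add, map_add, Complex.add_re, Complex.add_re]
    linarith

theorem dh_noHalf_comm (h : IsTr τ) {u f g y : N} (hf : IsProj f) (hfu : f * u = u * f)
    (hg : IsProj g) (hfg : f * g = g) (hgu : g * u = u * g) (hno : DhNoHalf τ u f)
    (hy1 : f * y = y) (hy2 : y * f = y) : g * y = y * g := by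
  have hgf : g * f = g := by
    have h1 := congrArg star hfg
    rwa [star_mul, hg.1, hf.1] at h1
  have hk : IsProj (f - g) := by
    refine ⟨by rw [star_sub, hf.1, hg.1], ?_⟩
    rw [sub_mul, mul_sub, mul_sub, hf.2, hfg, hgf, hg.2]
    abel
  obtain ⟨z, hz, ⟨x, hx1, hx2⟩, x', hx'1, hx'2⟩ := compare h hg hk
  have h1 : z * g = 0 :=
    dh_half_zero h hf hg hk (by abel) hfg hgu hno hz hx1 hx2
  have h2 : (1 - z) * (f - g) = 0 := by
    refine dh_half_zero h hf hk hg (by abel) ?_ ?_ hno (dh_cproj_one_sub hz) hx'1 hx'2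
    · rw [mul_sub, hf.2, hfg]
    · rw [sub_mul, mul_sub, hfu, hgu]
  have h3 : g = (1 - z) * f := by
    calc g = (1 - z) * (f - g) + z * g + g := by rw [h1, h2, zero_add, zero_add]
      _ = (1 - z) * f + (z * g + z * g) := by noncomm_ring
      _ = (1 - z) * f := by rw [h1, add_zero, add_zero]
  have hz' := dh_cproj_one_sub hz
  calc g * y = (1 - z) * (f * y) := by rw [h3, mul_assoc]
    _ = (1 - z) * y := by rw [hy1]
    _ = y * (1 - z) := hz'.2 y
    _ = y * f * (1 - z) := by rw [hy2]
    _ = y * ((1 - z) * f) := by rw [mul_assoc, hz'.2 f]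
    _ = y * g := by rw [← h3]

/-- the powers of `v` indexed by `ZMod n`. -/
noncomputable def dhw (n : ℕ) (v : N) (k : ZMod n) : N := v ^ k.val

theorem dh_wk_add {n : ℕ} [NeZero n] {v : N} (hv : v ^ n = 1) (k l : ZMod n) :
    dhw n v (k + l) = dhw n v k * dhw n v l := by
  rw [dhw, dhw, dhw, ← pow_add, ZMod.val_add, ← pow_eq_pow_mod _ hv]

theorem dh_wk_star {n : ℕ} [NeZero n] {v : N} (hv : v ^ n = 1) (hu : v ∈ unitary N) (k : ZMod n) :
    star (dhw n v k) = dhw n v (-k) := by
  have h1 : dhw n v (-k) * dhw n v k = 1 := by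
    rw [← dh_wk_add hv, neg_add_cancel, dhw, ZMod.val_zero, pow_zero]
  have h2 : dhw n v k * star (dhw n v k) = 1 := (Unitary.mem_iff.1 (pow_mem hu _)).2
  calc star (dhw n v k) = (dhw n v (-k) * dhw n v k) * star (dhw n v k) := by rw [h1, one_mul]
    _ = dhw n v (-k) := by rw [mul_assoc, h2, mul_one]

/-- the spectral projections of `v`. -/
noncomputable def dhp (n : ℕ) [NeZero n] (v : N) (i : ZMod n) : N :=
  ((n : ℂ)⁻¹) • ∑ k : ZMod n, (ZMod.stdAddChar (-(i * k)) : ℂ) • dhw n v k

theorem dh_pj_star {n : ℕ} [NeZero n] {v : N} (hv : v ^ n = 1) (hu : v ∈ unitary N) (i : ZMod n) :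
    star (dhp n v i) = dhp n v i := by
  rw [dhp, star_smul, star_sum]
  congr 1
  · rw [Complex.star_def, map_inv₀, Complex.conj_natCast]
  · rw [← Equiv.sum_comp (Equiv.neg (ZMod n))]
    refine Finset.sum_congr rfl fun k _ => ?_
    rw [Equiv.neg_apply, star_smul, dh_wk_star hv hu, neg_neg, Complex.star_def,
      ← AddChar.map_neg_eq_conj, neg_neg, mul_neg]

theorem dh_pj_mul {n : ℕ} [NeZero n] {v : N} (hv : v ^ n = 1) (i : ZMod n) :
    dhp n v i * dhp n v i = dhp n v i := by
  have hn : (n : ℂ) ≠ 0 := Nat.cast_ne_zero.2 (NeZero.ne n)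
  have h1 : (∑ k : ZMod n, (ZMod.stdAddChar (-(i * k)) : ℂ) • dhw n v k)
      * (∑ k : ZMod n, (ZMod.stdAddChar (-(i * k)) : ℂ) • dhw n v k)
      = (n : ℂ) • ∑ k : ZMod n, (ZMod.stdAddChar (-(i * k)) : ℂ) • dhw n v k := by
    rw [Finset.sum_mul]
    have h2 : ∀ k ∈ (Finset.univ : Finset (ZMod n)),
        (ZMod.stdAddChar (-(i * k)) : ℂ) • dhw n v k
          * (∑ k : ZMod n, (ZMod.stdAddChar (-(i * k)) : ℂ) • dhw n v k)
        = ∑ k : ZMod n, (ZMod.stdAddChar (-(i * k)) : ℂ) • dhw n v k := by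
      intro k _
      rw [Finset.mul_sum, ← Equiv.sum_comp (Equiv.addLeft k)
        (fun l => (ZMod.stdAddChar (-(i * l)) : ℂ) • dhw n v l)]
      refine Finset.sum_congr rfl fun l _ => ?_
      rw [Equiv.coe_addLeft, dh_wk_add hv, smul_mul_smul_comm, ← AddChar.map_add_eq_mul]
      congr 3
      ring
    rw [Finset.sum_congr rfl h2, Finset.sum_const, Finset.card_univ, ZMod.card,
      ← Nat.cast_smul_eq_nsmul ℂ]
  rw [dhp, smul_mul_smul_comm, h1, smul_smul, mul_assoc, inv_mul_cancel₀ hn, mul_one]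

theorem dh_pj_sum {n : ℕ} [NeZero n] (hn2 : 2 ≤ n) (v : N) :
    ∑ i : ZMod n, (ZMod.stdAddChar i : ℂ) • dhp n v i = v := by
  have hn : (n : ℂ) ≠ 0 := Nat.cast_ne_zero.2 (NeZero.ne n)
  have h1 : ∀ i ∈ (Finset.univ : Finset (ZMod n)), (ZMod.stdAddChar i : ℂ) • dhp n v i
      = ∑ k : ZMod n, ((n : ℂ)⁻¹ * (ZMod.stdAddChar (i * (1 - k)) : ℂ)) • dhw n v k := by
    intro i _
    rw [dhp, smul_smul, Finset.smul_sum]
    refine Finset.sum_congr rfl fun k _ => ?_
    rw [smul_smul, mul_comm (ZMod.stdAddChar i : ℂ), mul_assoc, ← AddChar.map_add_eq_mul]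
    congr 3
    ring
  rw [Finset.sum_congr rfl h1, Finset.sum_comm]
  have h2 : ∀ k ∈ (Finset.univ : Finset (ZMod n)),
      ∑ i : ZMod n, ((n : ℂ)⁻¹ * (ZMod.stdAddChar (i * (1 - k)) : ℂ)) • dhw n v k
        = if k = 1 then dhw n v 1 else 0 := by
    intro k _
    rw [← Finset.sum_smul, ← Finset.mul_sum,
      AddChar.sum_mulShift (1 - k) (ZMod.isPrimitive_stdAddChar n)]
    by_cases hk : k = 1
    · rw [if_pos hk, if_pos (by rw [hk, sub_self]), hk, ZMod.card, inv_mul_cancel₀ hn, one_smul]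
    · rw [if_neg hk, if_neg (fun h3 => hk (sub_eq_zero.1 h3).symm), Nat.cast_zero, mul_zero,
        zero_smul]
  rw [Finset.sum_congr rfl h2, Finset.sum_ite_eq', if_pos (Finset.mem_univ _), dhw,
    ZMod.val_one'' (by omega), pow_one]

theorem dh_pj_comm {n : ℕ} [NeZero n] {v a : N} (ha : a * v = v * a) (i : ZMod n) :
    a * dhp n v i = dhp n v i * a := by
  have h1 : Commute a v := ha
  have h2 : Commute a (dhp n v i) := by
    rw [dhp]
    refine Commute.smul_right (Commute.sum_right _ _ _ fun k _ => ?_) _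
    exact Commute.smul_right (h1.pow_right _) _
  exact h2

theorem dichotomy (h : IsTr τ) {u : N} (hu : u ∈ Haar τ) {f : N} (hf : IsProj f)
    (hfu : f * u = u * f) :
    (∃ f' : N, IsProj f' ∧ f' * u = u * f' ∧ f * f' = f' ∧ f' ≠ 0 ∧
      ∀ z : N, CProj z → 2 * (τ (z * f')).re ≤ (τ (z * f)).re) ∨
    (∀ x : N, f * x * f * u = u * (f * x * f)) := by
  by_cases hno : DhNoHalf τ u f
  · refine Or.inr fun x => ?_
    have hy1 : f * (f * x * f) = f * x * f := by
      rw [← mul_assoc, ← mul_assoc, hf.2]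
    have hy2 : f * x * f * f = f * x * f := by
      rw [mul_assoc, hf.2]
    generalize f * x * f = y at hy1 hy2
    -- commutation with the approximants
    have key : ∀ n : ℕ, 2 ≤ n → n2 τ (y * u - u * y) ≤ 8 * ‖y‖ / n := by
      intro n hn
      have i1 : NeZero n := ⟨by omega⟩
      obtain ⟨u', hu'1, hu'2, -, hu'3, hu'4⟩ := haar_fin2 h hu n (by omega)
      have hfu' : f * u' = u' * f := hu'4 f hfu
      have huu' : u * u' = u' * u := hu'4 u rfl
      have hy : y * u' = u' * y := by
        have h1 : ∀ i : ZMod n, (dhp n u' i * f) * y = y * (dhp n u' i * f) := by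
          intro i
          have h2 : f * dhp n u' i = dhp n u' i * f := dh_pj_comm hfu' i
          have h3 : u * dhp n u' i = dhp n u' i * u := dh_pj_comm huu' i
          refine dh_noHalf_comm h hf hfu ⟨?_, ?_⟩ ?_ ?_ hno hy1 hy2
          · rw [star_mul, hf.1, dh_pj_star hu'2 hu'1, h2]
          · calc dhp n u' i * f * (dhp n u' i * f) = dhp n u' i * (f * dhp n u' i) * f := by
                  simp only [mul_assoc]
              _ = (dhp n u' i * dhp n u' i) * (f * f) := by
                  rw [h2]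
                  simp only [mul_assoc]
              _ = dhp n u' i * f := by rw [dh_pj_mul hu'2, hf.2]
          · rw [← mul_assoc, h2, mul_assoc, hf.2]
          · rw [mul_assoc, hfu, ← mul_assoc, ← h3, mul_assoc]
        have h4 : u' * f = ∑ i : ZMod n, (ZMod.stdAddChar i : ℂ) • (dhp n u' i * f) := by
          have h5 := congrArg (fun t => t * f) (dh_pj_sum hn u')
          simp only [Finset.sum_mul, smul_mul_assoc] at h5
          exact h5.symm
        have h6 : (u' * f) * y = y * (u' * f) := by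
          rw [h4, Finset.sum_mul, Finset.mul_sum]
          refine Finset.sum_congr rfl fun i _ => ?_
          rw [smul_mul_assoc, mul_smul_comm, h1 i]
        calc y * u' = (y * f) * u' := by rw [hy2]
          _ = y * (u' * f) := by rw [mul_assoc, hfu']
          _ = u' * f * y := h6.symm
          _ = u' * y := by rw [mul_assoc, hy1]
      have e : y * u - u * y = y * (u - u') - (u - u') * y := by
        rw [mul_sub, sub_mul, hy]
        abel
      have hn0 : (0 : ℝ) < n := Nat.cast_pos.2 (by omega)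
      have a1 : n2 τ (y * (u - u')) ≤ ‖y‖ * (4 / n) :=
        (n2_mul_le h _ _).trans (mul_le_mul_of_nonneg_left hu'3 (norm_nonneg _))
      have a2 : n2 τ ((u - u') * y) ≤ (4 / n) * ‖y‖ :=
        (n2_mul_le' h _ _).trans (mul_le_mul_of_nonneg_right hu'3 (norm_nonneg _))
      rw [e, sub_eq_add_neg]
      refine (n2_add_le h _ _).trans ?_
      rw [n2_neg]
      refine (add_le_add a1 a2).trans (le_of_eq ?_)
      ring
    have hlim : Tendsto (fun n : ℕ => 8 * ‖y‖ / (n : ℝ)) atTop (𝓝 0) :=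
      tendsto_const_div_atTop_nhds_zero_nat _
    have h0 : n2 τ (y * u - u * y) ≤ 0 :=
      ge_of_tendsto hlim (eventually_atTop.2 ⟨2, fun n hn => key n hn⟩)
    exact sub_eq_zero.1 (n2_eq_zero h (le_antisymm h0 (n2_nonneg _)))
  · exact Or.inl (not_not.1 hno)

end ST
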