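import Mathlib

/-!
# Eh: an exhaustion principle

For `x : S` let `s(x) = sup {f y : le x y}`.  Choose `x_0 = x0`, `le (x_k) (x_{k+1})` with
`f (x_{k+1}) ≥ s(x_k) - 1/(k+1)`.  Let `x` be an upper bound of the sequence (`hub`), so
`le (x_k) x` for all `k`.  If `le x y`, then `le (x_k) y`, so
`f y ≤ s(x_k) ≤ f (x_{k+1}) + 1/(k+1) ≤ f x + 1/(k+1)` for all `k`.
-/

namespace ST

theorem exhaust {S : Type*} (le : S → S → Prop) (hrefl : ∀ x, le x x)
    (htrans : ∀ x y z, le x y → le y z → le x z) (f : S → ℝ)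
    (hmono : ∀ x y, le x y → f x ≤ f y) (hbdd : ∃ B, ∀ x, f x ≤ B)
    (hub : ∀ x : ℕ → S, (∀ k, le (x k) (x (k + 1))) → ∃ y, ∀ k, le (x k) y) (x0 : S) :
    ∃ x, le x0 x ∧ ∀ y, le x y → f y ≤ f x := by
  obtain ⟨B, hB⟩ := hbdd
  have hstep : ∀ (k : ℕ) (x : S), ∃ x', le x x' ∧ ∀ y, le x y → f y ≤ f x' + 1 / ((k : ℝ) + 1) := by
    intro k x
    have hk : (0 : ℝ) < 1 / ((k : ℝ) + 1) := by positivity
    have hne : (f '' {y | le x y}).Nonempty := ⟨f x, x, hrefl x, rfl⟩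
    have hba : BddAbove (f '' {y | le x y}) := ⟨B, by rintro _ ⟨y, -, rfl⟩; exact hB y⟩
    obtain ⟨_, ⟨x', hx', rfl⟩, h2⟩ := exists_lt_of_lt_csSup hne
      (sub_lt_self (sSup (f '' {y | le x y})) hk)
    refine ⟨x', hx', fun y hy => ?_⟩
    have h3 : f y ≤ sSup (f '' {y | le x y}) := le_csSup hba ⟨y, hy, rfl⟩
    linarith
  choose g hg1 hg2 using hstep
  let x : ℕ → S := fun n => Nat.rec x0 (fun k z => g k z) n
  have hx : ∀ k, x (k + 1) = g k (x k) := fun k => rfl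
  obtain ⟨z, hz⟩ := hub x fun k => by rw [hx]; exact hg1 k (x k)
  refine ⟨z, hz 0, fun y hy => ?_⟩
  have h4 : ∀ k : ℕ, f y ≤ f z + 1 / ((k : ℝ) + 1) := by
    intro k
    have h5 := hg2 k (x k) y (htrans _ _ _ (hz k) hy)
    have h6 := hmono _ _ (hz (k + 1))
    rw [hx] at h6
    linarith
  refine le_of_forall_pos_le_add fun ε hε => ?_
  obtain ⟨k, hk⟩ := exists_nat_one_div_lt hε
  linarith [h4 k]

end ST
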