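import Pool.Agent.H77.ST.Mn

/-!
# Er: the mean ergodic step

Let `x ∈ V` and let `K` be the convex hull of `{u*^k x u^k : k = 0, 1, 2, …}`; all its elements
have norm `≤ ‖x‖`.  Apply `minel` to `K` and `T : a ↦ u* a u` (isometric for the 2-norm, maps `K` to
`K`): there is `z` in the 2-norm closure of `K` with `u* z u = z`, so `z u = u z`, so
`u z` commutes with `u` and `u z ∈ V`.

Claim: `u (x - a) ∈ V` for all `a ∈ K`.  The set of such `a` is convex (`V` is a subspace), so it is
enough to take `a = u*^k x u^k`.  Then `x - u*^k x u^k = c - u* c u` with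
`c = Σ_{j<k} u*^j x u^j ∈ V` (all `u*^j x u^j ∈ V`), and
`u (c - u* c u) = u c - c u ∈ V`.

Finally `u x = u z + u (x - z)` and `u (x - z)` is the 2-norm limit of `u (x - a) ∈ V` (`a ∈ K`,
`a → z`), so it is in `V` because `V` is closed.
-/

open Filter Topology

namespace ST

open SC

variable {N : Type*} [CStarAlgebra N] {τ : N →ₗ[ℂ] ℂ}

theorem ergodic_step (h : IsTr τ) (V : Submodule ℂ N) (hV : Closed2 τ (V : Set N)) (u : N)
    (hu : u ∈ unitary N) (h1 : ∀ x : N, x * u = u * x → x ∈ V)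
    (h2 : ∀ x ∈ V, u * x - x * u ∈ V) (h3 : ∀ x ∈ V, star u * x * u ∈ V) (x : N) (hx : x ∈ V) :
    u * x ∈ V := by
  have huu : u * star u = 1 := Unitary.mul_star_self_of_mem hu
  obtain ⟨φ, hφ⟩ : ∃ φ : ℕ → N, ∀ k, φ k = star u ^ k * x * u ^ k := ⟨_, fun _ => rfl⟩
  have hφ0 : φ 0 = x := by
    rw [hφ, pow_zero, pow_zero, one_mul, mul_one]
  have hφs : ∀ k, φ (k + 1) = star u * φ k * u := by
    intro k
    rw [hφ, hφ, pow_succ' (star u), pow_succ u]
    simp only [mul_assoc]
  have hφV : ∀ k, φ k ∈ V := by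
    intro k
    induction k with
    | zero => rw [hφ0]; exact hx
    | succ k ih => rw [hφs]; exact h3 _ ih
  have hφn : ∀ k, ‖φ k‖ ≤ ‖x‖ := by
    intro k
    induction k with
    | zero => rw [hφ0]
    | succ k ih =>
      rw [hφs]
      have e1 : ‖u‖ ≤ 1 := norm_unitary_le hu
      have e2 : ‖star u‖ ≤ 1 := by rw [norm_star]; exact e1
      calc ‖star u * φ k * u‖ ≤ ‖star u * φ k‖ * ‖u‖ := norm_mul_le _ _
        _ ≤ ‖star u * φ k‖ * 1 := mul_le_mul_of_nonneg_left e1 (norm_nonneg _)
        _ = ‖star u * φ k‖ := mul_one _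
        _ ≤ ‖star u‖ * ‖φ k‖ := norm_mul_le _ _
        _ ≤ 1 * ‖φ k‖ := mul_le_mul_of_nonneg_right e2 (norm_nonneg _)
        _ = ‖φ k‖ := one_mul _
        _ ≤ ‖x‖ := ih
  have hφu : ∀ k, u * (x - φ k) ∈ V := by
    intro k
    induction k with
    | zero =>
      rw [hφ0, sub_self, mul_zero]
      exact V.zero_mem
    | succ k ih =>
      have e : u * (x - φ (k + 1)) = u * (x - φ k) + (u * φ k - φ k * u) := by
        have e1 : u * φ (k + 1) = φ k * u := by
          rw [hφs, ← mul_assoc, ← mul_assoc, huu, one_mul]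
        rw [mul_sub, mul_sub, e1]
        abel
      rw [e]
      exact V.add_mem ih (h2 _ (hφV k))
  have hsm : ∀ (s : ℝ) (v : N), v ∈ V → s • v ∈ V := by
    intro s v hv
    have := V.smul_mem (s : ℂ) hv
    rwa [Complex.coe_smul] at this
  have hKn : ∀ a ∈ convexHull ℝ (Set.range φ), ‖a‖ ≤ ‖x‖ := by
    intro a ha
    have h4 : convexHull ℝ (Set.range φ) ⊆ Metric.closedBall (0 : N) ‖x‖ := by
      refine convexHull_min ?_ (convex_closedBall _ _)
      rintro _ ⟨k, rfl⟩
      rw [mem_closedBall_zero_iff]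
      exact hφn k
    exact mem_closedBall_zero_iff.1 (h4 ha)
  obtain ⟨z, hz1, hz2⟩ := minel h (convexHull ℝ (Set.range φ)) (convex_convexHull ℝ _)
    ⟨φ 0, subset_convexHull ℝ _ ⟨0, rfl⟩⟩ ‖x‖ hKn
  obtain ⟨T, hT⟩ : ∃ T : N →ₗ[ℂ] N, ∀ a, T a = star u * a * u :=
    ⟨(LinearMap.mulRight ℂ u).comp (LinearMap.mulLeft ℂ (star u)), fun _ => rfl⟩
  have hsu : star u ∈ unitary N := Unitary.star_mem hu
  have hTz : star u * z * u = z := by
    rw [← hT]
    refine hz2 T (fun a => ?_) fun a ha => ?_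
    · rw [hT, n2_unitary_right h hu, n2_unitary_left hsu]
    · have h4 : convexHull ℝ (Set.range φ) ⊆
          (T.restrictScalars ℝ) ⁻¹' (convexHull ℝ (Set.range φ)) := by
        refine convexHull_min ?_ ((convex_convexHull ℝ _).linear_preimage _)
        rintro _ ⟨k, rfl⟩
        refine subset_convexHull ℝ _ ⟨k + 1, ?_⟩
        rw [hφs]
        exact (hT _).symm
      exact h4 ha
  have hzu : z * u = u * z := by
    have e : u * (star u * z * u) = z * u := by
      rw [← mul_assoc, ← mul_assoc, huu, one_mul]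
    rw [← e, hTz]
  have huz : u * z ∈ V := by
    refine h1 _ ?_
    rw [mul_assoc, hzu]
  have hKu : ∀ a ∈ convexHull ℝ (Set.range φ), u * (x - a) ∈ V := by
    intro a ha
    have h4 : convexHull ℝ (Set.range φ) ⊆ {a | u * (x - a) ∈ V} := by
      refine convexHull_min ?_ ?_
      · rintro _ ⟨k, rfl⟩
        exact hφu k
      · intro a1 ha1 a2 ha2 s t hs ht hst
        have e : u * (x - (s • a1 + t • a2)) = s • (u * (x - a1)) + t • (u * (x - a2)) := by
          have e1 : x = s • x + t • x := by rw [← add_smul, hst, one_smul]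
          have e2 : x - (s • a1 + t • a2) = s • (x - a1) + t • (x - a2) := by
            conv_lhs => rw [e1]
            rw [smul_sub, smul_sub]
            abel
          rw [e2, mul_add, mul_smul_comm, mul_smul_comm]
        show u * (x - (s • a1 + t • a2)) ∈ V
        rw [e]
        exact V.add_mem (hsm s _ ha1) (hsm t _ ha2)
    exact h4 ha
  refine hV _ fun ε hε => ?_
  obtain ⟨a, ha, hza⟩ := hz1 ε hε
  refine ⟨u * z + u * (x - a), V.add_mem huz (hKu a ha), ?_⟩
  have e : u * x - (u * z + u * (x - a)) = u * (a - z) := by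
    rw [mul_sub, mul_sub]
    abel
  rw [e, n2_unitary_left hu, n2_sub_comm]
  exact hza

end ST
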