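import Pool.Agent.H77.ST.U1

/-!
# Ex: the exponential is 2-norm Lipschitz on skew-adjoint elements
-/


open Filter Topology

namespace ST

open SC

variable {N : Type*} [CStarAlgebra N] {τ : N →ₗ[ℂ] ℂ}

theorem exp_skew_unitary {y : N} (hy : star y = -y) : NormedSpace.exp y ∈ unitary N := by
  letI : NormedAlgebra ℚ N := NormedAlgebra.restrictScalars ℚ ℂ N
  have h1 : NormedSpace.exp (-y) * NormedSpace.exp y = 1 := by
    rw [← NormedSpace.exp_add_of_commute (Commute.neg_left (Commute.refl y)), neg_add_cancel,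
      NormedSpace.exp_zero]
  have h2 : NormedSpace.exp y * NormedSpace.exp (-y) = 1 := by
    rw [← NormedSpace.exp_add_of_commute (Commute.neg_right (Commute.refl y)), add_neg_cancel,
      NormedSpace.exp_zero]
  rw [Unitary.mem_iff, NormedSpace.star_exp, hy]
  exact ⟨h1, h2⟩

private theorem slope_lim (y : N) :
    Tendsto (fun n : ℕ => ((n : ℂ) + 1) • (NormedSpace.exp (((n : ℂ) + 1)⁻¹ • y) - 1)) atTop
      (𝓝 y) := by
  have hd : HasDerivAt (fun t : ℂ => NormedSpace.exp (t • y)) (NormedSpace.exp ((0 : ℂ) • y) * y) 0 :=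
    hasDerivAt_exp_smul_const y 0
  have h1 := hd.tendsto_slope_zero
  have h2 : Tendsto (fun n : ℕ => ((n : ℂ) + 1)⁻¹) atTop (𝓝[≠] 0) := by
    rw [tendsto_nhdsWithin_iff]
    refine ⟨?_, Eventually.of_forall fun n => ?_⟩
    · have h3 : Tendsto (fun n : ℕ => (((n : ℝ) + 1)⁻¹ : ℝ)) atTop (𝓝 0) := by
        simpa [one_div] using tendsto_one_div_add_atTop_nhds_zero_nat (𝕜 := ℝ)
      have h4 := (Complex.continuous_ofReal.tendsto (0 : ℝ)).comp h3
      simpa [Function.comp_def] using h4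
    · have : ((n : ℂ) + 1) ≠ 0 := by exact_mod_cast Nat.succ_ne_zero n
      simpa using this
  have h3 := h1.comp h2
  simpa [Function.comp_def] using h3

theorem exp_lip (h : IsTr τ) {y z : N} (hy : star y = -y) (hz : star z = -z) :
    n2 τ (NormedSpace.exp y - NormedSpace.exp z) ≤ n2 τ (y - z) := by
  letI : NormedAlgebra ℚ N := NormedAlgebra.restrictScalars ℚ ℂ N
  have hsk : ∀ (x : N) (n : ℕ), star x = -x → star (((n : ℂ) + 1)⁻¹ • x) = -(((n : ℂ) + 1)⁻¹ • x) := by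
    intro x n hx
    rw [star_smul, hx, smul_neg]
    congr 2
    simp
  have hpow : ∀ (x : N) (n : ℕ), NormedSpace.exp (((n : ℂ) + 1)⁻¹ • x) ^ (n + 1) = NormedSpace.exp x := by
    intro x n
    rw [← NormedSpace.exp_nsmul]
    congr 1
    have : ((n : ℂ) + 1) ≠ 0 := by exact_mod_cast Nat.succ_ne_zero n
    rw [← Nat.cast_smul_eq_nsmul ℂ, smul_smul]
    push_cast
    rw [mul_inv_cancel₀ this, one_smul]
  have key : ∀ n : ℕ, n2 τ (NormedSpace.exp y - NormedSpace.exp z) ≤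
      n2 τ (((n : ℂ) + 1) • (NormedSpace.exp (((n : ℂ) + 1)⁻¹ • y) - 1) -
        ((n : ℂ) + 1) • (NormedSpace.exp (((n : ℂ) + 1)⁻¹ • z) - 1)) := by
    intro n
    have h1 := n2_pow_sub h (exp_skew_unitary (hsk y n hy)) (exp_skew_unitary (hsk z n hz)) (n + 1)
    rw [hpow, hpow] at h1
    rw [← smul_sub, n2_smul h, sub_sub_sub_cancel_right]
    have : ‖((n : ℂ) + 1)‖ = ((n + 1 : ℕ) : ℝ) := by
      rw [show ((n : ℂ) + 1) = ((n + 1 : ℕ) : ℂ) by push_cast; rfl, Complex.norm_natCast]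
    rw [this]
    exact h1
  have hlim : Tendsto (fun n : ℕ => (((n : ℂ) + 1) • (NormedSpace.exp (((n : ℂ) + 1)⁻¹ • y) - 1) -
        ((n : ℂ) + 1) • (NormedSpace.exp (((n : ℂ) + 1)⁻¹ • z) - 1)) - (y - z)) atTop (𝓝 0) := by
    have := ((slope_lim y).sub (slope_lim z)).sub_const (y - z)
    simpa using this
  refine le_of_forall_pos_le_add fun ε hε => ?_
  have h5 := (tendsto_zero_iff_norm_tendsto_zero.mp hlim).eventually (gt_mem_nhds hε)
  obtain ⟨n, hn⟩ := h5.exists
  refine (key n).trans ?_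
  set X := ((n : ℂ) + 1) • (NormedSpace.exp (((n : ℂ) + 1)⁻¹ • y) - 1) -
        ((n : ℂ) + 1) • (NormedSpace.exp (((n : ℂ) + 1)⁻¹ • z) - 1) with hX
  have h6 : X = (y - z) + (X - (y - z)) := by abel
  rw [h6]
  refine (n2_add_le h _ _).trans ?_
  have h7 := n2_le_norm h (X - (y - z))
  linarith

end ST
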