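import Pool.Agent.H77.ST.Sl

/-!
# Pa: a unitary of finite order can be conjugated into the commutant of a Haar unitary

Let `S` be the set of `x` with `PIso x`, `x x* v = v x x*` and `x* v^k x u = u x* v^k x` for all
`k : ℕ`.  `exhaust` with `le = Extends`, value `(τ (x* x)).re`, start `0`; upper bounds from
`pi_limit` (the conditions pass to 2-norm limits: `tendsto_mul2`, `lim_unique2`).  Let `x` be
maximal, `r = 1 - x* x`, `r' = 1 - x x*` (projections); `r` commutes with `u` (`k = 0`), `r'`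
commutes with `v`.  Suppose `r ≠ 0`.
(1) There is `a` with `r' a r ≠ 0`.  Otherwise let `t = cexp(r)` (central, selfadjoint):
    `r' t = 0`, and `τ(t) = τ(t x x*) = τ(x* t x) = τ(t x* x) = τ(t) - τ(t r)`, so
    `0 = τ(t r) = τ(t t)`, `t = 0`, `τ(r) = τ(t) = 0`, `r = 0`.
(2) Let `q_j = (1/n) Σ_{k<n} ζ^{-jk} v^k` (`ζ = exp(2πi/n)`, `j < n`): selfadjoint, `Σ_j q_j = 1`,
    `v q_j = ζ^j q_j = q_j v`, and `q_j` commutes with `r'`.  So `y = q_j r' a r ≠ 0` for some `j`.
    `polar2`: `d₀ ≠ 0` with `(q_j r') d₀ = d₀` and `d₀ r = d₀`, `e = d₀* d₀` a projection, `r e = e`.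
(3) `small_lemma`: `f`, `g` with `g* g = f`, `e g = g`, `f` commutes with `u`, `r f = f`, `f ≠ 0`.
    `d = d₀ g`: `d* d = g* e g = f`, `q_j r' d = d`, so `q_j d = d`, `r' d = d`,
    `v d = ζ^j d` and `v* d = ζ^{-j} d`.
(4) `x + d ∈ S` (`piso_add`): `x* d = x* r' d = 0` and `x* x d* d = x* x f = 0`;
    `d d* v = (v* d d*)* = ζ^j d d* = v d d*`;
    `(x + d)* v^k (x + d) = x* v^k x + ζ^{jk} f` (cross terms: `x* v^k d = ζ^{jk} x* d = 0`,
    `d* v^k x = ζ^{jk} d* x = 0`).  It has larger trace: contradiction.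
So `x* x = 1`, `τ(1 - x x*) = 0`, `x x* = 1`, and `w = x`, `k = 1`.
-/

open Filter Topology

namespace ST

open SC

variable {N : Type*} [CStarAlgebra N] {τ : N →ₗ[ℂ] ℂ}

private theorem eig_aux {v : N} (P : N → Prop)
    (hP : ∀ (a : ℂ) (w : N), P w → P ((v - a • (1 : N)) * w)) {w : N} (hw : w ≠ 0) (hPw : P w)
    (L : List ℂ) (hL : (L.map (fun a : ℂ => v - a • (1 : N))).prod * w = 0) :
    ∃ a ∈ L, ∃ y, y ≠ 0 ∧ P y ∧ v * y = a • y := by
  have hPL : ∀ L : List ℂ, P ((L.map (fun a : ℂ => v - a • (1 : N))).prod * w) := by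
    intro L
    induction L with
    | nil => simpa using hPw
    | cons a L ih =>
      rw [List.map_cons, List.prod_cons, mul_assoc]
      exact hP a _ ih
  induction L with
  | nil =>
    rw [List.map_nil, List.prod_nil, one_mul] at hL
    exact absurd hL hw
  | cons a L ih =>
    by_cases h0 : (L.map (fun a : ℂ => v - a • (1 : N))).prod * w = 0
    · obtain ⟨b, hb, y, hy⟩ := ih h0
      exact ⟨b, List.mem_cons_of_mem _ hb, y, hy⟩
    · refine ⟨a, List.mem_cons_self, _, h0, hPL L, ?_⟩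
      rw [List.map_cons, List.prod_cons, mul_assoc, sub_mul, smul_mul_assoc, one_mul,
        sub_eq_zero] at hL
      exact hL

private theorem prod_roots {v : N} {n : ℕ} (hn : 1 ≤ n) (hvn : v ^ n = 1) :
    ∃ L : List ℂ, (∀ a ∈ L, a ^ n = 1) ∧ (L.map (fun a : ℂ => v - a • (1 : N))).prod = 0 := by
  have h1 := Polynomial.X_pow_sub_one_eq_prod (show 0 < n by omega)
    (Complex.isPrimitiveRoot_exp n (by omega))
  refine ⟨(Polynomial.nthRootsFinset n (1 : ℂ)).toList, fun a ha => ?_, ?_⟩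
  · rw [Finset.mem_toList, Polynomial.mem_nthRootsFinset (show 0 < n by omega)] at ha
    exact ha
  · rw [← Finset.prod_map_toList] at h1
    have h2 := congrArg (Polynomial.aeval v) h1
    rw [map_list_prod, List.map_map, map_sub, map_pow, Polynomial.aeval_X, map_one, hvn,
      sub_self] at h2
    rw [h2]
    congr 1
    refine List.map_congr_left fun a _ => ?_
    simp [Algebra.algebraMap_eq_smul_one]

/-- 2-norm convergence of a sequence in the unit ball -/
private def Cv (τ : N →ₗ[ℂ] ℂ) (x : ℕ → N) (a : N) : Prop :=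
  (∀ k, ‖x k‖ ≤ 1) ∧ ‖a‖ ≤ 1 ∧ Tendsto (fun k => n2 τ (x k - a)) atTop (𝓝 0)

private theorem cv_mul (h : IsTr τ) {x y : ℕ → N} {a b : N} (h1 : Cv τ x a) (h2 : Cv τ y b) :
    Cv τ (fun k => x k * y k) (a * b) :=
  ⟨fun k => (norm_mul_le _ _).trans (mul_le_one₀ (h1.1 k) (norm_nonneg _) (h2.1 k)),
    (norm_mul_le _ _).trans (mul_le_one₀ h1.2.1 (norm_nonneg _) h2.2.1),
    tendsto_mul2 h 1 h1.1 h2.2.1 h1.2.2 h2.2.2⟩

private theorem cv_star (h : IsTr τ) {x : ℕ → N} {a : N} (h1 : Cv τ x a) :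
    Cv τ (fun k => star (x k)) (star a) := by
  refine ⟨fun k => by rw [norm_star]; exact h1.1 k, by rw [norm_star]; exact h1.2.1, ?_⟩
  refine h1.2.2.congr fun k => ?_
  rw [← star_sub, n2_star h]

private theorem cv_const {a : N} (ha : ‖a‖ ≤ 1) : Cv τ (fun _ => a) a := by
  refine ⟨fun _ => ha, ha, ?_⟩
  simp only [sub_self, n2_zero]
  exact tendsto_const_nhds

private theorem cv_eq (h : IsTr τ) {x y : ℕ → N} {a b : N} (h1 : Cv τ x a) (h2 : Cv τ y b)
    (hxy : ∀ k, x k = y k) : a = b := by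
  have h3 : x = y := funext hxy
  rw [h3] at h1
  exact lim_unique2 h h1.2.2 h2.2.2

/-- the set of partial conjugations -/
private def Sp (u v : N) (x : N) : Prop :=
  PIso x ∧ (x * star x) * v = v * (x * star x) ∧
    ∀ k : ℕ, (star x * v ^ k * x) * u = u * (star x * v ^ k * x)

private theorem sp_lim (h : IsTr τ) {u v : N} (hu : u ∈ unitary N) (hv : v ∈ unitary N)
    (x : ℕ → N) (hx : ∀ k, Sp u v (x k)) (hext : ∀ k, Extends (x k) (x (k + 1))) :
    ∃ y, Sp u v y ∧ ∀ k, Extends (x k) y := by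
  obtain ⟨y, hy, hy1, hy2⟩ := pi_limit h x (fun k => (hx k).1) hext
  have hc : Cv τ x y := ⟨fun k => piso_norm (hx k).1, piso_norm hy, hy2⟩
  have hcu : Cv τ (fun _ => u) u := cv_const (norm_unitary_le hu)
  have hcv : Cv τ (fun _ => v) v := cv_const (norm_unitary_le hv)
  refine ⟨y, ⟨hy, ?_, fun k => ?_⟩, hy1⟩
  · exact cv_eq h (cv_mul h (cv_mul h hc (cv_star h hc)) hcv)
      (cv_mul h hcv (cv_mul h hc (cv_star h hc))) fun k => (hx k).2.1
  · have hcvk : Cv τ (fun _ => v ^ k) (v ^ k) := cv_const (norm_unitary_le (pow_mem hv k))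
    have h1 := cv_mul h (cv_mul h (cv_star h hc) hcvk) hc
    exact cv_eq h (cv_mul h h1 hcu) (cv_mul h hcu h1) fun j => (hx j).2.2 k

private theorem sp_max (h : IsTr τ) {u v : N} (hu : u ∈ unitary N) (hv : v ∈ unitary N) :
    ∃ x, Sp u v x ∧ ∀ y, Sp u v y → Extends x y → (τ (star y * y)).re ≤ (τ (star x * x)).re := by
  have h0 : Sp u v (0 : N) := by
    refine ⟨?_, by simp, fun k => by simp⟩
    show (0 : N) * star 0 * 0 = 0
    rw [mul_zero]
  obtain ⟨x, -, hx⟩ := exhaust (S := {x : N // Sp u v x}) (fun a b => Extends a.1 b.1)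
    (fun a => ext_refl a.2.1) (fun a b c h1 h2 => ext_trans a.2.1 b.2.1 h1 h2)
    (fun a => (τ (star a.1 * a.1)).re)
    (fun a b hab => by
      have h1 := (ext_props h a.2.1 b.2.1 hab).2.2.2
      have h2 := sq_nonneg (n2 τ (b.1 - a.1))
      show (τ (star a.1 * a.1)).re ≤ (τ (star b.1 * b.1)).re
      linarith)
    ⟨1, fun a => (proj_tau h (piso_proj a.2.1).1).2.2.1⟩
    (fun a ha => by
      obtain ⟨y, hy, hy1⟩ := sp_lim h hu hv (fun k => (a k).1) (fun k => (a k).2) ha
      exact ⟨⟨y, hy⟩, hy1⟩) ⟨0, h0⟩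
  exact ⟨x.1, x.2, fun y hy hxy => hx ⟨y, hy⟩ hxy⟩

private theorem proj_compl {p : N} (hp : IsProj p) : IsProj (1 - p) := by
  refine ⟨by rw [star_sub, star_one, hp.1], ?_⟩
  rw [sub_mul, mul_sub, mul_sub, hp.2, one_mul, mul_one, one_mul]
  abel

private theorem not_all_zero (h : IsTr τ) {x : N} (hr0 : 1 - star x * x ≠ 0)
    (hr : IsProj (1 - star x * x)) : ∃ a : N, (1 - x * star x) * a * (1 - star x * x) ≠ 0 := by
  by_contra hcon
  push Not at hcon
  obtain ⟨t, ht1, ht2, ht3, ht4⟩ := cexp h (1 - star x * x)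
  have hts : star t = t := ht3 hr.1
  have h1 : (1 - x * star x) * t = 0 := ht4 _ hcon
  have h2 : x * star x * t = t := by
    rw [sub_mul, one_mul, sub_eq_zero] at h1
    exact h1.symm
  have h3 : τ t = τ (t * (star x * x)) := by
    calc τ t = τ (x * star x * t) := by rw [h2]
      _ = τ (x * (star x * t)) := by rw [mul_assoc]
      _ = τ (star x * t * x) := h.tracial _ _
      _ = τ (t * star x * x) := by rw [ht1 (star x)]
      _ = τ (t * (star x * x)) := by rw [mul_assoc]
  have h4 : τ (t * (1 - star x * x)) = 0 := by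
    rw [mul_sub, mul_one, map_sub, ← h3, sub_self]
  have h5 : τ (star t * t) = 0 := by
    rw [hts, ht2 t ht1, h4]
  have h6 : t = 0 := h.faithful t h5
  have h7 := ht2 1 (fun a => by rw [one_mul, mul_one])
  rw [one_mul, one_mul, h6, map_zero] at h7
  apply hr0
  refine (proj_tau h hr).2.2.2 ?_
  rw [← h7, Complex.zero_re]

private theorem enlarge (h : IsTr τ) {u : N} (hu : u ∈ Haar τ) (n : ℕ) (hn : 1 ≤ n) {v : N}
    (hv : v ∈ unitary N) (hvn : v ^ n = 1) {x : N} (hx : Sp u v x)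
    (hr0 : 1 - star x * x ≠ 0) :
    ∃ y, Sp u v y ∧ Extends x y ∧ (τ (star x * x)).re < (τ (star y * y)).re := by
  obtain ⟨hxp, hxv, hxu⟩ := hx
  obtain ⟨hp1, hp2⟩ := piso_proj hxp
  have hr : IsProj (1 - star x * x) := proj_compl hp1
  have hr' : IsProj (1 - x * star x) := proj_compl hp2
  have hru : (1 - star x * x) * u = u * (1 - star x * x) := by
    have h1 := hxu 0
    rw [pow_zero, mul_one] at h1
    rw [sub_mul, mul_sub, one_mul, mul_one, h1]
  have hrv : (1 - x * star x) * v = v * (1 - x * star x) := by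
    rw [sub_mul, mul_sub, one_mul, mul_one, hxv]
  obtain ⟨a, ha⟩ := not_all_zero h hr0 hr
  obtain ⟨L, hL1, hL2⟩ := prod_roots hn hvn
  obtain ⟨c, hcL, y, hy0, ⟨hy1, hy2⟩, hvy⟩ := eig_aux (v := v)
    (fun w => (1 - x * star x) * w = w ∧ w * (1 - star x * x) = w)
    (fun b w hw => by
      constructor
      · rw [← mul_assoc, mul_sub (1 - x * star x), hrv, mul_smul_comm, mul_one, sub_mul, sub_mul,
          mul_assoc, hw.1, smul_mul_assoc, hw.1, smul_mul_assoc, one_mul]
      · rw [mul_assoc, hw.2])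
    ha
    ⟨by rw [mul_assoc, ← mul_assoc (1 - x * star x) (1 - x * star x), hr'.2],
      by rw [mul_assoc, hr.2]⟩ L (by rw [hL2, zero_mul])
  have hc : ‖c‖ = 1 := Complex.norm_eq_one_of_pow_eq_one (hL1 c hcL) (by omega)
  have hcc : star c * c = 1 := by
    have h2 := Complex.conj_mul' c
    rw [hc] at h2
    simpa using h2
  obtain ⟨d₀, hd0, hd1, hd2, hd3, -, -⟩ := polar2 h y hy0
  have hd2r : (1 - x * star x) * d₀ = d₀ := hd2 _ hy1
  have hd3r : d₀ * (1 - star x * x) = d₀ := hd3 _ hr.1 hy2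
  have hd2v : v * d₀ = c • d₀ := by
    have h1 := hd2 (star c • v) (by rw [smul_mul_assoc, hvy, smul_smul, hcc, one_smul])
    rw [smul_mul_assoc] at h1
    have h2 : c • (star c • (v * d₀)) = c • d₀ := by rw [h1]
    rw [smul_smul, mul_comm c, hcc, one_smul] at h2
    exact h2
  have he : IsProj (star d₀ * d₀) := ⟨by rw [star_mul, star_star], hd1⟩
  have he0 : star d₀ * d₀ ≠ 0 := by
    intro h1
    apply hd0
    apply h.faithful
    rw [h1, map_zero]
  have hre : (1 - star x * x) * (star d₀ * d₀) = star d₀ * d₀ := by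
    have h1 := congrArg star hd3r
    rw [star_mul, hr.1] at h1
    rw [← mul_assoc, h1]
  obtain ⟨f, g, hf, hfu, hrf, hf0, hgf, heg⟩ := small_lemma h hu hr hru he he0 hre
  obtain ⟨d, hd⟩ : ∃ d : N, d = d₀ * g := ⟨_, rfl⟩
  have hdd : star d * d = f := by
    rw [hd, star_mul, mul_assoc, ← mul_assoc (star d₀), heg, hgf]
  have hrd : (1 - x * star x) * d = d := by rw [hd, ← mul_assoc, hd2r]
  have hvd : v * d = c • d := by rw [hd, ← mul_assoc, hd2v, smul_mul_assoc]
  have hsvd : star v * d = star c • d := by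
    calc star v * d = star v * ((star c * c) • d) := by rw [hcc, one_smul]
      _ = star c • (star v * (c • d)) := by rw [mul_smul, mul_smul_comm]
      _ = star c • (star v * v * d) := by rw [← hvd, mul_assoc]
      _ = star c • d := by rw [Unitary.star_mul_self_of_mem hv, one_mul]
  have hdv : star d * v = c • star d := by
    have h1 := congrArg star hsvd
    rw [star_mul, star_star, star_smul, star_star] at h1
    exact h1
  have hdvk : ∀ k : ℕ, star d * v ^ k = c ^ k • star d := by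
    intro k
    induction k with
    | zero => rw [pow_zero, pow_zero, mul_one, one_smul]
    | succ k ih => rw [pow_succ, ← mul_assoc, ih, smul_mul_assoc, hdv, smul_smul, ← pow_succ]
  have hvkd : ∀ k : ℕ, v ^ k * d = c ^ k • d := by
    intro k
    induction k with
    | zero => rw [pow_zero, pow_zero, one_mul, one_smul]
    | succ k ih => rw [pow_succ, mul_assoc, hvd, mul_smul_comm, ih, smul_smul, mul_comm c,
        ← pow_succ]
  have hxd : star x * d = 0 := by
    have h1 : star x * (1 - x * star x) = 0 := by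
      have h2 := congrArg star hxp
      rw [star_mul, star_mul, star_star] at h2
      rw [mul_sub, mul_one, h2, sub_self]
    rw [← hrd, ← mul_assoc, h1, zero_mul]
  have hdx : star d * x = 0 := by
    have h1 := congrArg star hxd
    rwa [star_mul, star_star, star_zero] at h1
  have hdp : PIso d := piso_of_proj (by rw [hdd, hf.2])
  obtain ⟨h1, h2, h3, h4⟩ := piso_add hxp hdp
    (by
      rw [hdd]
      rw [sub_mul, one_mul, sub_eq_self] at hrf
      exact hrf)
    (by
      rw [mul_assoc, ← mul_assoc (star x), hxd, zero_mul, mul_zero])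
  refine ⟨x + d, ⟨h1, ?_, fun k => ?_⟩, h2, ?_⟩
  · rw [h4, add_mul, mul_add, hxv]
    congr 1
    rw [mul_assoc, hdv, mul_smul_comm, ← mul_assoc, hvd, smul_mul_assoc]
  · have h5 : star (x + d) * v ^ k * (x + d) = star x * v ^ k * x + c ^ k • f := by
      rw [star_add, add_mul, add_mul, mul_add, mul_add, hdvk, smul_mul_assoc, smul_mul_assoc, hdx,
        hdd, smul_zero, zero_add, mul_assoc (star x) (v ^ k) d, hvkd, mul_smul_comm, hxd,
        smul_zero, add_zero]
    rw [h5, add_mul, mul_add, hxu k, smul_mul_assoc, mul_smul_comm, hfu]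
  · rw [h3, hdd, map_add, Complex.add_re]
    obtain ⟨-, h6, -, h7⟩ := proj_tau h hf
    have h8 : 0 < (τ f).re := lt_of_le_of_ne h6 fun h9 => hf0 (h7 h9.symm)
    linarith

theorem fin_commutant (h : IsTr τ) {u : N} (hu : u ∈ Haar τ) (n : ℕ) (hn : 1 ≤ n) {v : N}
    (hv : v ∈ unitary N) (hvn : v ^ n = 1) :
    ∃ w ∈ unitary N, (star w * v * w) * u = u * (star w * v * w) := by
  obtain ⟨x, hx, hmax⟩ := sp_max h hu.1 hv
  have h1 : 1 - star x * x = 0 := by
    by_contra hne
    obtain ⟨y, hy, hxy, hlt⟩ := enlarge h hu n hn hv hvn hx hne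
    exact absurd (hmax y hy hxy) (not_le.2 hlt)
  have h2 : star x * x = 1 := (sub_eq_zero.1 h1).symm
  have h3 : 1 - x * star x = 0 := by
    refine (proj_tau h (proj_compl (piso_proj hx.1).2)).2.2.2 ?_
    rw [map_sub, h.tracial x, h2, sub_self, Complex.zero_re]
  refine ⟨x, Unitary.mem_iff.2 ⟨h2, (sub_eq_zero.1 h3).symm⟩, ?_⟩
  have h4 := hx.2.2 1
  rwa [pow_one] at h4

end ST
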