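import Pool.Agent.H77.ST.Hd
import Pool.Agent.H77.ST.Pa

/-!
# Gd: conjugates of Haar unitaries commuting with `u` are dense in the Haar unitaries

Take `n ≥ 1` with `8/n < ε`; `v'` from `haar_fin2` (or `haar_fin`) for `v`; `w` from
`fin_commutant` for `v'`; `c' = w* v' w` is a unitary of order dividing `n` with
`τ(c'^k) = τ(v'^k) = 0` for `0 < k < n`, commuting with `u`; `c` from `haar_near`.
`‖w c w* - v‖₂ ≤ ‖c - c'‖₂ + ‖v' - v‖₂ ≤ 8/n < ε`.
-/

open Filter Topology

namespace ST

open SC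

variable {N : Type*} [CStarAlgebra N] {τ : N →ₗ[ℂ] ℂ}

theorem conj_comm_dense (h : IsTr τ) {u v : N} (hu : u ∈ Haar τ) (hv : v ∈ Haar τ) (ε : ℝ)
    (hε : 0 < ε) :
    ∃ w ∈ unitary N, ∃ c ∈ Haar τ, c * u = u * c ∧ n2 τ (w * c * star w - v) < ε := by
  obtain ⟨n, hn⟩ := exists_nat_gt (8 / ε)
  have hn0 : (0 : ℝ) < n := lt_trans (by positivity) hn
  have hn1 : 1 ≤ n := by
    have : 0 < n := by exact_mod_cast hn0
    omega
  have h8 : 4 / (n : ℝ) + 4 / n < ε := by
    rw [div_lt_iff₀ hε] at hn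
    rw [← add_div, div_lt_iff₀ hn0]
    linarith
  obtain ⟨v', hv', hvn, hv0, hvv⟩ := haar_fin h hv n hn1
  obtain ⟨w, hw, hwu⟩ := fin_commutant h hu n hn1 hv' hvn
  have hws : star w ∈ unitary N := star_mem' hw
  have hw1 : star w * w = 1 := (Unitary.mem_iff.mp hw).1
  have hw2 : w * star w = 1 := (Unitary.mem_iff.mp hw).2
  have hp : ∀ k : ℕ, (star w * v' * w) ^ k = star w * v' ^ k * w := by
    intro k
    have := conj_pow' hws v' k
    rwa [star_star] at this
  obtain ⟨c, hc, hcu, hcc⟩ := haar_near h hu n hn1 (c := star w * v' * w)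
    (mul_mem (mul_mem hws hv') hw) (by rw [hp, hvn, mul_one, hw1])
    (fun k hk hkn => by
      rw [hp, mul_assoc, h.tracial, mul_assoc, hw2, mul_one]
      exact hv0 k hk hkn) hwu
  refine ⟨w, hw, c, hc, hcu, ?_⟩
  have e1 : w * c * star w - v' = w * (c - star w * v' * w) * star w := by
    have e2 : w * (star w * v' * w) * star w = v' := by
      calc w * (star w * v' * w) * star w = (w * star w) * v' * (w * star w) := by
            simp only [mul_assoc]
        _ = v' := by rw [hw2, one_mul, mul_one]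
    rw [mul_sub, sub_mul, e2]
  have l1 : n2 τ (w * c * star w - v') ≤ 4 / n := by
    rw [e1, n2_unitary_right h hws, n2_unitary_left hw]
    exact hcc
  have l2 := n2_sub_le h (w * c * star w) v' v
  rw [n2_sub_comm v' v] at l2
  linarith

end ST
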