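import Pool.Agent.H77.ST.Bp

/-!
# Ha: traces of continuous functions of a Haar unitary

`tau_pow_elemental`: `τ(u^k c) = 0` for `c` in the closed *-algebra generated by `u^n`, if
`0 < k < n`.  The set of `c` with this property is a closed subspace (`|τ(x)| ≤ ‖x‖`), and the
*-algebra generated by the unitary `u^n` is spanned by `u^{n m}` and `(u*)^{n m}`, `m ≥ 0`:
`τ(u^k u^{nm}) = 0`, and `u^k (u*)^{nm}` is `u^k` or `(u*)^{nm-k}` with `nm - k ≥ 1`
(`τ((u*)^j) = conj τ(u^j) = 0`, `tau_star`).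
(For instance show first by induction (`Algebra.adjoin_induction`, `StarAlgebra.adjoin`) that every
element of the *-algebra generated by a unitary `v` is in the span of the `v^m`, `(v*)^m`.)

`tau_rot`: for a Haar unitary `v`, `|ζ| = 1` and `f` continuous on the circle,
`τ(f(ζ v)) = τ(f(v))`: both sides are continuous in `f` for the sup norm on the circle and agree
for `f = z^k` and `f = conj z^k` (both are `0`, or `1` for `k = 0`); Stone-Weierstrass
(or: `a ↦ τ(a)` on the two C*-algebras and polynomials in `z`, `conj z`;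
`polynomialFunctions`/`ContinuousMap.starSubalgebra_topologicalClosure_eq_top_of_separatesPoints`).
It is only needed for `f = bump δ`.
-/

open Filter Topology

namespace ST

open SC

variable {N : Type*} [CStarAlgebra N] {τ : N →ₗ[ℂ] ℂ}

private lemma ha_span {B : Type*} [Ring B] [StarRing B] [Algebra ℂ B] [StarModule ℂ B]
    (V : unitary B) {x : B} (hx : x ∈ StarAlgebra.adjoin ℂ ({(V : B)} : Set B)) :
    x ∈ Submodule.span ℂ (Set.range (fun m : ℤ => ((V ^ m : unitary B) : B))) := by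
  have h1 : x ∈ Subalgebra.toSubmodule (StarAlgebra.adjoin ℂ ({(V : B)} : Set B)).toSubalgebra := hx
  rw [StarAlgebra.adjoin_eq_span] at h1
  have h2 : ((Submonoid.closure (({(V : B)} : Set B) ∪ star ({(V : B)} : Set B)) : Submonoid B) : Set B)
      ⊆ Set.range (fun m : ℤ => ((V ^ m : unitary B) : B)) := by
    intro y hy
    induction hy using Submonoid.closure_induction with
    | mem y hy =>
      rcases hy with hy | hy
      · rw [Set.mem_singleton_iff] at hy
        exact ⟨1, by simp [hy]⟩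
      · rw [Set.mem_star, Set.mem_singleton_iff] at hy
        refine ⟨-1, ?_⟩
        have : y = star (V : B) := by rw [← hy, star_star]
        rw [this]
        show ((V ^ (-1 : ℤ) : unitary B) : B) = star (V : B)
        rw [zpow_neg_one, ← Unitary.star_eq_inv]
        rfl
    | one => exact ⟨0, by simp⟩
    | mul y z _ _ hy hz =>
      obtain ⟨a, rfl⟩ := hy
      obtain ⟨b, rfl⟩ := hz
      exact ⟨a + b, by simp [zpow_add]⟩
  exact Submodule.span_mono h2 h1

private lemma ha_cont (h : IsTr τ) : Continuous τ :=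
  AddMonoidHomClass.continuous_of_bound τ 1 (fun x => by simpa using tau_le_norm h x)

private lemma ha_zpow (h : IsTr τ) (V : unitary N) (hV : (V : N) ∈ Haar τ) {j : ℤ} (hj : j ≠ 0) :
    τ ((V ^ j : unitary N) : N) = 0 := by
  rcases lt_or_gt_of_ne hj with hj | hj
  · obtain ⟨m, hm⟩ : ∃ m : ℕ, j = -(m : ℤ) := ⟨j.natAbs, by omega⟩
    subst hm
    have hm1 : 1 ≤ m := by omega
    have : ((V ^ (-(m : ℤ)) : unitary N) : N) = star ((V : N) ^ m) := by
      rw [zpow_neg, zpow_natCast, ← Unitary.star_eq_inv]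
      simp
    rw [this, tau_star h, hV.2 m hm1, map_zero]
  · obtain ⟨m, hm⟩ : ∃ m : ℕ, j = (m : ℤ) := ⟨j.natAbs, by omega⟩
    subst hm
    have hm1 : 1 ≤ m := by omega
    rw [zpow_natCast]
    exact hV.2 m hm1

theorem tau_pow_elemental (h : IsTr τ) {u : N} (hu : u ∈ Haar τ) {k n : ℕ} (hk : 0 < k)
    (hkn : k < n) (c : N) (hc : c ∈ StarAlgebra.elemental ℂ (u ^ n)) : τ (u ^ k * c) = 0 := by
  let U : unitary N := ⟨u, hu.1⟩
  have hcl : IsClosed {c : N | τ (u ^ k * c) = 0} :=
    isClosed_eq ((ha_cont h).comp (continuous_const.mul continuous_id)) continuous_const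
  have hsub : ((StarAlgebra.adjoin ℂ ({u ^ n} : Set N) : StarSubalgebra ℂ N) : Set N) ⊆
      {c : N | τ (u ^ k * c) = 0} := by
    intro x hx
    have h1 := ha_span (U ^ n) (x := x) hx
    show τ (u ^ k * x) = 0
    clear hx
    induction h1 using Submodule.span_induction with
    | mem x hx =>
      obtain ⟨m, rfl⟩ := hx
      have h2 : u ^ k * (((U ^ n) ^ m : unitary N) : N) = ((U ^ ((k : ℤ) + n * m) : unitary N) : N) := by
        rw [zpow_add, zpow_mul, zpow_natCast, zpow_natCast]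
        rfl
      simp only
      rw [h2]
      apply ha_zpow h U hu
      intro h0
      have h3 : (n : ℤ) ∣ (k : ℤ) := ⟨-m, by linarith⟩
      have h4 := Int.le_of_dvd (by exact_mod_cast hk) h3
      omega
    | zero => simp
    | add x y _ _ hx hy => rw [mul_add, map_add, hx, hy, add_zero]
    | smul a x _ hx => rw [mul_smul_comm, map_smul, hx, smul_zero]
  have h5 : c ∈ closure ((StarAlgebra.adjoin ℂ ({u ^ n} : Set N) : StarSubalgebra ℂ N) : Set N) := hc
  exact closure_minimal hsub hcl h5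

private lemma ha_incl {w : N} (hw : w ∈ unitary N) : spectrum ℂ w ⊆ Metric.sphere (0 : ℂ) 1 :=
  spectrum.subset_circle_of_unitary hw

/-- the functional calculus of a unitary on the functions of the circle -/
private noncomputable def haPsi {w : N} (hw : w ∈ unitary N) :
    C(Metric.sphere (0 : ℂ) 1, ℂ) →⋆ₐ[ℂ] N :=
  (cfcHom (R := ℂ) (a := w) (p := IsStarNormal) (isStarNormal_of_mem_unitary hw)).comp
    (ContinuousMap.compStarAlgHom' ℂ ℂ
      ⟨Set.inclusion (ha_incl hw), continuous_inclusion (ha_incl hw)⟩)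

private lemma haPsi_cont {w : N} (hw : w ∈ unitary N) : Continuous (haPsi hw) :=
  (cfcHom_continuous (R := ℂ) (a := w) (p := IsStarNormal) (isStarNormal_of_mem_unitary hw)).comp
    (ContinuousMap.continuous_precomp _)

private lemma haPsi_id {w : N} (hw : w ∈ unitary N) :
    haPsi hw (ContinuousMap.restrict (Metric.sphere (0 : ℂ) 1) (.id ℂ)) = w :=
  cfcHom_id (R := ℂ) (a := w) (p := IsStarNormal) (isStarNormal_of_mem_unitary hw)

private lemma haPsi_cfc {w : N} (hw : w ∈ unitary N) (f : ℂ → ℂ)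
    (hf : ContinuousOn f (Metric.sphere (0 : ℂ) 1)) :
    cfc f w = haPsi hw ⟨_, hf.domRestrict⟩ := by
  rw [cfc_apply f w (isStarNormal_of_mem_unitary hw) (hf.mono (ha_incl hw))]
  rfl

private lemma ha_eq (h : IsTr τ) {v w : N} (hv : v ∈ Haar τ) (hw : w ∈ Haar τ)
    (g : C(Metric.sphere (0 : ℂ) 1, ℂ)) : τ (haPsi hv.1 g) = τ (haPsi hw.1 g) := by
  let z : C(Metric.sphere (0 : ℂ) 1, ℂ) := ContinuousMap.restrict (Metric.sphere (0 : ℂ) 1) (.id ℂ)
  have hz : z ∈ unitary C(Metric.sphere (0 : ℂ) 1, ℂ) := by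
    rw [Unitary.mem_iff]
    constructor
    · ext x
      have hx : ‖(x : ℂ)‖ = 1 := by simp
      have : starRingEnd ℂ (x : ℂ) * (x : ℂ) = 1 := by
        rw [← Complex.normSq_eq_conj_mul_self, Complex.normSq_eq_norm_sq, hx]; simp
      simpa [z] using this
    · ext x
      have hx : ‖(x : ℂ)‖ = 1 := by simp
      have : (x : ℂ) * starRingEnd ℂ (x : ℂ) = 1 := by
        rw [Complex.mul_conj, Complex.normSq_eq_norm_sq, hx]; simp
      simpa [z] using this
  let Z : unitary C(Metric.sphere (0 : ℂ) 1, ℂ) := ⟨z, hz⟩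
  have hcl : IsClosed {g : C(Metric.sphere (0 : ℂ) 1, ℂ) | τ (haPsi hv.1 g) = τ (haPsi hw.1 g)} :=
    isClosed_eq ((ha_cont h).comp (haPsi_cont hv.1)) ((ha_cont h).comp (haPsi_cont hw.1))
  have hpow : ∀ {y : N} (hy : y ∈ Haar τ) (m : ℤ),
      τ (haPsi hy.1 ((Z ^ m : unitary _) : C(Metric.sphere (0 : ℂ) 1, ℂ))) = if m = 0 then 1 else 0 := by
    intro y hy m
    let Y : unitary N := ⟨y, hy.1⟩
    have h1 : haPsi hy.1 ((Z ^ m : unitary _) : C(Metric.sphere (0 : ℂ) 1, ℂ)) = ((Y ^ m : unitary N) : N) := by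
      have hid : haPsi hy.1 z = y := haPsi_id hy.1
      rcases m with m | m
      · rw [Int.ofNat_eq_natCast, zpow_natCast, zpow_natCast]
        show haPsi hy.1 (z ^ m) = y ^ m
        rw [map_pow, hid]
      · rw [zpow_negSucc, zpow_negSucc, ← Unitary.star_eq_inv, ← Unitary.star_eq_inv]
        show haPsi hy.1 (star (z ^ (m + 1))) = star (y ^ (m + 1))
        rw [map_star, map_pow, hid]
    rw [h1]
    split_ifs with h0
    · subst h0
      simp [h.map_one]
    · exact ha_zpow h Y hy h0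
  have hsub : ((StarAlgebra.adjoin ℂ ({z} : Set C(Metric.sphere (0 : ℂ) 1, ℂ)) :
      StarSubalgebra ℂ C(Metric.sphere (0 : ℂ) 1, ℂ)) : Set C(Metric.sphere (0 : ℂ) 1, ℂ)) ⊆
      {g : C(Metric.sphere (0 : ℂ) 1, ℂ) | τ (haPsi hv.1 g) = τ (haPsi hw.1 g)} := by
    intro x hx
    have h1 := ha_span Z (x := x) hx
    show τ (haPsi hv.1 x) = τ (haPsi hw.1 x)
    clear hx
    induction h1 using Submodule.span_induction with
    | mem x hx =>
      obtain ⟨m, rfl⟩ := hx
      simp only
      rw [hpow hv, hpow hw]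
    | zero => simp
    | add x y _ _ hx hy => rw [map_add, map_add, map_add, map_add, hx, hy]
    | smul a x _ hx => rw [map_smul, map_smul, map_smul, map_smul, hx]
  have h5 : g ∈ closure ((StarAlgebra.adjoin ℂ ({z} : Set C(Metric.sphere (0 : ℂ) 1, ℂ)) :
      StarSubalgebra ℂ C(Metric.sphere (0 : ℂ) 1, ℂ)) : Set C(Metric.sphere (0 : ℂ) 1, ℂ)) := by
    have h6 : g ∈ (⊤ : StarSubalgebra ℂ C(Metric.sphere (0 : ℂ) 1, ℂ)) := trivial
    rw [← ContinuousMap.elemental_id_eq_top (Metric.sphere (0 : ℂ) 1)] at h6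
    exact h6
  exact closure_minimal hsub hcl h5

theorem tau_rot (h : IsTr τ) {v : N} (hv : v ∈ Haar τ) (ζ : ℂ) (hζ : ‖ζ‖ = 1) (f : ℂ → ℂ)
    (hf : ContinuousOn f (Metric.sphere (0 : ℂ) 1)) :
    τ (cfc f (ζ • v)) = τ (cfc f v) := by
  have hc : starRingEnd ℂ ζ * ζ = 1 := by
    rw [← Complex.normSq_eq_conj_mul_self, Complex.normSq_eq_norm_sq, hζ]; simp
  have hw : ζ • v ∈ Haar τ := by
    refine ⟨?_, fun m hm => ?_⟩
    · rw [Unitary.mem_iff]
      constructor
      · rw [star_smul, smul_mul_smul_comm, Unitary.star_mul_self_of_mem hv.1, Complex.star_def, hc,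
          one_smul]
      · rw [star_smul, smul_mul_smul_comm, Unitary.mul_star_self_of_mem hv.1, Complex.star_def,
          mul_comm ζ, hc, one_smul]
    · rw [smul_pow, map_smul, hv.2 m hm, smul_zero]
  rw [haPsi_cfc hw.1 f hf, haPsi_cfc hv.1 f hf]
  exact ha_eq h hw hv _

/-- `τ(bump δ (v))` is small for a Haar unitary `v`: by `bump_sum` and `tau_rot`,
`m τ(bump δ (v)) ≤ 1` for `δ ≤ δ₀(m)`. -/
theorem haar_bump (h : IsTr τ) (ε : ℝ) (hε : 0 < ε) : ∃ δ₀ : ℝ, 0 < δ₀ ∧
    ∀ δ : ℝ, 0 < δ → δ ≤ δ₀ → ∀ v ∈ Haar τ, (τ (cfc (bump δ) v)).re ≤ ε := by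
  obtain ⟨m, hm⟩ := exists_nat_gt (1 / ε)
  have hm1 : 1 ≤ m := by
    rcases Nat.eq_zero_or_pos m with h0 | h0
    · subst h0
      have : 0 < 1 / ε := by positivity
      simp at hm
      linarith
    · exact h0
  obtain ⟨δ₀, hδ₀, hb⟩ := bump_sum h m hm1
  refine ⟨δ₀, hδ₀, fun δ hδ hle v hv => ?_⟩
  have h1 := hb δ hδ hle v hv.1
  have hcont : Continuous (bump δ) := by
    unfold bump
    refine Complex.continuous_ofReal.comp ?_
    exact continuous_const.max (continuous_const.min
      (continuous_const.sub ((continuous_id.add continuous_const).norm.div_const _)))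
  have h2 : ∀ j ∈ Finset.range m,
      (τ (cfc (bump δ) (Complex.exp (2 * Real.pi * Complex.I * j / m) • v))).re =
        (τ (cfc (bump δ) v)).re := by
    intro j _
    rw [tau_rot h hv _ ?_ _ hcont.continuousOn]
    rw [Complex.norm_exp]
    have : (2 * Real.pi * Complex.I * j / m : ℂ).re = 0 := by
      have : (2 * Real.pi * Complex.I * j / m : ℂ) = ((2 * Real.pi * j / m : ℝ) : ℂ) * Complex.I := by
        push_cast; ring
      rw [this]
      simp
    rw [this, Real.exp_zero]
  rw [Finset.sum_congr rfl h2, Finset.sum_const, Finset.card_range, nsmul_eq_mul] at h1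
  have hmpos : (0 : ℝ) < m := by exact_mod_cast hm1
  have h3 : 1 / ε < m := hm
  rw [div_lt_iff₀ hε] at h3
  by_contra hcon
  push Not at hcon
  nlinarith [mul_lt_mul_of_pos_left hcon hmpos]

end ST
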