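import Pool.Agent.H77.ST.Hk

/-!
# Hd: a Haar unitary near a unitary of order `n`, in the commutant of `u`

`p_j = (1/n) Σ_{k<n} ζ^{-jk} c^k`, `ζ = exp(2πi/n)`, `j < n`: orthogonal projections with sum `1`,
`c p_j = ζ^j p_j`, `τ(p_j) = 1/n`, commuting with `u`.  `y_j` from `haar_corner` for `p_j`, and
`g = Σ_j y_j`: a unitary commuting with `u` and with `c` (`c y_j = ζ^j y_j = y_j c`),
`g^m = Σ y_j^m`, `τ(g^m) = 0` for `m ≥ 1`, `τ(p_j g^m) = τ(y_j^m) = 0` and `τ(p_j (g*)^m) = 0`.
So `τ(p_j a) = τ(a)/n` for all `a` in the closed *-algebra generated by `g` (it is the closed span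
of the `g^m`, `(g*)^m`; see the proof of `tau_pow_elemental` in `Ha.lean`) and for 2-norm limits of
such `a`.  `haar_log2` for `g`: `A` with `exp(I A) = g`, `‖A‖ ≤ π`, commuting with `u` and `c`.
`b = c exp((I/n) A)`: unitary, commutes with `u`, `‖b - c‖₂ ≤ ‖exp((I/n)A) - 1‖₂ ≤ ‖A‖/n ≤ 4/n`
(`exp_lip` with `z = 0`).  For `m ≥ 1`: `b^m = c^m exp((m I/n) A)`.  If `n ∤ m`:
`τ(b^m) = Σ_j ζ^{jm} τ(p_j a) = (1/n) Σ_j ζ^{jm} τ(a) = 0` with `a = exp((m I/n) A)`, a 2-norm limit
of elements `exp((m I/n) B)` of the closed *-algebra generated by `g` (`exp_lip`).  If `m = n l`: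
`c^m = 1` and `b^m = exp(l I A) = g^l`, trace `0`.
-/

open Filter Topology

namespace ST

open SC

variable {N : Type*} [CStarAlgebra N] {τ : N →ₗ[ℂ] ℂ}

private lemma hd_span {B : Type*} [Ring B] [StarRing B] [Algebra ℂ B] [StarModule ℂ B]
    (V : unitary B) {x : B} (hx : x ∈ StarAlgebra.adjoin ℂ ({(V : B)} : Set B)) :
    x ∈ Submodule.span ℂ (Set.range (fun m : ℤ => ((V ^ m : unitary B) : B))) := by
  have h1 : x ∈ Subalgebra.toSubmodule (StarAlgebra.adjoin ℂ ({(V : B)} : Set B)).toSubalgebra := hx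
  rw [StarAlgebra.adjoin_eq_span] at h1
  have h2 : ((Submonoid.closure (({(V : B)} : Set B) ∪ star ({(V : B)} : Set B)) : Submonoid B) : Set B)
      ⊆ Set.range (fun m : ℤ => ((V ^ m : unitary B) : B)) := by
    intro y hy
    induction hy using Submonoid.closure_induction with
    | mem y hy =>
      rcases hy with hy | hy
      · rw [Set.mem_singleton_iff] at hy
        exact ⟨1, by simp [hy]⟩
      · rw [Set.mem_star, Set.mem_singleton_iff] at hy
        refine ⟨-1, ?_⟩
        have : y = star (V : B) := by rw [← hy, star_star]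
        rw [this]
        show ((V ^ (-1 : ℤ) : unitary B) : B) = star (V : B)
        rw [zpow_neg_one, ← Unitary.star_eq_inv]
        rfl
    | one => exact ⟨0, by simp⟩
    | mul y z _ _ hy hz =>
      obtain ⟨a, rfl⟩ := hy
      obtain ⟨b, rfl⟩ := hz
      exact ⟨a + b, by simp [zpow_add]⟩
  exact Submodule.span_mono h2 h1

private lemma hd_cont (h : IsTr τ) : Continuous τ :=
  AddMonoidHomClass.continuous_of_bound τ 1 (fun x => by simpa using tau_le_norm h x)

/-- if `τ(d v^m) = 0` and `τ(d (v^m)*) = 0` then `τ(d a) = 0` on the closed algebra generated by `v` -/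
private lemma hd_elemental (h : IsTr τ) {d v : N} (hv : v ∈ unitary N)
    (h1 : ∀ m : ℕ, τ (d * v ^ m) = 0) (h2 : ∀ m : ℕ, τ (d * star (v ^ m)) = 0) (a : N)
    (ha : a ∈ StarAlgebra.elemental ℂ v) : τ (d * a) = 0 := by
  let V : unitary N := ⟨v, hv⟩
  have hcl : IsClosed {a : N | τ (d * a) = 0} :=
    isClosed_eq ((hd_cont h).comp (continuous_const.mul continuous_id)) continuous_const
  have hsub : ((StarAlgebra.adjoin ℂ ({v} : Set N) : StarSubalgebra ℂ N) : Set N) ⊆
      {a : N | τ (d * a) = 0} := by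
    intro x hx
    have h3 := hd_span V (x := x) hx
    show τ (d * x) = 0
    clear hx
    induction h3 using Submodule.span_induction with
    | mem x hx =>
      obtain ⟨m, rfl⟩ := hx
      simp only
      rcases m with m | m
      · rw [Int.ofNat_eq_natCast, zpow_natCast]
        exact h1 m
      · rw [zpow_negSucc, ← Unitary.star_eq_inv]
        exact h2 (m + 1)
    | zero => simp
    | add x y _ _ hx hy => rw [mul_add, map_add, hx, hy, add_zero]
    | smul a x _ hx => rw [mul_smul_comm, map_smul, hx, smul_zero]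
  have h5 : a ∈ closure ((StarAlgebra.adjoin ℂ ({v} : Set N) : StarSubalgebra ℂ N) : Set N) := ha
  exact closure_minimal hsub hcl h5

private lemma hd_skew {A : N} (hA : star A = A) {c : ℂ} (hc : star c = -c) :
    star (c • A) = -(c • A) := by
  rw [star_smul, hA, hc, neg_smul]

private lemma hd_exp_mem {w B : N} (hB : B ∈ StarAlgebra.elemental ℂ w) (c : ℂ) :
    NormedSpace.exp (c • B) ∈ StarAlgebra.elemental ℂ w := by
  rw [NormedSpace.exp_eq_tsum ℂ]
  refine tsum_mem (StarAlgebra.elemental.isClosed ℂ w) fun i => ?_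
  exact SMulMemClass.smul_mem _ (pow_mem (SMulMemClass.smul_mem _ hB) i)

/-- the projection on the fixed space of a unitary of order `n` -/
private lemma hd_P {w : N} (hw : w ∈ unitary N) {n : ℕ} (hn : 1 ≤ n) (hwn : w ^ n = 1) :
    w * (((n : ℂ)⁻¹) • ∑ k ∈ Finset.range n, w ^ k) = ((n : ℂ)⁻¹) • ∑ k ∈ Finset.range n, w ^ k ∧
      IsProj (((n : ℂ)⁻¹) • ∑ k ∈ Finset.range n, w ^ k) := by
  have hnc : (n : ℂ) ≠ 0 := Nat.cast_ne_zero.2 (by omega)
  obtain ⟨P, hP⟩ : ∃ P : N, P = ((n : ℂ)⁻¹) • ∑ k ∈ Finset.range n, w ^ k := ⟨_, rfl⟩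
  have h1 : w * P = P := by
    rw [hP, mul_smul_comm, Finset.mul_sum]
    congr 1
    have e1 := Finset.sum_range_succ (fun k => w ^ k) n
    have e2 := Finset.sum_range_succ' (fun k => w ^ k) n
    rw [e1, hwn, pow_zero] at e2
    have e3 := add_right_cancel e2
    rw [e3]
    refine Finset.sum_congr rfl fun k _ => ?_
    rw [pow_succ']
  have h2 : star w * P = P := by
    calc star w * P = star w * (w * P) := by rw [h1]
      _ = (star w * w) * P := by rw [mul_assoc]
      _ = P := by rw [Unitary.star_mul_self_of_mem hw, one_mul]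
  have h3 : ∀ k : ℕ, star w ^ k * P = P := by
    intro k
    induction k with
    | zero => rw [pow_zero, one_mul]
    | succ k ih => rw [pow_succ, mul_assoc, h2, ih]
  have h4 : star P * P = P := by
    have e : star P = ((n : ℂ)⁻¹) • ∑ k ∈ Finset.range n, star w ^ k := by
      rw [hP, star_smul, star_sum]
      congr 1
      · simp
      · refine Finset.sum_congr rfl fun k _ => ?_
        rw [star_pow]
    rw [e, smul_mul_assoc, Finset.sum_mul, Finset.sum_congr rfl fun k _ => h3 k, Finset.sum_const,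
      Finset.card_range, ← Nat.cast_smul_eq_nsmul ℂ, smul_smul, inv_mul_cancel₀ hnc, one_smul]
  have h5 : star P = P := by
    have := congrArg star h4
    rw [star_mul, star_star] at this
    rw [← this, h4]
  rw [← hP]
  refine ⟨h1, h5, ?_⟩
  rw [h5] at h4
  exact h4

private lemma hd_sum_mul (n : ℕ) (a b d : ℕ → N)
    (h : ∀ i < n, ∀ j < n, a i * b j = if i = j then d i else 0) :
    (∑ i ∈ Finset.range n, a i) * (∑ j ∈ Finset.range n, b j) = ∑ i ∈ Finset.range n, d i := by
  rw [Finset.sum_mul_sum]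
  refine Finset.sum_congr rfl fun i hi => ?_
  rw [Finset.sum_congr rfl (fun j hj => h i (Finset.mem_range.1 hi) j (Finset.mem_range.1 hj)),
    Finset.sum_ite_eq, if_pos hi]

/-- the spectral projections of a unitary of order `n` -/
private lemma hd_spectral {c : N} (hc : c ∈ unitary N) {n : ℕ} (hn : 1 ≤ n) (hcn : c ^ n = 1) :
    ∃ (p : ℕ → N) (l : ℕ → ℂ), (∀ j, IsProj (p j)) ∧ (∀ j, c * p j = l j • p j) ∧
      (∀ j, p j * c = l j • p j) ∧ (∀ i < n, ∀ j < n, i ≠ j → p i * p j = 0) ∧
      (∑ j ∈ Finset.range n, p j = 1) ∧ ∀ a : N, c * a = a * c → ∀ j, p j * a = a * p j := by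
  have hn0 : n ≠ 0 := by omega
  have hnc : (n : ℂ) ≠ 0 := Nat.cast_ne_zero.2 hn0
  obtain ⟨ω, hω⟩ : ∃ ω : ℂ, IsPrimitiveRoot ω n := ⟨_, Complex.isPrimitiveRoot_exp n hn0⟩
  have hω1 : ω ^ n = 1 := hω.pow_eq_one
  have hωn : ‖ω‖ = 1 := Complex.norm_eq_one_of_pow_eq_one hω1 hn0
  have hω0 : ω ≠ 0 := by
    intro h0
    rw [h0, norm_zero] at hωn
    exact zero_ne_one hωn
  have hwu : ∀ j : ℕ, ω ^ j • c ∈ unitary N := by
    intro j
    have hj : ‖ω ^ j‖ = 1 := by rw [norm_pow, hωn, one_pow]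
    have hcj : star (ω ^ j) * ω ^ j = 1 := by
      rw [Complex.star_def, ← Complex.normSq_eq_conj_mul_self, Complex.normSq_eq_norm_sq, hj]
      simp
    rw [Unitary.mem_iff]
    constructor
    · rw [star_smul, smul_mul_smul_comm, Unitary.star_mul_self_of_mem hc, hcj, one_smul]
    · rw [star_smul, smul_mul_smul_comm, Unitary.mul_star_self_of_mem hc, mul_comm, hcj, one_smul]
  have hwn : ∀ j : ℕ, (ω ^ j • c) ^ n = 1 := by
    intro j
    rw [smul_pow, hcn, ← pow_mul, mul_comm j n, pow_mul, hω1, one_pow, one_smul]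
  have key := fun j => hd_P (hwu j) hn (hwn j)
  obtain ⟨p, hp⟩ : ∃ p : ℕ → N, ∀ j, p j = ((n : ℂ)⁻¹) • ∑ k ∈ Finset.range n, (ω ^ j • c) ^ k :=
    ⟨_, fun _ => rfl⟩
  have hcomm : ∀ a : N, c * a = a * c → ∀ j, p j * a = a * p j := by
    intro a ha j
    rw [hp j, smul_mul_assoc, mul_smul_comm, Finset.sum_mul, Finset.mul_sum]
    congr 1
    refine Finset.sum_congr rfl fun k _ => ?_
    have h1 : Commute (ω ^ j • c) a := by
      rw [commute_iff_eq, smul_mul_assoc, mul_smul_comm, ha]
    exact (h1.pow_left k).eq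
  have hlp : ∀ j, c * p j = (ω ^ j)⁻¹ • p j := by
    intro j
    have h1 := (key j).1
    rw [← hp j, smul_mul_assoc] at h1
    have h2 : c * p j = (ω ^ j)⁻¹ • (ω ^ j • (c * p j)) := by
      rw [smul_smul, inv_mul_cancel₀ (pow_ne_zero j hω0), one_smul]
    rw [h1] at h2
    exact h2
  have hpl : ∀ j, p j * c = (ω ^ j)⁻¹ • p j := by
    intro j
    rw [hcomm c rfl j, hlp j]
  refine ⟨p, fun j => (ω ^ j)⁻¹, ?_, hlp, hpl, ?_, ?_, hcomm⟩
  · intro j
    rw [hp j]
    exact (key j).2
  · intro i hi j hj hij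
    have h1 : p i * (c * p j) = (ω ^ j)⁻¹ • (p i * p j) := by rw [hlp j, mul_smul_comm]
    have h2 : p i * (c * p j) = (ω ^ i)⁻¹ • (p i * p j) := by
      rw [← mul_assoc, hpl i, smul_mul_assoc]
    have h3 : ((ω ^ j)⁻¹ - (ω ^ i)⁻¹) • (p i * p j) = 0 := by
      rw [sub_smul, ← h1, ← h2, sub_self]
    rcases smul_eq_zero.1 h3 with h4 | h4
    · exfalso
      rw [sub_eq_zero, inv_inj] at h4
      exact hij (hω.pow_inj hi hj h4.symm)
    · exact h4
  · have e1 : ∑ j ∈ Finset.range n, p j =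
        ((n : ℂ)⁻¹) • ∑ k ∈ Finset.range n, (∑ j ∈ Finset.range n, (ω ^ k) ^ j) • c ^ k := by
      rw [Finset.sum_congr rfl fun j _ => hp j, ← Finset.smul_sum]
      congr 1
      rw [Finset.sum_comm]
      refine Finset.sum_congr rfl fun k _ => ?_
      rw [Finset.sum_smul]
      refine Finset.sum_congr rfl fun j _ => ?_
      rw [smul_pow, ← pow_mul, ← pow_mul, mul_comm j k]
    have e2 : ∀ k ∈ Finset.range n, (∑ j ∈ Finset.range n, (ω ^ k) ^ j) • c ^ k =
        if k = 0 then (n : ℂ) • (1 : N) else 0 := by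
      intro k hk
      by_cases h0 : k = 0
      · subst h0
        simp
      · rw [if_neg h0]
        have h5 : ω ^ k ≠ 1 := hω.pow_ne_one_of_pos_of_lt h0 (Finset.mem_range.1 hk)
        have h6 : (∑ j ∈ Finset.range n, (ω ^ k) ^ j) = 0 := by
          have h7 := mul_geom_sum (ω ^ k) n
          rw [← pow_mul, mul_comm k n, pow_mul, hω1, one_pow, sub_self] at h7
          rcases mul_eq_zero.1 h7 with h8 | h8
          · exact absurd (sub_eq_zero.1 h8) h5
          · exact h8
        rw [h6, zero_smul]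
    rw [e1, Finset.sum_congr rfl e2, Finset.sum_ite_eq' , if_pos (Finset.mem_range.2 (by omega)),
      smul_smul, inv_mul_cancel₀ hnc, one_smul]

/-- a Haar unitary commuting with `u` and `c` and independent of `c` -/
private lemma hd_g (h : IsTr τ) {u : N} (hu : u ∈ Haar τ) (n : ℕ) (hn : 1 ≤ n) {c : N}
    (hc : c ∈ unitary N) (hcn : c ^ n = 1) (hcu : c * u = u * c) :
    ∃ g ∈ unitary N, c * g = g * c ∧ u * g = g * u ∧ ∀ k m : ℕ, 1 ≤ m → τ (c ^ k * g ^ m) = 0 := by
  obtain ⟨p, l, hpp, hcp, hpc, hort, hsum, hcomm⟩ := hd_spectral hc hn hcn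
  choose y hyu hpy hyp hyy hyy' hyt using fun j => haar_corner h hu (hpp j) (hcomm u hcu j)
  have hys : ∀ j, star (y j) * p j = star (y j) := by
    intro j
    have := congrArg star (hpy j)
    rwa [star_mul, (hpp j).1] at this
  have hys' : ∀ j, p j * star (y j) = star (y j) := by
    intro j
    have := congrArg star (hyp j)
    rwa [star_mul, (hpp j).1] at this
  have hcy : ∀ j, c * y j = l j • y j := by
    intro j
    calc c * y j = c * (p j * y j) := by rw [hpy j]
      _ = (c * p j) * y j := by rw [mul_assoc]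
      _ = l j • y j := by rw [hcp j, smul_mul_assoc, hpy j]
  have hyc : ∀ j, y j * c = l j • y j := by
    intro j
    calc y j * c = (y j * p j) * c := by rw [hyp j]
      _ = y j * (p j * c) := by rw [mul_assoc]
      _ = l j • y j := by rw [hpc j, mul_smul_comm, hyp j]
  have hcky : ∀ (k : ℕ) (j : ℕ), c ^ k * y j = l j ^ k • y j := by
    intro k j
    induction k with
    | zero => rw [pow_zero, pow_zero, one_mul, one_smul]
    | succ k ih => rw [pow_succ, mul_assoc, hcy j, mul_smul_comm, ih, smul_smul, pow_succ, mul_comm (l j)]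
  have hyiyj : ∀ i < n, ∀ j < n, i ≠ j → y i * y j = 0 := by
    intro i hi j hj hij
    calc y i * y j = (y i * p i) * (p j * y j) := by rw [hyp i, hpy j]
      _ = y i * (p i * p j) * y j := by noncomm_ring
      _ = 0 := by rw [hort i hi j hj hij]; simp
  have hpow : ∀ m : ℕ, 1 ≤ m → (∑ j ∈ Finset.range n, y j) ^ m = ∑ j ∈ Finset.range n, y j ^ m := by
    intro m hm
    induction m, hm using Nat.le_induction with
    | base => simp
    | succ m hm ih =>
      rw [pow_succ, ih]
      apply hd_sum_mul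
      intro i hi j hj
      by_cases hij : i = j
      · rw [if_pos hij, hij, pow_succ]
      · rw [if_neg hij]
        obtain ⟨m', rfl⟩ : ∃ m', m = m' + 1 := ⟨m - 1, by omega⟩
        rw [pow_succ, mul_assoc, hyiyj i hi j hj hij, mul_zero]
  refine ⟨∑ j ∈ Finset.range n, y j, ?_, ?_, ?_, ?_⟩
  · rw [Unitary.mem_iff, star_sum]
    constructor
    · rw [← hsum]
      apply hd_sum_mul
      intro i hi j hj
      by_cases hij : i = j
      · rw [if_pos hij, ← hij, hyy i]
      · rw [if_neg hij]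
        calc star (y i) * y j = (star (y i) * p i) * (p j * y j) := by rw [hys i, hpy j]
          _ = star (y i) * (p i * p j) * y j := by noncomm_ring
          _ = 0 := by rw [hort i hi j hj hij]; simp
    · rw [← hsum]
      apply hd_sum_mul
      intro i hi j hj
      by_cases hij : i = j
      · rw [if_pos hij, ← hij, hyy' i]
      · rw [if_neg hij]
        calc y i * star (y j) = (y i * p i) * (p j * star (y j)) := by rw [hyp i, hys' j]
          _ = y i * (p i * p j) * star (y j) := by noncomm_ring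
          _ = 0 := by rw [hort i hi j hj hij]; simp
  · rw [Finset.mul_sum, Finset.sum_mul]
    refine Finset.sum_congr rfl fun j _ => ?_
    rw [hcy j, hyc j]
  · rw [Finset.mul_sum, Finset.sum_mul]
    exact Finset.sum_congr rfl fun j _ => (hyu j).symm
  · intro k m hm
    rw [hpow m hm, Finset.mul_sum, map_sum]
    refine Finset.sum_eq_zero fun j _ => ?_
    have e : c ^ k * y j ^ m = l j ^ k • y j ^ m := by
      obtain ⟨m', rfl⟩ : ∃ m', m = m' + 1 := ⟨m - 1, by omega⟩
      rw [pow_succ' (y j), ← mul_assoc, hcky k j, smul_mul_assoc]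
    rw [e, map_smul, hyt j m hm, smul_zero]

theorem haar_near (h : IsTr τ) {u : N} (hu : u ∈ Haar τ) (n : ℕ) (hn : 1 ≤ n) {c : N}
    (hc : c ∈ unitary N) (hcn : c ^ n = 1) (hc0 : ∀ k : ℕ, 0 < k → k < n → τ (c ^ k) = 0)
    (hcu : c * u = u * c) :
    ∃ b ∈ Haar τ, b * u = u * b ∧ n2 τ (b - c) ≤ 4 / n := by
  obtain ⟨g, hg, hcg, hug, hgt⟩ := hd_g h hu n hn hc hcn hcu
  have hgH : g ∈ Haar τ := by
    refine ⟨hg, fun m hm => ?_⟩
    have := hgt 0 m hm
    rwa [pow_zero, one_mul] at this
  obtain ⟨A, hA, hAn, hAe, hAc, hAB⟩ := haar_log2 h hgH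
  have hcA : c * A = A * c := hAc c hcg
  have huA : u * A = A * u := hAc u hug
  have hn0 : (0 : ℝ) < n := Nat.cast_pos.2 hn
  have hnc : (n : ℂ) ≠ 0 := Nat.cast_ne_zero.2 (Nat.pos_iff_ne_zero.1 hn)
  let _ : NormedAlgebra ℚ N := NormedAlgebra.restrictScalars ℚ ℂ N
  have hcst : ∀ k : ℕ, star ((k : ℂ) * (Complex.I / n)) = -((k : ℂ) * (Complex.I / n)) := by
    intro k
    simp [Complex.conj_I, neg_div]
  have hcn' : ∀ k : ℕ, ‖(k : ℂ) * (Complex.I / n)‖ = (k : ℝ) / n := by
    intro k
    rw [norm_mul, norm_div, Complex.norm_I, Complex.norm_natCast, Complex.norm_natCast]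
    ring
  have hpw : ∀ k : ℕ, NormedSpace.exp ((((1 : ℕ) : ℂ) * (Complex.I / n)) • A) ^ k
      = NormedSpace.exp (((k : ℂ) * (Complex.I / n)) • A) := by
    intro k
    rw [← NormedSpace.exp_nsmul, ← Nat.cast_smul_eq_nsmul ℂ, smul_smul]
    congr 2
    push_cast
    ring
  have hE : NormedSpace.exp ((((1 : ℕ) : ℂ) * (Complex.I / n)) • A) ∈ unitary N :=
    exp_skew_unitary (hd_skew hA (hcst 1))
  have hcE : Commute c (NormedSpace.exp ((((1 : ℕ) : ℂ) * (Complex.I / n)) • A)) := by
    apply Commute.exp_right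
    exact (commute_iff_eq _ _).2 (by rw [mul_smul_comm, smul_mul_assoc, hcA])
  have huE : Commute u (NormedSpace.exp ((((1 : ℕ) : ℂ) * (Complex.I / n)) • A)) := by
    apply Commute.exp_right
    exact (commute_iff_eq _ _).2 (by rw [mul_smul_comm, smul_mul_assoc, huA])
  -- the trace of `c^k a`
  have hstc : ∀ k : ℕ, star c ^ k = c ^ ((n - 1) * k) := by
    intro k
    have h1 : star c = c ^ (n - 1) := by
      have h2 : c ^ (n - 1) * c = 1 := by rw [← pow_succ, Nat.sub_add_cancel hn, hcn]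
      calc star c = 1 * star c := (one_mul _).symm
        _ = (c ^ (n - 1) * c) * star c := by rw [h2]
        _ = c ^ (n - 1) := by rw [mul_assoc, Unitary.mul_star_self_of_mem hc, mul_one]
    rw [h1, ← pow_mul]
  have hel : ∀ k : ℕ, 0 < k → k < n → ∀ a ∈ StarAlgebra.elemental ℂ g, τ (c ^ k * a) = 0 := by
    intro k hk hkn a ha
    refine hd_elemental h hg ?_ ?_ a ha
    · intro m
      rcases Nat.eq_zero_or_pos m with h0 | h0
      · subst h0
        rw [pow_zero, mul_one]
        exact hc0 k hk hkn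
      · exact hgt k m h0
    · intro m
      have e1 : c ^ k * star (g ^ m) = star (g ^ m * star c ^ k) := by
        rw [star_mul, star_pow (star c), star_star]
      rw [e1, tau_star h, hstc k, h.tracial]
      rcases Nat.eq_zero_or_pos m with h0 | h0
      · subst h0
        rw [pow_zero, mul_one, ← hstc k]
        have e2 : star c ^ k = star (c ^ k) := by rw [star_pow]
        rw [e2, tau_star h, hc0 k hk hkn]
        simp
      · rw [hgt _ m h0, map_zero]
  refine ⟨c * NormedSpace.exp ((((1 : ℕ) : ℂ) * (Complex.I / n)) • A), ⟨mul_mem hc hE, ?_⟩, ?_, ?_⟩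
  · intro m hm
    rw [hcE.mul_pow, hpw m]
    by_cases hd : n ∣ m
    · obtain ⟨q, rfl⟩ := hd
      have hq : 1 ≤ q := by
        rcases Nat.eq_zero_or_pos q with h0 | h0
        · subst h0; omega
        · exact h0
      have e : (((n * q : ℕ) : ℂ) * (Complex.I / n)) • A = q • (Complex.I • A) := by
        rw [← Nat.cast_smul_eq_nsmul ℂ, smul_smul]
        congr 1
        push_cast
        field_simp
      rw [pow_mul, hcn, one_pow, one_mul, e, NormedSpace.exp_nsmul, hAe]
      exact hgH.2 q hq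
    · have hm' : c ^ m = c ^ (m % n) := by
        conv_lhs => rw [← Nat.div_add_mod m n]
        rw [pow_add, pow_mul, hcn, one_pow, one_mul]
      have hk0 : 0 < m % n := Nat.pos_of_ne_zero fun h0 => hd (Nat.dvd_of_mod_eq_zero h0)
      have hkn : m % n < n := Nat.mod_lt _ hn
      rw [hm']
      have h1 : ‖τ (c ^ (m % n) * NormedSpace.exp (((m : ℂ) * (Complex.I / n)) • A))‖ = 0 := by
        refine eq_zero_of_small (c := m / n) (norm_nonneg _)
          (by have : (0 : ℝ) < m := Nat.cast_pos.2 hm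
              positivity) fun ε hε => ?_
        obtain ⟨B, hB1, hB2, hB3⟩ := hAB ε hε
        have h2 : τ (c ^ (m % n) * NormedSpace.exp (((m : ℂ) * (Complex.I / n)) • B)) = 0 :=
          hel _ hk0 hkn _ (hd_exp_mem hB1 _)
        have e : τ (c ^ (m % n) * NormedSpace.exp (((m : ℂ) * (Complex.I / n)) • A))
            = τ (c ^ (m % n) * (NormedSpace.exp (((m : ℂ) * (Complex.I / n)) • A)
              - NormedSpace.exp (((m : ℂ) * (Complex.I / n)) • B))) := by
          rw [mul_sub, map_sub, h2, sub_zero]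
        rw [e]
        refine (tau_le_n2 h _).trans ?_
        rw [n2_unitary_left (pow_mem hc _)]
        refine (exp_lip h (hd_skew hA (hcst m)) (hd_skew hB2 (hcst m))).trans ?_
        rw [← smul_sub, n2_smul h, hcn' m]
        have h3 : (0 : ℝ) ≤ (m : ℝ) / n := by positivity
        calc (m : ℝ) / n * n2 τ (A - B) ≤ (m : ℝ) / n * ε :=
              mul_le_mul_of_nonneg_left hB3.le h3
          _ = ε * (m / n) := by ring
      exact norm_eq_zero.1 h1
  · rw [mul_assoc, ← huE.eq, ← mul_assoc, hcu, mul_assoc]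
  · have e : c * NormedSpace.exp ((((1 : ℕ) : ℂ) * (Complex.I / n)) • A) - c
        = c * (NormedSpace.exp ((((1 : ℕ) : ℂ) * (Complex.I / n)) • A)
          - NormedSpace.exp (0 : N)) := by
      rw [NormedSpace.exp_zero, mul_sub, mul_one]
    rw [e, n2_unitary_left hc]
    have h0 : star (0 : N) = -0 := by rw [star_zero, neg_zero]
    refine (exp_lip h (hd_skew hA (hcst 1)) h0).trans ?_
    rw [sub_zero, n2_smul h, hcn' 1]
    have h1 := n2_le_norm h A
    have h2 : n2 τ A ≤ 4 := h1.trans (hAn.trans Real.pi_le_four)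
    rw [Nat.cast_one]
    calc (1 : ℝ) / n * n2 τ A ≤ 1 / n * 4 := mul_le_mul_of_nonneg_left h2 (by positivity)
      _ = 4 / n := by ring

end ST
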