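import Pool.Agent.H77.ST.Ha

/-!
# Hr: logarithm of a Haar unitary, and approximation by a unitary of finite order

`haar_log`: for a Haar unitary `v` put `A_k = cfc (targ (1/(k+1))) v`; by `targ_sub` and
`haar_bump` the sequence is Cauchy in the 2-norm, it is bounded by `π`; by `IsTr.complete`
(scaled) it has a 2-norm limit `A`, `‖A‖ ≤ π`, `A* = A` (`n2_star`).  By `targ_exp` and
`haar_bump`, `exp (I A_k) → v`, and `exp (I A_k) → exp (I A)` by `exp_lip`; so `exp (I A) = v`.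
`A_k` is in the elemental algebra of `v` (`cfc_mem_elemental` or similar).

`haar_fin`: let `v = u^n` (a Haar unitary), `A` from `haar_log`.  `A` commutes with `u` (2-norm limit
of elements of the elemental algebra of `u^n`, which commute with `u`; multiplication is 2-norm
continuous).  `u' = u exp (-(I/n) A)` is unitary, `u'^n = u^n exp (-I A) = 1`,
`‖u - u'‖ = ‖1 - exp (-(I/n) A)‖ ≤ ‖A‖/n ≤ π/n ≤ 4/n` (for skew `y`, `‖1 - exp y‖ ≤ ‖y‖`; for
example mean value inequality for `t ↦ exp (t y)`, whose derivative has norm `≤ ‖y‖`; or only for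
the 2-norm: `exp_lip` with `z = 0` and `n2_le_norm`).  For
`0 < k < n`: `u'^k = u^k exp (-(k I/n) A)`, and `exp (-(kI/n) A)` is the 2-norm limit of
`exp (-(kI/n) B)` (`exp_lip`) with `B` selfadjoint in the elemental algebra of `u^n`, which is in the
elemental algebra (closed subalgebra); so `τ(u'^k) = 0` by `tau_pow_elemental` and `tau_le_n2`.
-/

open Filter Topology

namespace ST

open SC

variable {N : Type*} [CStarAlgebra N] {τ : N →ₗ[ℂ] ℂ}

/-- the truncated logarithms converge in the 2-norm -/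
private theorem hr_lim (h : IsTr τ) {v : N} (hv : v ∈ Haar τ) :
    ∃ A : N, ‖A‖ ≤ Real.pi ∧ ∀ ε : ℝ, 0 < ε → ∃ δ : ℝ, 0 < δ ∧
      n2 τ (A - cfc (targ δ) v) < ε ∧ n2 τ (v - NormedSpace.exp (Complex.I • cfc (targ δ) v)) < ε := by
  have hvu : v ∈ unitary N := hv.1
  have hpi := Real.pi_pos
  -- the parameters
  have hd : ∀ k : ℕ, (0 : ℝ) < 1 / ((k : ℝ) + 1) := fun k => by positivity
  have hdle : ∀ k l : ℕ, k ≤ l → (1 : ℝ) / ((l : ℝ) + 1) ≤ 1 / ((k : ℝ) + 1) := by
    intro k l hkl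
    have hkl' : (k : ℝ) ≤ l := Nat.cast_le.2 hkl
    exact one_div_le_one_div_of_le (by positivity) (by linarith)
  -- smallness of the trace of the bumps
  have hsm : ∀ ε : ℝ, 0 < ε → ∃ K : ℕ, ∀ k ≥ K,
      (τ (cfc (bump (1 / ((k : ℝ) + 1))) v)).re ≤ ε := by
    intro ε hε
    obtain ⟨δ₀, hδ₀, hb⟩ := haar_bump h ε hε
    obtain ⟨K, hK⟩ := exists_nat_one_div_lt hδ₀
    refine ⟨K, fun k hk => hb _ (hd k) ?_ v hv⟩
    exact (hdle K k hk).trans hK.le
  -- distances
  have hdist : ∀ k l : ℕ, k ≤ l →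
      n2 τ (cfc (targ (1 / ((k : ℝ) + 1))) v - cfc (targ (1 / ((l : ℝ) + 1))) v) ^ 2 ≤
        Real.pi ^ 2 * (τ (cfc (bump (1 / ((k : ℝ) + 1))) v)).re := by
    intro k l hkl
    exact targ_sub h hvu (hd l) (hdle k l hkl)
  have hcau : ∀ ε : ℝ, 0 < ε → ∃ K : ℕ, ∀ k ≥ K, ∀ l ≥ K,
      n2 τ (cfc (targ (1 / ((k : ℝ) + 1))) v - cfc (targ (1 / ((l : ℝ) + 1))) v) < ε := by
    intro ε hε
    obtain ⟨K, hK⟩ := hsm ((ε / (2 * Real.pi)) ^ 2) (by positivity)
    have hone : ∀ k l : ℕ, K ≤ k → k ≤ l →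
        n2 τ (cfc (targ (1 / ((k : ℝ) + 1))) v - cfc (targ (1 / ((l : ℝ) + 1))) v) < ε := by
      intro k l hk hkl
      have h1 := hdist k l hkl
      have h2 : Real.pi ^ 2 * (τ (cfc (bump (1 / ((k : ℝ) + 1))) v)).re
          ≤ Real.pi ^ 2 * (ε / (2 * Real.pi)) ^ 2 :=
        mul_le_mul_of_nonneg_left (hK k hk) (by positivity)
      have h3 : Real.pi ^ 2 * (ε / (2 * Real.pi)) ^ 2 = (ε / 2) ^ 2 := by
        field_simp
      have h4 := abs_le_of_sq_le_sq (h1.trans (h2.trans h3.le)) (by positivity)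
      have h5 := (le_abs_self _).trans h4
      linarith
    refine ⟨K, fun k hk l hl => ?_⟩
    rcases le_total k l with hkl | hkl
    · exact hone k l hk hkl
    · rw [n2_sub_comm]
      exact hone l k hl hkl
  -- the rescaled sequence
  have hc0 : ‖((1 / Real.pi : ℝ) : ℂ)‖ = 1 / Real.pi := by
    rw [Complex.norm_real, Real.norm_eq_abs, abs_of_nonneg (by positivity)]
  obtain ⟨y, hy1, hy2⟩ := h.complete
    (fun k => ((1 / Real.pi : ℝ) : ℂ) • cfc (targ (1 / ((k : ℝ) + 1))) v)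
    (by
      intro k
      rw [norm_smul, hc0]
      have h1 := targ_norm hvu (hd k)
      calc 1 / Real.pi * ‖cfc (targ (1 / ((k : ℝ) + 1))) v‖ ≤ 1 / Real.pi * Real.pi :=
            mul_le_mul_of_nonneg_left h1 (by positivity)
        _ = 1 := by field_simp)
    (by
      intro ε hε
      obtain ⟨K, hK⟩ := hcau (ε * Real.pi) (by positivity)
      refine ⟨K, fun k hk l hl => ?_⟩
      rw [← smul_sub, n2_smul h, hc0]
      have h1 := hK k hk l hl
      calc 1 / Real.pi * n2 τ (cfc (targ (1 / ((k : ℝ) + 1))) v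
              - cfc (targ (1 / ((l : ℝ) + 1))) v)
            < 1 / Real.pi * (ε * Real.pi) := mul_lt_mul_of_pos_left h1 (by positivity)
        _ = ε := by field_simp)
  have hc1 : ‖(Real.pi : ℂ)‖ = Real.pi := by
    rw [Complex.norm_real, Real.norm_eq_abs, abs_of_nonneg hpi.le]
  refine ⟨(Real.pi : ℂ) • y, ?_, ?_⟩
  · rw [norm_smul, hc1]
    calc Real.pi * ‖y‖ ≤ Real.pi * 1 := mul_le_mul_of_nonneg_left hy1 hpi.le
      _ = Real.pi := mul_one _
  · intro ε hε
    have h1 := (Metric.tendsto_atTop.1 hy2) (ε / Real.pi) (by positivity)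
    obtain ⟨K1, hK1⟩ := h1
    obtain ⟨K2, hK2⟩ := hsm ((ε / 4) ^ 2) (by positivity)
    have hk1 := hK1 (max K1 K2) (le_max_left _ _)
    have hk2 := hK2 (max K1 K2) (le_max_right _ _)
    refine ⟨1 / (((max K1 K2 : ℕ) : ℝ) + 1), hd _, ?_, ?_⟩
    · rw [Real.dist_eq, sub_zero, abs_of_nonneg (n2_nonneg _)] at hk1
      have e : (Real.pi : ℂ) • y - cfc (targ (1 / (((max K1 K2 : ℕ) : ℝ) + 1))) v
          = (Real.pi : ℂ) • (y - ((1 / Real.pi : ℝ) : ℂ) •
            cfc (targ (1 / (((max K1 K2 : ℕ) : ℝ) + 1))) v) := by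
        rw [smul_sub, smul_smul]
        have e1 : (Real.pi : ℂ) * ((1 / Real.pi : ℝ) : ℂ) = 1 := by
          rw [← Complex.ofReal_mul, mul_one_div_cancel hpi.ne', Complex.ofReal_one]
        rw [e1, one_smul]
      rw [e, n2_smul h, hc1, n2_sub_comm]
      calc Real.pi * n2 τ (((1 / Real.pi : ℝ) : ℂ) •
              cfc (targ (1 / (((max K1 K2 : ℕ) : ℝ) + 1))) v - y)
            < Real.pi * (ε / Real.pi) := mul_lt_mul_of_pos_left hk1 hpi
        _ = ε := by field_simp
    · have h2 := targ_exp h hvu (hd (max K1 K2))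
      have h3 : n2 τ (v - NormedSpace.exp (Complex.I •
          cfc (targ (1 / (((max K1 K2 : ℕ) : ℝ) + 1))) v)) ^ 2 ≤ (ε / 2) ^ 2 := by
        refine h2.trans ?_
        nlinarith [hk2]
      have h4 := (le_abs_self _).trans (abs_le_of_sq_le_sq h3 (by positivity))
      linarith

private lemma hr_skew {A : N} (hA : star A = A) {c : ℂ} (hc : star c = -c) :
    star (c • A) = -(c • A) := by
  rw [star_smul, hA, hc, neg_smul]

private lemma hr_starI : star (Complex.I) = -Complex.I := Complex.conj_I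

theorem haar_log (h : IsTr τ) {v : N} (hv : v ∈ Haar τ) :
    ∃ A : N, star A = A ∧ ‖A‖ ≤ Real.pi ∧ NormedSpace.exp (Complex.I • A) = v ∧
      ∀ ε : ℝ, 0 < ε → ∃ B ∈ StarAlgebra.elemental ℂ v, star B = B ∧ n2 τ (A - B) < ε := by
  obtain ⟨A, hA1, hA2⟩ := hr_lim h hv
  have hvu : v ∈ unitary N := hv.1
  have hvn : IsStarNormal v := ⟨by
    rw [commute_iff_eq, Unitary.star_mul_self_of_mem hvu, Unitary.mul_star_self_of_mem hvu]⟩
  have hsa : star A = A := by
    have h1 : n2 τ (star A - A) = 0 := by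
      refine eq_zero_of_small (c := 2) (n2_nonneg _) (by norm_num) fun ε hε => ?_
      obtain ⟨δ, hδ, h2, -⟩ := hA2 ε hε
      have h3 : n2 τ (star A - cfc (targ δ) v) < ε := by
        have e : star A - cfc (targ δ) v = star (A - cfc (targ δ) v) := by
          rw [star_sub, targ_sa hvu hδ]
        rw [e, n2_star h]
        exact h2
      have h4 := n2_sub_le h (star A) (cfc (targ δ) v) A
      rw [n2_sub_comm (cfc (targ δ) v) A] at h4
      linarith
    exact sub_eq_zero.1 (n2_eq_zero h h1)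
  refine ⟨A, hsa, hA1, ?_, ?_⟩
  · have h1 : n2 τ (NormedSpace.exp (Complex.I • A) - v) = 0 := by
      refine eq_zero_of_small (c := 2) (n2_nonneg _) (by norm_num) fun ε hε => ?_
      obtain ⟨δ, hδ, h2, h3⟩ := hA2 ε hε
      have h4 := exp_lip h (hr_skew hsa hr_starI) (hr_skew (targ_sa hvu hδ) hr_starI)
      rw [← smul_sub, n2_smul h, Complex.norm_I, one_mul] at h4
      have h5 := n2_sub_le h (NormedSpace.exp (Complex.I • A))
        (NormedSpace.exp (Complex.I • cfc (targ δ) v)) v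
      rw [n2_sub_comm (NormedSpace.exp (Complex.I • cfc (targ δ) v)) v] at h5
      linarith
    exact sub_eq_zero.1 (n2_eq_zero h h1)
  · intro ε hε
    obtain ⟨δ, hδ, h2, -⟩ := hA2 ε hε
    exact ⟨cfc (targ δ) v, cfc_mem_elemental _ _, targ_sa hvu hδ, h2⟩

private lemma hr_exp_mem {w B : N} (hB : B ∈ StarAlgebra.elemental ℂ w) (c : ℂ) :
    NormedSpace.exp (c • B) ∈ StarAlgebra.elemental ℂ w := by
  rw [NormedSpace.exp_eq_tsum ℂ]
  refine tsum_mem (StarAlgebra.elemental.isClosed ℂ w) fun i => ?_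
  exact SMulMemClass.smul_mem _ (pow_mem (SMulMemClass.smul_mem _ hB) i)

private lemma hr_comm {u B : N} (hu : u ∈ unitary N) {n : ℕ}
    (hB : B ∈ StarAlgebra.elemental ℂ (u ^ n)) : u * B = B * u := by
  have h1 := StarAlgebra.elemental.le_centralizer_centralizer (R := ℂ) (u ^ n) hB
  rw [StarSubalgebra.mem_centralizer_iff] at h1
  have hc : Commute (star u) u := by
    rw [commute_iff_eq, Unitary.star_mul_self_of_mem hu, Unitary.mul_star_self_of_mem hu]
  have h2 : u ∈ StarSubalgebra.centralizer ℂ {u ^ n} := by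
    rw [StarSubalgebra.mem_centralizer_iff]
    intro g hg
    rw [Set.mem_singleton_iff] at hg
    subst hg
    refine ⟨((Commute.refl u).pow_left n).eq, ?_⟩
    rw [star_pow]
    exact (hc.pow_left n).eq
  exact (h1 u h2).1

theorem haar_fin (h : IsTr τ) {u : N} (hu : u ∈ Haar τ) (n : ℕ) (hn : 1 ≤ n) :
    ∃ u' ∈ unitary N, u' ^ n = 1 ∧ (∀ k : ℕ, 0 < k → k < n → τ (u' ^ k) = 0) ∧
      n2 τ (u - u') ≤ 4 / n := by
  have huu : u ∈ unitary N := hu.1
  have hv : u ^ n ∈ Haar τ := by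
    refine ⟨pow_mem huu n, fun m hm => ?_⟩
    rw [← pow_mul]
    exact hu.2 _ (Nat.mul_pos hn hm)
  obtain ⟨A, hA, hAn, hAe, hAB⟩ := haar_log h hv
  -- `A` commutes with `u`
  have hcom : u * A = A * u := by
    have h1 : n2 τ (u * A - A * u) = 0 := by
      refine eq_zero_of_small (c := 2) (n2_nonneg _) (by norm_num) fun ε hε => ?_
      obtain ⟨B, hB1, -, hB3⟩ := hAB ε hε
      have e : u * A - A * u = u * (A - B) + (B - A) * u := by
        have e1 := hr_comm huu hB1
        rw [mul_sub, sub_mul, e1]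
        abel
      rw [e]
      have h2 := n2_add_le h (u * (A - B)) ((B - A) * u)
      rw [n2_unitary_left huu, n2_unitary_right h huu, n2_sub_comm B A] at h2
      linarith
    exact sub_eq_zero.1 (n2_eq_zero h h1)
  have hn0 : (0 : ℝ) < n := Nat.cast_pos.2 hn
  have hnc : (n : ℂ) ≠ 0 := Nat.cast_ne_zero.2 (Nat.pos_iff_ne_zero.1 hn)
  let _ : NormedAlgebra ℚ N := NormedAlgebra.restrictScalars ℚ ℂ N
  have hcst : ∀ k : ℕ, star (-((k : ℂ) * (Complex.I / n))) = -(-((k : ℂ) * (Complex.I / n))) := by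
    intro k
    simp [Complex.conj_I, neg_div]
  have hcn : ∀ k : ℕ, ‖-((k : ℂ) * (Complex.I / n))‖ = (k : ℝ) / n := by
    intro k
    rw [norm_neg, norm_mul, norm_div, Complex.norm_I, Complex.norm_natCast, Complex.norm_natCast]
    ring
  have hpw : ∀ k : ℕ, NormedSpace.exp ((-((1 : ℕ) * (Complex.I / n)) : ℂ) • A) ^ k
      = NormedSpace.exp ((-((k : ℂ) * (Complex.I / n)) : ℂ) • A) := by
    intro k
    rw [← NormedSpace.exp_nsmul, ← Nat.cast_smul_eq_nsmul ℂ, smul_smul]
    congr 2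
    push_cast
    ring
  have hE : NormedSpace.exp ((-((1 : ℕ) * (Complex.I / n)) : ℂ) • A) ∈ unitary N :=
    exp_skew_unitary (hr_skew hA (hcst 1))
  have hcE : Commute u (NormedSpace.exp ((-((1 : ℕ) * (Complex.I / n)) : ℂ) • A)) := by
    apply Commute.exp_right
    exact (commute_iff_eq _ _).2 (by rw [mul_smul_comm, smul_mul_assoc, hcom])
  refine ⟨u * NormedSpace.exp ((-((1 : ℕ) * (Complex.I / n)) : ℂ) • A), mul_mem huu hE, ?_, ?_, ?_⟩
  · rw [hcE.mul_pow, hpw n]
    have e : (-((n : ℂ) * (Complex.I / n)) : ℂ) • A = -(Complex.I • A) := by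
      rw [mul_div_cancel₀ _ hnc, neg_smul]
    rw [e, ← hAe, ← NormedSpace.exp_add_of_commute (Commute.refl (Complex.I • A)).neg_right,
      add_neg_cancel, NormedSpace.exp_zero]
  · intro k hk hkn
    rw [hcE.mul_pow, hpw k]
    have h1 : ‖τ (u ^ k * NormedSpace.exp ((-((k : ℂ) * (Complex.I / n)) : ℂ) • A))‖ = 0 := by
      refine eq_zero_of_small (c := 1) (norm_nonneg _) (by norm_num) fun ε hε => ?_
      obtain ⟨B, hB1, hB2, hB3⟩ := hAB ε hε
      have h2 : τ (u ^ k * NormedSpace.exp ((-((k : ℂ) * (Complex.I / n)) : ℂ) • B)) = 0 :=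
        tau_pow_elemental h hu hk hkn _ (hr_exp_mem hB1 _)
      have e : τ (u ^ k * NormedSpace.exp ((-((k : ℂ) * (Complex.I / n)) : ℂ) • A))
          = τ (u ^ k * (NormedSpace.exp ((-((k : ℂ) * (Complex.I / n)) : ℂ) • A)
            - NormedSpace.exp ((-((k : ℂ) * (Complex.I / n)) : ℂ) • B))) := by
        rw [mul_sub, map_sub, h2, sub_zero]
      rw [e]
      refine (tau_le_n2 h _).trans ?_
      rw [n2_unitary_left (pow_mem huu k)]
      refine (exp_lip h (hr_skew hA (hcst k)) (hr_skew hB2 (hcst k))).trans ?_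
      rw [← smul_sub, n2_smul h, hcn k]
      have h3 : (k : ℝ) / n ≤ 1 := by
        rw [div_le_one hn0]
        exact Nat.cast_le.2 hkn.le
      calc (k : ℝ) / n * n2 τ (A - B) ≤ 1 * n2 τ (A - B) :=
            mul_le_mul_of_nonneg_right h3 (n2_nonneg _)
        _ ≤ ε * 1 := by linarith
    exact norm_eq_zero.1 h1
  · have e : u - u * NormedSpace.exp ((-((1 : ℕ) * (Complex.I / n)) : ℂ) • A)
        = u * (NormedSpace.exp (0 : N)
          - NormedSpace.exp ((-((1 : ℕ) * (Complex.I / n)) : ℂ) • A)) := by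
      rw [NormedSpace.exp_zero, mul_sub, mul_one]
    rw [e, n2_unitary_left huu]
    have h0 : star (0 : N) = -0 := by rw [star_zero, neg_zero]
    refine (exp_lip h h0 (hr_skew hA (hcst 1))).trans ?_
    rw [zero_sub, n2_neg, n2_smul h, hcn 1]
    have h1 := n2_le_norm h A
    have h2 : n2 τ A ≤ 4 := h1.trans (hAn.trans Real.pi_le_four)
    rw [Nat.cast_one]
    calc (1 : ℝ) / n * n2 τ A ≤ 1 / n * 4 := mul_le_mul_of_nonneg_left h2 (by positivity)
      _ = 4 / n := by ring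

end ST
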