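import Pool.Agent.H77.ST.Tr

/-!
# L1: the Lie algebra of a closed group of unitaries

`lie_add`: for real `t`, apply `trotter` to `t y`, `t z`: the elements
`(exp (t y/(n+1)) exp (t z/(n+1)))^{n+1}` are in `Γ` and tend to `exp (t (y + z))` in norm, hence in
the 2-norm (`n2_le_norm`); `Γ` is closed.
`lie_smul`: `(t : ℂ) • (c : ℂ) • y = ((t c : ℝ) : ℂ) • y`.
`lie_closed`: if `y ∈ N` is a 2-norm limit of `z ∈ Lie Γ`, then `star y = -y`
(`‖y* + y‖₂ ≤ ‖y* - z*‖₂ + ‖z - y‖₂ = 2‖y - z‖₂`), and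
`‖exp (t y) - exp (t z)‖₂ ≤ |t| ‖y - z‖₂` (`exp_lip`).
`lie_conj`: `exp (t w y w*) = w exp (t y) w*` (`NormedSpace.exp_units_conj`).
`lie_bracket`: `(exp (t z) y exp (-t z) - y)/t ∈ Lie Γ` for real `t ≠ 0` (`lie_conj`, `lie_add`,
`lie_smul`; `exp (t z) ∈ Γ` has adjoint `exp (-t z)`), and it tends to `z y - y z` in norm as
`t → 0`.
-/

open Filter Topology

namespace ST

open SC

variable {N : Type*} [CStarAlgebra N] {τ : N →ₗ[ℂ] ℂ} {Γ : Set N}

private lemma star_real_smul (c : ℝ) {y : N} (hy : star y = -y) :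
    star ((c : ℂ) • y) = -((c : ℂ) • y) := by
  rw [star_smul, hy, smul_neg]
  have h : star (c : ℂ) = (c : ℂ) := by
    simp
  rw [h]

theorem lie_zero (hΓ : ClGroup τ Γ) : (0 : N) ∈ Lie Γ := by
  refine ⟨by simp, fun t => ?_⟩
  rw [smul_zero, NormedSpace.exp_zero]
  exact hΓ.one

private lemma pow_mem_grp (hΓ : ClGroup τ Γ) {w : N} (hw : w ∈ Γ) (n : ℕ) : w ^ n ∈ Γ := by
  induction n with
  | zero => rw [pow_zero]; exact hΓ.one
  | succ n ih => rw [pow_succ]; exact hΓ.mul _ ih _ hw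

theorem lie_smul (c : ℝ) {y : N} (hy : y ∈ Lie Γ) : (c : ℂ) • y ∈ Lie Γ := by
  refine ⟨star_real_smul c hy.1, fun t => ?_⟩
  rw [smul_smul, ← Complex.ofReal_mul]
  exact hy.2 _

theorem lie_add (h : IsTr τ) (hΓ : ClGroup τ Γ) {y z : N} (hy : y ∈ Lie Γ) (hz : z ∈ Lie Γ) :
    y + z ∈ Lie Γ := by
  refine ⟨by rw [star_add, hy.1, hz.1, neg_add], fun t => ?_⟩
  apply hΓ.closed
  intro ε hε
  have hT := trotter (star_real_smul t hy.1) (star_real_smul t hz.1)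
  rw [Metric.tendsto_atTop] at hT
  obtain ⟨n, hn⟩ := hT ε hε
  have hn' := hn n le_rfl
  have e : ∀ x : N, ((1 : ℂ) / ((n : ℂ) + 1)) • ((t : ℂ) • x)
      = ((1 / ((n : ℝ) + 1) * t : ℝ) : ℂ) • x := by
    intro x
    rw [smul_smul]
    push_cast
    rfl
  have hm : (NormedSpace.exp (((1 : ℂ) / ((n : ℂ) + 1)) • ((t : ℂ) • y)) *
      NormedSpace.exp (((1 : ℂ) / ((n : ℂ) + 1)) • ((t : ℂ) • z))) ^ (n + 1) ∈ Γ := by
    apply pow_mem_grp hΓ
    apply hΓ.mul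
    · rw [e]; exact hy.2 _
    · rw [e]; exact hz.2 _
  refine ⟨_, hm, ?_⟩
  rw [smul_add]
  refine lt_of_le_of_lt (n2_le_norm h _) ?_
  rw [dist_eq_norm, norm_sub_rev] at hn'
  exact hn'

theorem lie_closed (h : IsTr τ) (hΓ : ClGroup τ Γ) : Closed2 τ (Lie Γ) := by
  intro x hx
  have hs : star x = -x := by
    have h0 : n2 τ (star x + x) = 0 := by
      refine eq_zero_of_small (c := 2) (n2_nonneg _) (by norm_num) fun ε hε => ?_
      obtain ⟨y, hy, hlt⟩ := hx ε hε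
      have e : star x + x = star (x - y) + (x - y) := by
        rw [star_sub, hy.1]
        abel
      rw [e]
      have h1 := n2_add_le h (star (x - y)) (x - y)
      rw [n2_star h] at h1
      linarith
    have h1 := n2_eq_zero h h0
    exact eq_neg_of_add_eq_zero_left h1
  refine ⟨hs, fun t => ?_⟩
  apply hΓ.closed
  intro ε hε
  obtain ⟨y, hy, hlt⟩ := hx (ε / (|t| + 1)) (by positivity)
  refine ⟨NormedSpace.exp ((t : ℂ) • y), hy.2 t, ?_⟩
  have h1 := exp_lip h (star_real_smul t hs) (star_real_smul t hy.1)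
  refine lt_of_le_of_lt h1 ?_
  rw [← smul_sub, n2_smul h, Complex.norm_real, Real.norm_eq_abs]
  have hp : 0 < |t| + 1 := by positivity
  have h2 : |t| * n2 τ (x - y) ≤ (|t| + 1) * n2 τ (x - y) :=
    mul_le_mul_of_nonneg_right (by linarith) (n2_nonneg _)
  have h3 : (|t| + 1) * n2 τ (x - y) < (|t| + 1) * (ε / (|t| + 1)) :=
    mul_lt_mul_of_pos_left hlt hp
  have h4 : (|t| + 1) * (ε / (|t| + 1)) = ε := by
    field_simp
  linarith

theorem lie_conj (hΓ : ClGroup τ Γ) {w y : N} (hw : w ∈ Γ) (hy : y ∈ Lie Γ) :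
    w * y * star w ∈ Lie Γ := by
  have hwu := hΓ.sub w hw
  refine ⟨?_, fun t => ?_⟩
  · rw [star_mul, star_mul, star_star, hy.1]
    rw [neg_mul, mul_neg, mul_assoc]
  · let u : Nˣ := ⟨w, star w, Unitary.mul_star_self_of_mem hwu, Unitary.star_mul_self_of_mem hwu⟩
    have e : (t : ℂ) • (w * y * star w) = (u : N) * ((t : ℂ) • y) * ((u⁻¹ : Nˣ) : N) := by
      change (t : ℂ) • (w * y * star w) = w * ((t : ℂ) • y) * star w
      rw [mul_smul_comm, smul_mul_assoc]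
    let _ : NormedAlgebra ℚ N := NormedAlgebra.restrictScalars ℚ ℂ N
    rw [e, NormedSpace.exp_units_conj]
    change w * NormedSpace.exp ((t : ℂ) • y) * star w ∈ Γ
    exact hΓ.mul _ (hΓ.mul _ hw _ (hy.2 t)) _ (hΓ.star _ hw)

private lemma bracket_deriv (y z : N) :
    HasDerivAt (fun t : ℂ => NormedSpace.exp (t • z) * y * NormedSpace.exp (t • (-z)))
      (z * y - y * z) 0 := by
  have h1 := ((hasDerivAt_exp_smul_const (𝕂 := ℂ) z (0 : ℂ)).mul_const y).mul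
    (hasDerivAt_exp_smul_const (𝕂 := ℂ) (-z) (0 : ℂ))
  have h3 : NormedSpace.exp ((0 : ℂ) • z) * z * y * NormedSpace.exp ((0 : ℂ) • (-z))
      + NormedSpace.exp ((0 : ℂ) • z) * y * (NormedSpace.exp ((0 : ℂ) • (-z)) * (-z))
      = z * y - y * z := by
    simp [NormedSpace.exp_zero, sub_eq_add_neg]
  rw [h3] at h1
  exact h1

theorem lie_bracket (h : IsTr τ) (hΓ : ClGroup τ Γ) {y z : N} (hy : y ∈ Lie Γ)
    (hz : z ∈ Lie Γ) : z * y - y * z ∈ Lie Γ := by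
  apply lie_closed h hΓ
  intro ε hε
  have ht0 : Tendsto (fun n : ℕ => (1 : ℂ) / ((n : ℂ) + 1)) atTop (𝓝[≠] 0) := by
    rw [tendsto_nhdsWithin_iff]
    refine ⟨tendsto_one_div_add_atTop_nhds_zero_nat, ?_⟩
    apply Filter.Eventually.of_forall
    intro n
    have hne : ((n : ℂ) + 1) ≠ 0 := Nat.cast_add_one_ne_zero n
    exact one_div_ne_zero hne
  have hD := (hasDerivAt_iff_tendsto_slope_zero.1 (bracket_deriv y z)).comp ht0
  rw [Metric.tendsto_atTop] at hD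
  obtain ⟨n, hn⟩ := hD ε hε
  have hn' := hn n le_rfl
  rw [dist_eq_norm, norm_sub_rev] at hn'
  refine ⟨_, ?_, lt_of_le_of_lt (n2_le_norm h _) hn'⟩
  simp only [Function.comp_apply, zero_add]
  have e1 : NormedSpace.exp ((0 : ℂ) • z) * y * NormedSpace.exp ((0 : ℂ) • (-z)) = y := by
    simp [NormedSpace.exp_zero]
  rw [e1]
  have e2 : ((1 : ℂ) / ((n : ℂ) + 1))⁻¹ = (((n : ℝ) + 1 : ℝ) : ℂ) := by
    rw [one_div, inv_inv]
    push_cast
    rfl
  rw [e2]
  apply lie_smul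
  have e3 : ((1 : ℂ) / ((n : ℂ) + 1)) = ((1 / ((n : ℝ) + 1) : ℝ) : ℂ) := by
    push_cast
    rfl
  rw [e3]
  set t : ℝ := 1 / ((n : ℝ) + 1)
  have hw : NormedSpace.exp ((t : ℂ) • z) ∈ Γ := hz.2 t
  have hst : star (NormedSpace.exp ((t : ℂ) • z)) = NormedSpace.exp ((t : ℂ) • (-z)) := by
    rw [NormedSpace.star_exp, star_real_smul t hz.1, smul_neg]
  have hc := lie_conj hΓ hw hy
  rw [hst] at hc
  have hneg : -y ∈ Lie Γ := by
    have := lie_smul (-1) hy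
    simpa using this
  have := lie_add h hΓ hc hneg
  rw [← sub_eq_add_neg] at this
  exact this

end ST
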