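import Pool.Agent.H77.ST.Ba2

/-!
# Mn: the element of least 2-norm in the closure of a bounded convex set

Let `d = inf {‖x‖₂ : x ∈ K}` and let `x_k ∈ K` with `‖x_k‖₂ ≤ d + 1/(k+1)`.  By the
parallelogram law and `(x_k + x_l)/2 ∈ K`, `‖x_k - x_l‖₂² ≤ 2‖x_k‖₂² + 2‖x_l‖₂² - 4 d²` is small,
so `(x_k)` is Cauchy in the 2-norm; it is bounded by `R` in norm (use `R' = max R 1` and scale by
`1/R'`), so by `IsTr.complete` it has a limit `z` with `‖z‖ ≤ R'`.  For an isometric linear `T`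
with `T K ⊆ K`, `T x_k ∈ K` is also minimising, and the same estimate gives
`‖x_k - T x_k‖₂² ≤ 2‖x_k‖₂² + 2‖T x_k‖₂² - 4 d² → 0`, while `x_k → z` and `T x_k → T z`; so `T z = z`.
-/

open Filter Topology

namespace ST

open SC

variable {N : Type*} [CStarAlgebra N] {τ : N →ₗ[ℂ] ℂ}

theorem minel (h : IsTr τ) (K : Set N) (hc : Convex ℝ K) (hne : K.Nonempty) (R : ℝ)
    (hb : ∀ x ∈ K, ‖x‖ ≤ R) :
    ∃ z : N, (∀ ε : ℝ, 0 < ε → ∃ x ∈ K, n2 τ (z - x) < ε) ∧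
      ∀ T : N →ₗ[ℂ] N, (∀ x, n2 τ (T x) = n2 τ x) → (∀ x ∈ K, T x ∈ K) → T z = z := by
  set d : ℝ := sInf ((fun x => n2 τ x) '' K) with hd
  have hbdd : BddBelow ((fun x => n2 τ x) '' K) := ⟨0, by
    rintro _ ⟨x, -, rfl⟩
    exact n2_nonneg x⟩
  have hdle : ∀ x ∈ K, d ≤ n2 τ x := fun x hx => csInf_le hbdd ⟨x, hx, rfl⟩
  have hd0 : 0 ≤ d := by
    refine le_csInf (hne.image _) ?_
    rintro _ ⟨x, -, rfl⟩
    exact n2_nonneg x
  have hex : ∀ δ : ℝ, 0 < δ → ∃ x ∈ K, n2 τ x < d + δ := by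
    intro δ hδ
    obtain ⟨_, ⟨x, hx, rfl⟩, h2⟩ := exists_lt_of_csInf_lt (hne.image fun x => n2 τ x)
      (lt_add_of_pos_right d hδ)
    exact ⟨x, hx, h2⟩
  have hmid : ∀ a ∈ K, ∀ b ∈ K, 2 * d ≤ n2 τ (a + b) := by
    intro a ha b hb'
    have h1 : (1 / 2 : ℝ) • a + (1 / 2 : ℝ) • b ∈ K :=
      hc ha hb' (by norm_num) (by norm_num) (by norm_num)
    have h2 : (1 / 2 : ℝ) • a + (1 / 2 : ℝ) • b = ((1 / 2 : ℝ) : ℂ) • (a + b) := by
      rw [Complex.coe_smul, smul_add]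
    have h3 := hdle _ h1
    rw [h2, n2_smul h, Complex.norm_real] at h3
    norm_num at h3
    linarith
  have key : ∀ ε : ℝ, 0 < ε → ∃ δ : ℝ, 0 < δ ∧ ∀ a ∈ K, ∀ b ∈ K, n2 τ a < d + δ → n2 τ b < d + δ →
      n2 τ (a - b) < ε := by
    intro ε hε
    refine ⟨min 1 (ε ^ 2 / (8 * (2 * d + 1))), lt_min one_pos (by positivity), ?_⟩
    set δ := min 1 (ε ^ 2 / (8 * (2 * d + 1))) with hδ
    have hδ0 : 0 < δ := lt_min one_pos (by positivity)
    have hδ1 : δ ≤ 1 := min_le_left _ _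
    have hδ2 : δ * (8 * (2 * d + 1)) ≤ ε ^ 2 := by
      have h1 : δ ≤ ε ^ 2 / (8 * (2 * d + 1)) := min_le_right _ _
      rwa [le_div_iff₀ (by positivity)] at h1
    intro a ha b hb' h1 h2
    have h3 := parallelogram h a b
    have h4 := hmid a ha b hb'
    have h5 : n2 τ a ^ 2 ≤ (d + δ) ^ 2 := pow_le_pow_left₀ (n2_nonneg a) h1.le 2
    have h6 : n2 τ b ^ 2 ≤ (d + δ) ^ 2 := pow_le_pow_left₀ (n2_nonneg b) h2.le 2
    have h7 : (2 * d) ^ 2 ≤ n2 τ (a + b) ^ 2 := pow_le_pow_left₀ (by linarith) h4 2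
    have h8 : n2 τ (a - b) ^ 2 < ε ^ 2 := by nlinarith [sq_nonneg ε, pow_pos hε 2]
    exact lt_of_pow_lt_pow_left₀ 2 hε.le h8
  have hseq : ∀ k : ℕ, ∃ x ∈ K, n2 τ x < d + 1 / ((k : ℝ) + 1) := fun k => hex _ (by positivity)
  choose x hxK hxd using hseq
  have hsmall : ∀ δ : ℝ, 0 < δ → ∃ M : ℕ, ∀ k ≥ M, n2 τ (x k) < d + δ := by
    intro δ hδ
    obtain ⟨M, hM⟩ := exists_nat_one_div_lt hδ
    refine ⟨M, fun k hk => (hxd k).trans ?_⟩
    have h1 : 1 / ((k : ℝ) + 1) ≤ 1 / ((M : ℝ) + 1) := by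
      refine one_div_le_one_div_of_le (by positivity) ?_
      have : (M : ℝ) ≤ k := by exact_mod_cast hk
      linarith
    linarith
  set R' : ℝ := max R 1 with hR'
  have hR0 : 0 < R' := lt_of_lt_of_le one_pos (le_max_right _ _)
  have hnR : ‖((1 / R' : ℝ) : ℂ)‖ = 1 / R' := by
    rw [Complex.norm_real, Real.norm_eq_abs, abs_of_pos (by positivity)]
  obtain ⟨y, -, hy⟩ := h.complete (fun k => ((1 / R' : ℝ) : ℂ) • x k) (by
    intro k
    rw [norm_smul, hnR, one_div, inv_mul_le_iff₀ hR0, mul_one]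
    exact (hb _ (hxK k)).trans (le_max_left _ _)) (by
    intro ε hε
    obtain ⟨δ, hδ, h1⟩ := key (R' * ε) (by positivity)
    obtain ⟨M, hM⟩ := hsmall δ hδ
    refine ⟨M, fun k hk l hl => ?_⟩
    have h2 := h1 _ (hxK k) _ (hxK l) (hM k hk) (hM l hl)
    rw [← smul_sub, n2_smul h, hnR, one_div, inv_mul_lt_iff₀ hR0]
    exact h2)
  have hRc : (R' : ℂ) ≠ 0 := by exact_mod_cast hR0.ne'
  have hconv : ∀ ε : ℝ, 0 < ε → ∃ M : ℕ, ∀ k ≥ M, n2 τ (x k - (R' : ℂ) • y) < ε := by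
    intro ε hε
    have h1 : ∀ᶠ k in atTop, n2 τ (((1 / R' : ℝ) : ℂ) • x k - y) < ε / R' :=
      hy.eventually_lt_const (by positivity)
    obtain ⟨M, hM⟩ := eventually_atTop.1 h1
    refine ⟨M, fun k hk => ?_⟩
    have h2 := hM k hk
    have h3 : x k - (R' : ℂ) • y = (R' : ℂ) • (((1 / R' : ℝ) : ℂ) • x k - y) := by
      rw [smul_sub, smul_smul]
      push_cast
      rw [mul_one_div_cancel hRc, one_smul]
    rw [h3, n2_smul h, Complex.norm_real, Real.norm_eq_abs, abs_of_pos hR0]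
    rw [lt_div_iff₀ hR0] at h2
    linarith
  refine ⟨(R' : ℂ) • y, ?_, ?_⟩
  · intro ε hε
    obtain ⟨M, hM⟩ := hconv ε hε
    refine ⟨x M, hxK M, ?_⟩
    rw [n2_sub_comm]
    exact hM M le_rfl
  · intro T hT hTK
    set z : N := (R' : ℂ) • y with hz
    have hle : ∀ ε : ℝ, 0 < ε → n2 τ (T z - z) ≤ 0 + ε := by
      intro ε hε
      obtain ⟨δ, hδ, h1⟩ := key (ε / 3) (by positivity)
      obtain ⟨M, hM⟩ := hsmall δ hδ
      obtain ⟨M', hM'⟩ := hconv (ε / 3) (by positivity)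
      set k := max M M' with hk
      have h2 := hM' k (le_max_right _ _)
      have h3 := hM k (le_max_left _ _)
      have h4 := h1 _ (hTK _ (hxK k)) _ (hxK k) (by rw [hT]; exact h3) h3
      have h5 : n2 τ (T z - T (x k)) < ε / 3 := by
        rw [← map_sub, hT, n2_sub_comm]
        exact h2
      have h6 := n2_sub_le h (T z) (T (x k)) z
      have h7 := n2_sub_le h (T (x k)) (x k) z
      linarith
    have h8 : n2 τ (T z - z) = 0 := le_antisymm (le_of_forall_pos_le_add hle) (n2_nonneg _)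
    exact sub_eq_zero.1 (n2_eq_zero h h8)

end ST
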