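import Pool.Agent.H77.ST.U1
import Pool.Agent.H77.ST.Eh

/-!
# Pl: increasing sequences of partial isometries

`x` is a partial isometry if `x x* x = x`; then `x* x` and `x x*` are projections, `‖x‖ ≤ 1`.
`y` extends `x` if `y (x* x) = x`.

`ext_props`: let `p = x* x`, `q = y* y` (projections) and `y p = x`.  Then
`p = x* x = p y* y p = p q p`, so `((1-q) p)* ((1-q) p) = p (1-q) p = 0`, so `q p = p = p q`.
`x* y = p y* y = p q = p` and `y* x = p`, so `(y - x)* (y - x) = q - p`, which gives
`‖y - x‖₂² = τ(q) - τ(p)`.  `y x* = y p x* = x x*`.  `y - x = y (1 - p)`.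
`pi_limit`: for `k ≤ l`, `x_l` extends `x_k` (transitivity: `ext_trans`), so
`‖x_l - x_k‖₂² = τ(x_l* x_l) - τ(x_k* x_k)`; the traces are nondecreasing and `≤ 1`, so `(x_k)` is
Cauchy in the 2-norm; limit `y` by `IsTr.complete`; `x x* x = x` and `x_l (x_k* x_k) = x_k` pass to
the limit (2-norm continuity of products on bounded sets, `n2_mul_le`, `n2_mul_le'`).

-/

open Filter Topology

namespace ST

open SC

variable {N : Type*} [CStarAlgebra N] {τ : N →ₗ[ℂ] ℂ}

/-- `x` is a partial isometry. -/
def PIso (x : N) : Prop := x * star x * x = x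

/-- `y` extends `x`. -/
def Extends (x y : N) : Prop := y * (star x * x) = x

theorem piso_proj {x : N} (hx : PIso x) : IsProj (star x * x) ∧ IsProj (x * star x) := by
  have h1 : x * star x * x = x := hx
  refine ⟨⟨?_, ?_⟩, ⟨?_, ?_⟩⟩
  · rw [star_mul, star_star]
  · rw [mul_assoc, ← mul_assoc x, h1]
  · rw [star_mul, star_star]
  · rw [← mul_assoc, h1]

theorem piso_norm {x : N} (hx : PIso x) : ‖x‖ ≤ 1 := by
  obtain ⟨⟨h1, h2⟩, -⟩ := piso_proj hx
  have h3 : ‖star x * x‖ = ‖star x * x‖ * ‖star x * x‖ := by
    have h4 := CStarRing.norm_star_mul_self (x := star x * x)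
    rwa [h1, h2] at h4
  have h5 : ‖star x * x‖ = ‖x‖ * ‖x‖ := CStarRing.norm_star_mul_self
  by_contra hlt
  have hx1 : 1 < ‖x‖ := not_le.1 hlt
  have h6 : 1 < ‖star x * x‖ := by
    rw [h5]
    nlinarith
  nlinarith

/-- if `x* x` is a projection then `x` is a partial isometry. -/
theorem piso_of_proj {x : N} (hx : star x * x * (star x * x) = star x * x) : PIso x := by
  have h1 : star (x * (star x * x) - x) * (x * (star x * x) - x) = 0 := by
    have e : star (x * (star x * x) - x) * (x * (star x * x) - x) =
        star x * x * (star x * x) * (star x * x) - star x * x * (star x * x)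
          - (star x * x * (star x * x) - star x * x) := by
      rw [star_sub, star_mul, star_mul, star_star]
      noncomm_ring
    rw [e, hx, hx, sub_self]
  have h2 := CStarRing.star_mul_self_eq_zero_iff _ |>.1 h1
  have h3 := sub_eq_zero.1 h2
  unfold PIso
  rw [mul_assoc]
  exact h3

theorem ext_qp {x y : N} (hx : PIso x) (hy : PIso y) (he : Extends x y) :
    star y * y * (star x * x) = star x * x := by
  have hy' : y * (star x * x) = x := he
  obtain ⟨⟨hp1, hp2⟩, -⟩ := piso_proj hx
  obtain ⟨⟨hq1, hq2⟩, -⟩ := piso_proj hy
  have h0 : star x * x * (star y * y) * (star x * x) = star x * x := by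
    have e : star x * x * (star y * y) * (star x * x) =
        star (y * (star x * x)) * (y * (star x * x)) := by
      rw [star_mul y, hp1]
      noncomm_ring
    rw [e, hy']
  have h1 : star (star x * x - star y * y * (star x * x)) *
      (star x * x - star y * y * (star x * x)) = 0 := by
    have e : star (star x * x - star y * y * (star x * x)) *
        (star x * x - star y * y * (star x * x)) =
        star x * x * (star x * x) - star x * x * (star y * y) * (star x * x)
         - (star x * x * (star y * y) * (star x * x)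
         - star x * x * (star y * y * (star y * y)) * (star x * x)) := by
      rw [star_sub, star_mul (star y * y), hp1, hq1]
      noncomm_ring
    rw [e, hq2, hp2, h0, sub_self]
  have h2 := CStarRing.star_mul_self_eq_zero_iff _ |>.1 h1
  exact (sub_eq_zero.1 h2).symm

theorem ext_props (h : IsTr τ) {x y : N} (hx : PIso x) (hy : PIso y) (he : Extends x y) :
    star y * y * (star x * x) = star x * x ∧ star x * y = star x * x ∧ y * star x = x * star x ∧
      n2 τ (y - x) ^ 2 = (τ (star y * y)).re - (τ (star x * x)).re := by
  have hy' : y * (star x * x) = x := he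
  obtain ⟨⟨hp1, hp2⟩, -⟩ := piso_proj hx
  obtain ⟨⟨hq1, hq2⟩, -⟩ := piso_proj hy
  have h1 := ext_qp hx hy he
  have h2 : star x * y = star x * x := by
    have h3 : star x * x * (star y * y) = star x * x := by
      have := congrArg star h1
      rwa [star_mul, hp1, hq1] at this
    have h4 : star x = star x * x * star y := by
      have := congrArg star hy'
      rw [star_mul, hp1] at this
      exact this.symm
    calc star x * y = star x * x * star y * y := by rw [← h4]
      _ = star x * x * (star y * y) := by rw [mul_assoc]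
      _ = _ := h3
  have h2' : star y * x = star x * x := by
    have := congrArg star h2
    rwa [star_mul, star_star, hp1] at this
  refine ⟨h1, h2, ?_, ?_⟩
  · have h4 : x * star x = y * (star x * x) * star x := by rw [hy']
    rw [h4]
    have h5 : star x * x * star x = star x := by
      have := congrArg star (show x * star x * x = x from hx)
      rw [star_mul, star_mul, star_star] at this
      rw [mul_assoc]
      exact this
    rw [mul_assoc y, h5]
  · rw [n2_sq h]
    have e : star (y - x) * (y - x) = star y * y - star x * x := by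
      rw [star_sub, sub_mul, mul_sub, mul_sub, h2, h2']
      abel
    rw [e, map_sub, Complex.sub_re]

theorem ext_refl {x : N} (hx : PIso x) : Extends x x := by
  unfold Extends
  rw [← mul_assoc]
  exact hx

theorem ext_trans {x y z : N} (hx : PIso x) (hy : PIso y) (h1 : Extends x y)
    (h2 : Extends y z) : Extends x z := by
  have h3 := ext_qp hx hy h1
  have h1' : y * (star x * x) = x := h1
  have h2' : z * (star y * y) = y := h2
  unfold Extends
  rw [← h3, ← mul_assoc, h2', h1']

/-- orthogonal sums of partial isometries -/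
theorem piso_add {x d : N} (hx : PIso x) (hd : PIso d)
    (h1 : (star x * x) * (star d * d) = 0) (h2 : (x * star x) * (d * star d) = 0) :
    PIso (x + d) ∧ Extends x (x + d) ∧
      star (x + d) * (x + d) = star x * x + star d * d ∧
      (x + d) * star (x + d) = x * star x + d * star d := by
  have hx' : x * star x * x = x := hx
  have hd' : d * star d * d = d := hd
  have sx : star x * x * star x = star x := by
    have := congrArg star hx'
    rw [star_mul, star_mul, star_star] at this
    rw [mul_assoc]
    exact this
  have sd : star d * d * star d = star d := by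
    have := congrArg star hd'
    rw [star_mul, star_mul, star_star] at this
    rw [mul_assoc]
    exact this
  have a1 : x * star d = 0 := by
    calc x * star d = (x * star x * x) * (star d * d * star d) := by rw [hx', sd]
      _ = x * ((star x * x) * (star d * d)) * star d := by noncomm_ring
      _ = 0 := by rw [h1, mul_zero, zero_mul]
  have a2 : d * star x = 0 := by
    have := congrArg star a1
    rwa [star_mul, star_star, star_zero] at this
  have a3 : star x * d = 0 := by
    calc star x * d = (star x * x * star x) * (d * star d * d) := by rw [hd', sx]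
      _ = star x * ((x * star x) * (d * star d)) * d := by noncomm_ring
      _ = 0 := by rw [h2, mul_zero, zero_mul]
  have a4 : star d * x = 0 := by
    have := congrArg star a3
    rwa [star_mul, star_star, star_zero] at this
  have b1 : star (x + d) * (x + d) = star x * x + star d * d := by
    rw [star_add, add_mul, mul_add, mul_add, a3, a4]
    abel
  have b2 : (x + d) * star (x + d) = x * star x + d * star d := by
    rw [star_add, add_mul, mul_add, mul_add, a1, a2]
    abel
  refine ⟨?_, ?_, b1, b2⟩
  · unfold PIso
    rw [b2, add_mul, mul_add, mul_add, hx', hd', mul_assoc x, a3, mul_assoc d, a4, mul_zero,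
      mul_zero, add_zero, zero_add]
  · unfold Extends
    rw [add_mul, ← mul_assoc, hx', ← mul_assoc, a2, zero_mul, add_zero]

/-- traces of projections: real, nonnegative, at most `1`, positive if nonzero. -/
theorem proj_tau (h : IsTr τ) {p : N} (hp : IsProj p) :
    (τ p).im = 0 ∧ 0 ≤ (τ p).re ∧ (τ p).re ≤ 1 ∧ ((τ p).re = 0 → p = 0) := by
  obtain ⟨h1, h2⟩ := hp
  have e : star p * p = p := by rw [h1, h2]
  have e' : star (1 - p) * (1 - p) = 1 - p := by
    rw [star_sub, star_one, h1, sub_mul, mul_sub, mul_sub, h2, one_mul, mul_one, one_mul]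
    abel
  have him : (τ p).im = 0 := by
    have := h.real p
    rwa [e] at this
  refine ⟨him, ?_, ?_, fun h0 => ?_⟩
  · have := h.nonneg p
    rwa [e] at this
  · have := h.nonneg (1 - p)
    rw [e', map_sub, h.map_one, Complex.sub_re, Complex.one_re] at this
    linarith
  · apply h.faithful
    rw [e]
    exact Complex.ext h0 him

/-- 2-norm convergence and products: if `x_k → x`, `y_k → y` in the 2-norm and all norms are
`≤ R`, then `x_k y_k → x y` in the 2-norm. -/
theorem tendsto_mul2 (h : IsTr τ) {x y : ℕ → N} {a b : N} (R : ℝ) (hx : ∀ k, ‖x k‖ ≤ R)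
    (hb : ‖b‖ ≤ R) (hxa : Tendsto (fun k => n2 τ (x k - a)) atTop (𝓝 0))
    (hyb : Tendsto (fun k => n2 τ (y k - b)) atTop (𝓝 0)) :
    Tendsto (fun k => n2 τ (x k * y k - a * b)) atTop (𝓝 0) := by
  have h1 : Tendsto (fun k => R * n2 τ (y k - b) + n2 τ (x k - a) * R) atTop (𝓝 0) := by
    simpa using (hyb.const_mul R).add (hxa.mul_const R)
  refine squeeze_zero (fun k => n2_nonneg _) (fun k => ?_) h1
  have e : x k * y k - a * b = x k * (y k - b) + (x k - a) * b := by
    rw [mul_sub, sub_mul]
    abel
  rw [e]
  refine le_trans (n2_add_le h _ _) (add_le_add ?_ ?_)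
  · exact le_trans (n2_mul_le h _ _) (mul_le_mul_of_nonneg_right (hx k) (n2_nonneg _))
  · exact le_trans (n2_mul_le' h _ _) (mul_le_mul_of_nonneg_left hb (n2_nonneg _))

/-- uniqueness of 2-norm limits -/
theorem lim_unique2 (h : IsTr τ) {x : ℕ → N} {a b : N}
    (hxa : Tendsto (fun k => n2 τ (x k - a)) atTop (𝓝 0))
    (hxb : Tendsto (fun k => n2 τ (x k - b)) atTop (𝓝 0)) : a = b := by
  have h1 : Tendsto (fun k => n2 τ (x k - a) + n2 τ (x k - b)) atTop (𝓝 0) := by
    simpa using hxa.add hxb
  have h2 : n2 τ (a - b) ≤ 0 := by
    refine ge_of_tendsto h1 (Eventually.of_forall fun k => ?_)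
    have h3 := n2_sub_le h a (x k) b
    rwa [n2_sub_comm a (x k)] at h3
  exact sub_eq_zero.1 (n2_eq_zero h (le_antisymm h2 (n2_nonneg _)))

theorem pi_limit (h : IsTr τ) (x : ℕ → N) (hx : ∀ k, PIso (x k))
    (hext : ∀ k, Extends (x k) (x (k + 1))) :
    ∃ y : N, PIso y ∧ (∀ k, Extends (x k) y) ∧ Tendsto (fun k => n2 τ (x k - y)) atTop (𝓝 0) := by
  have hle : ∀ k l : ℕ, k ≤ l → Extends (x k) (x l) := by
    intro k l hkl
    induction l, hkl using Nat.le_induction with
    | base => exact ext_refl (hx k)
    | succ l hkl ih => exact ext_trans (hx k) (hx l) ih (hext l)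
  set f : ℕ → ℝ := fun k => (τ (star (x k) * x k)).re with hf
  have hd : ∀ k l : ℕ, k ≤ l → n2 τ (x l - x k) ^ 2 = f l - f k := fun k l hkl =>
    (ext_props h (hx k) (hx l) (hle k l hkl)).2.2.2
  have hmono : Monotone f := by
    intro k l hkl
    have := hd k l hkl
    nlinarith [sq_nonneg (n2 τ (x l - x k))]
  have hbdd : BddAbove (Set.range f) := ⟨1, by
    rintro _ ⟨k, rfl⟩
    exact (proj_tau h (piso_proj (hx k)).1).2.2.1⟩
  have hconv := tendsto_atTop_ciSup hmono hbdd
  have hcs : CauchySeq f := hconv.cauchySeq
  obtain ⟨y, hy1, hy2⟩ := h.complete x (fun k => piso_norm (hx k)) (by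
    intro ε hε
    obtain ⟨K, hK⟩ := Metric.cauchySeq_iff.1 hcs (ε ^ 2) (by positivity)
    refine ⟨K, fun k hk l hl => ?_⟩
    have key : ∀ k l : ℕ, K ≤ k → k ≤ l → n2 τ (x l - x k) < ε := by
      intro k l hk hkl
      have h1 := hd k l hkl
      have h2 := hK l (le_trans hk hkl) k hk
      rw [Real.dist_eq] at h2
      have h3 := lt_of_le_of_lt (le_abs_self _) h2
      rw [← h1] at h3
      exact lt_of_pow_lt_pow_left₀ 2 hε.le h3
    rcases le_total k l with hkl | hkl
    · rw [n2_sub_comm]
      exact key k l hk hkl
    · exact key l k hl hkl)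
  have hstar : Tendsto (fun k => n2 τ (star (x k) - star y)) atTop (𝓝 0) := by
    refine hy2.congr fun k => ?_
    rw [← star_sub, n2_star h]
  have hn : ∀ k, ‖x k‖ ≤ 1 := fun k => piso_norm (hx k)
  have hm1 := tendsto_mul2 h (x := x) (y := fun k => star (x k)) (a := y) (b := star y) 1 hn
    (by rw [norm_star]; exact hy1) hy2 hstar
  have hm2 := tendsto_mul2 h (x := fun k => x k * star (x k)) (y := x) (a := y * star y) (b := y) 1
    (fun k => by
      refine le_trans (norm_mul_le _ _) ?_
      rw [norm_star]
      exact mul_le_one₀ (hn k) (norm_nonneg _) (hn k)) hy1 hm1 hy2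
  refine ⟨y, ?_, fun k => ?_, hy2⟩
  · refine lim_unique2 h (x := x) ?_ hy2
    refine hm2.congr fun k => ?_
    have := hx k
    unfold PIso at this
    simp only [this]
  · unfold Extends
    refine lim_unique2 h (x := fun _ => x k) ?_ ?_
    · have h1 : Tendsto (fun l => n2 τ (x l - y) * ‖star (x k) * x k‖) atTop (𝓝 0) := by
        simpa using hy2.mul_const ‖star (x k) * x k‖
      have h2 : ∀ᶠ l in atTop, n2 τ (x k - y * (star (x k) * x k)) ≤
          n2 τ (x l - y) * ‖star (x k) * x k‖ := by
        filter_upwards [eventually_ge_atTop k] with l hl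
        have h3 : x l * (star (x k) * x k) = x k := hle k l hl
        have e : x k - y * (star (x k) * x k) = (x l - y) * (star (x k) * x k) := by
          rw [sub_mul, h3]
        rw [e]
        exact n2_mul_le' h _ _
      have h4 := ge_of_tendsto h1 h2
      have h5 : n2 τ (x k - y * (star (x k) * x k)) = 0 := le_antisymm h4 (n2_nonneg _)
      rw [h5]
      exact tendsto_const_nhds
    · rw [sub_self, n2_zero]
      exact tendsto_const_nhds

end ST
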