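import Pool.Agent.H77.ST.Dh

/-!
# Sl: under every nonzero projection `e` there is a copy of a projection commuting with `u`

Let `b = uexp(e)`: `b u = u b`, `b* = b`, `τ(t b) = τ(t e)` for `t` commuting with `u`, and `r b = b`
(so `b r = b`).  Let `s = τ(e)/2 > 0` and let `y = (b - s)⁺`, `c = (b - s)⁻` (positive and negative
parts of the selfadjoint element `b - s`, `CFC`): `b - s = y - c`, `y c = 0`; both commute with
everything that commutes with `b`; in particular with `u` and `r`.
* `y ≠ 0`: otherwise `τ(b) - s = -τ(c) ≤ 0`, but `τ(b) = τ(e) > s`.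
* `r y = y`: `(1-r)(b - s) = -s (1-r)`, and `a = (1-r) y` is positive with
  `a a = (1-r) y y = (1-r)(b-s) y = -s (1-r) y = -s a`, so `τ(a a) + s τ(a) = 0`, both `≥ 0`: `a = 0`.
* `polar2` for `y` gives `v`, `F = v* v`: a projection, `F ≠ 0`, commuting with `u`
  (`u` commutes with `y = y*`, so with `v`, and also `u` commutes with `v*` because `u*` commutes
  with `v`), `y F = y`, `r F = F` (`y r = y` gives `v r = v`), `F c = 0` (`y (1 - c) = y`).
  So `(b - s) F = y F = y`, i.e. `b F = s F + y`.
* For a projection `f` commuting with `u`, with `F f = f`, and a central projection `z`: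
  `τ(z f e) = τ(z f b) = τ(z f F b) = s τ(z f) + τ(z f y) ≥ s τ(z f)`
  (`τ(z f y) = τ(f z y z f) ≥ 0`, `y ≥ 0`), and `τ(z f e) = τ(z e f e) ≤ τ(z e)`.  So
  (P): `s τ(z f) ≤ τ(z e)`; and with `z = 1`: `τ(f e) ≥ s τ(f) > 0` if `f ≠ 0`.
Induction on `m`: there is either a solution, or a projection `f_m ≠ 0` commuting with `u`,
`F f_m = f_m`, with `2^m τ(z f_m) ≤ τ(z F)` for all central projections `z`.  Step: `dichotomy` for
`f_m`: the first alternative gives `f_{m+1}`.  In the second alternative let `y' = e f_m ≠ 0`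
(`τ(f_m e) > 0`); `polar2` gives `d ≠ 0`, `d f_m = d`, `e d = d`, `f = d* d` a projection with
`f = f_m f f_m`, so `f` commutes with `u` by the second alternative, `r f = f`: a solution.
If `2^m s ≥ 1`, then by (P) `τ(z f_m) ≤ 2^{-m} τ(z F) ≤ s τ(z F) ≤ τ(z e)` for all `z`, and `sub_of_trace`
gives `d` with `d* d = f_m`, `e d = d`: a solution.
-/

open Filter Topology

namespace ST

open SC

variable {N : Type*} [CStarAlgebra N] {τ : N →ₗ[ℂ] ℂ}

/-- positive and negative parts of a selfadjoint element -/
private theorem sl_posneg (a : N) (ha : star a = a) :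
    ∃ y c k l : N, star y = y ∧ star c = c ∧ a = y - c ∧ y * c = 0 ∧ y = star k * k ∧
      c = star l * l ∧ (∀ b : N, a * b = b * a → y * b = b * y) := by
  have hsa : IsSelfAdjoint a := ha
  have h1 : Continuous (fun t : ℝ => max t 0) := continuous_id.max continuous_const
  have h2 : Continuous (fun t : ℝ => max (-t) 0) := continuous_neg.max continuous_const
  have h3 : Continuous (fun t : ℝ => Real.sqrt (max t 0)) := h1.sqrt
  have h4 : Continuous (fun t : ℝ => Real.sqrt (max (-t) 0)) := h2.sqrt
  have s1 : IsSelfAdjoint (cfc (fun t : ℝ => max t 0) a) := cfc_predicate _ _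
  have s2 : IsSelfAdjoint (cfc (fun t : ℝ => max (-t) 0) a) := cfc_predicate _ _
  have s3 : IsSelfAdjoint (cfc (fun t : ℝ => Real.sqrt (max t 0)) a) := cfc_predicate _ _
  have s4 : IsSelfAdjoint (cfc (fun t : ℝ => Real.sqrt (max (-t) 0)) a) := cfc_predicate _ _
  refine ⟨cfc (fun t : ℝ => max t 0) a, cfc (fun t : ℝ => max (-t) 0) a,
    cfc (fun t : ℝ => Real.sqrt (max t 0)) a, cfc (fun t : ℝ => Real.sqrt (max (-t) 0)) a,
    s1, s2, ?_, ?_, ?_, ?_, ?_⟩
  · rw [← cfc_sub (R := ℝ) (fun t : ℝ => max t 0) (fun t : ℝ => max (-t) 0) a h1.continuousOn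
      h2.continuousOn]
    conv_lhs => rw [← cfc_id' ℝ a hsa]
    congr 1
    funext t
    rcases le_total 0 t with ht | ht
    · rw [max_eq_left ht, max_eq_right (by linarith)]; ring
    · rw [max_eq_right ht, max_eq_left (by linarith)]; ring
  · rw [← cfc_mul (R := ℝ) (fun t : ℝ => max t 0) (fun t : ℝ => max (-t) 0) a h1.continuousOn
      h2.continuousOn]
    have : (fun t : ℝ => max t 0 * max (-t) 0) = fun _ => (0 : ℝ) := by
      funext t
      rcases le_total 0 t with ht | ht
      · rw [max_eq_right (a := -t) (by linarith), mul_zero]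
      · rw [max_eq_right ht, zero_mul]
    rw [this]
    exact cfc_const_zero ℝ a
  · rw [s3.star_eq, ← cfc_mul (R := ℝ) (fun t : ℝ => Real.sqrt (max t 0))
      (fun t : ℝ => Real.sqrt (max t 0)) a h3.continuousOn h3.continuousOn]
    congr 1
    funext t
    rw [Real.mul_self_sqrt (le_max_right _ _)]
  · rw [s4.star_eq, ← cfc_mul (R := ℝ) (fun t : ℝ => Real.sqrt (max (-t) 0))
      (fun t : ℝ => Real.sqrt (max (-t) 0)) a h4.continuousOn h4.continuousOn]
    congr 1
    funext t
    rw [Real.mul_self_sqrt (le_max_right _ _)]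
  · intro b hb
    have hc : Commute a b := hb
    exact (hc.cfc_real (fun t : ℝ => max t 0)).eq

/-- `0 ≤ τ(p q)` for projections. -/
private theorem sl_tau_pp (h : IsTr τ) {p q : N} (hp : IsProj p) (hq : IsProj q) :
    0 ≤ (τ (p * q)).re := by
  have h1 := h.nonneg (p * q)
  have e : star (p * q) * (p * q) = q * (p * q) := by
    rw [star_mul, hp.1, hq.1, mul_assoc, ← mul_assoc p p q, hp.2]
  rw [e, h.tracial, mul_assoc, hq.2] at h1
  exact h1

private theorem sl_proj_one_sub {p : N} (hp : IsProj p) : IsProj (1 - p) := by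
  refine ⟨by rw [star_sub, star_one, hp.1], ?_⟩
  rw [mul_sub, mul_one, sub_mul, one_mul, hp.2, sub_self, sub_zero]

private theorem sl_proj_cmul {z f : N} (hz : CProj z) (hf : IsProj f) : IsProj (z * f) := by
  refine ⟨by rw [star_mul, hf.1, hz.1.1, hz.2], ?_⟩
  calc z * f * (z * f) = z * (f * z) * f := by noncomm_ring
    _ = z * (z * f) * f := by rw [hz.2 f]
    _ = (z * z) * (f * f) := by noncomm_ring
    _ = z * f := by rw [hz.1.2, hf.2]

private theorem sl_cproj_one : CProj (1 : N) :=
  ⟨⟨star_one _, one_mul _⟩, fun a => by rw [one_mul, mul_one]⟩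

/-- the cut-down of the expectation of `e` -/
private theorem sl_cut (h : IsTr τ) {u : N} (hu : u ∈ Haar τ) {r e : N} (hr : IsProj r)
    (hru : r * u = u * r) (he : IsProj e) (he0 : e ≠ 0) (hre : r * e = e) :
    ∃ (F : N) (s : ℝ), 0 < s ∧ IsProj F ∧ F ≠ 0 ∧ F * u = u * F ∧ r * F = F ∧
      ∀ f : N, IsProj f → f * u = u * f → F * f = f → ∀ z : N, CProj z →
        s * (τ (z * f)).re ≤ (τ (z * f * e)).re := by
  obtain ⟨b, hbu, hbt, hbs, hbr⟩ := uexp h hu.1 e
  have hbs := hbs he.1
  have hbr := hbr r hru hre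
  have hbr' : b * r = b := by
    have := congrArg star hbr
    rwa [star_mul, hr.1, hbs] at this
  -- `τ(e) > 0`
  have hte : τ (star e * e) = τ e := by rw [he.1, he.2]
  have hte_im : (τ e).im = 0 := by rw [← hte]; exact h.real e
  have hte_nn : 0 ≤ (τ e).re := by rw [← hte]; exact h.nonneg e
  have hte_pos : 0 < (τ e).re := by
    refine lt_of_le_of_ne hte_nn fun h0 => he0 (h.faithful e ?_)
    rw [hte]
    exact Complex.ext h0.symm hte_im
  set s : ℝ := (τ e).re / 2 with hs
  have hs0 : 0 < s := by rw [hs]; linarith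
  have htb : τ b = τ e := by
    have := hbt 1 (by rw [one_mul, mul_one])
    rwa [one_mul, one_mul] at this
  obtain ⟨y, c, k, l, hys, hcs, hyc, hyc0, hyk, hcl, hcomm⟩ := sl_posneg (b - (s : ℂ) • (1 : N)) (by
    rw [star_sub, hbs, star_smul, star_one, Complex.star_def, Complex.conj_ofReal])
  have hcy0 : c * y = 0 := by
    have := congrArg star hyc0
    rwa [star_mul, hys, hcs, star_zero] at this
  have hyne : y ≠ 0 := by
    intro hy0
    rw [hy0, zero_sub] at hyc
    have h1 : b = (s : ℂ) • (1 : N) - c := by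
      rw [sub_eq_iff_eq_add] at hyc
      rw [hyc]; abel
    have h2 : (τ b).re = s - (τ c).re := by
      rw [h1, map_sub, map_smul, h.map_one, smul_eq_mul, mul_one, Complex.sub_re,
        Complex.ofReal_re]
    have h3 : 0 ≤ (τ c).re := by rw [hcl]; exact h.nonneg l
    rw [htb] at h2
    linarith
  -- `r y = y`
  have hyr_comm : y * r = r * y := by
    apply hcomm
    rw [sub_mul, mul_sub, hbr', hbr, smul_mul_assoc, mul_smul_comm, one_mul, mul_one]
  have hry : r * y = y := by
    set q : N := 1 - r with hq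
    have hqp : IsProj q := sl_proj_one_sub hr
    have hqy : q * y = y * q := by
      rw [hq, sub_mul, mul_sub, one_mul, mul_one, hyr_comm]
    have hqb : q * b = 0 := by rw [hq, sub_mul, one_mul, hbr, sub_self]
    have hyy : y * y = (b - (s : ℂ) • (1 : N)) * y := by
      rw [hyc, sub_mul, hcy0, sub_zero]
    have hstar : star (q * y) = q * y := by
      rw [star_mul, hys, hqp.1, hqy]
    have h1 : star (q * y) * (q * y) = -((s : ℂ) • (q * y)) := by
      rw [hstar]
      calc q * y * (q * y) = q * (y * q) * y := by noncomm_ring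
        _ = q * (q * y) * y := by rw [hqy]
        _ = (q * q) * (y * y) := by noncomm_ring
        _ = q * ((b - (s : ℂ) • (1 : N)) * y) := by rw [hqp.2, hyy]
        _ = (q * b) * y - (s : ℂ) • (q * y) := by
          rw [sub_mul b _ y, mul_sub q _ _, smul_mul_assoc, one_mul, mul_smul_comm, ← mul_assoc]
        _ = -((s : ℂ) • (q * y)) := by rw [hqb, zero_mul, zero_sub]
    have h2 : q * y = star (k * q) * (k * q) := by
      rw [star_mul, hqp.1]
      calc q * y = (q * q) * y := by rw [hqp.2]
        _ = q * (q * y) := by rw [mul_assoc]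
        _ = q * (y * q) := by rw [hqy]
        _ = q * (star k * k * q) := by rw [← hyk]
        _ = q * star k * (k * q) := by noncomm_ring
    have h3 : 0 ≤ (τ (q * y)).re := by rw [h2]; exact h.nonneg _
    have h4 := h.nonneg (q * y)
    have h5 : (τ (star (q * y) * (q * y))).re = -(s * (τ (q * y)).re) := by
      rw [h1, map_neg, map_smul, smul_eq_mul, Complex.neg_re, Complex.re_ofReal_mul]
    have h6 : (τ (star (q * y) * (q * y))).re = 0 := by
      have := mul_nonneg hs0.le h3
      linarith
    have h7 : q * y = 0 := h.faithful _ (Complex.ext h6 (h.real _))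
    rw [hq, sub_mul, one_mul, sub_eq_zero] at h7
    exact h7.symm
  have hyr : y * r = y := by rw [hyr_comm, hry]
  obtain ⟨v, hv0, hFF, -, hv2, hv3, hyF⟩ := polar2 h y hyne
  set F : N := star v * v with hF
  have hFs : star F = F := by rw [hF, star_mul, star_star]
  have hFp : IsProj F := ⟨hFs, hFF⟩
  have hF0 : F ≠ 0 := by
    intro h0
    exact hv0 ((CStarRing.star_mul_self_eq_zero_iff v).1 h0)
  have hyu : y * u = u * y := by
    apply hcomm
    rw [sub_mul, mul_sub, hbu, smul_mul_assoc, mul_smul_comm, one_mul, mul_one]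
  have hyus : y * star u = star u * y := by
    apply hcomm
    have h1 : star u * u = 1 := (Unitary.mem_iff.1 hu.1).1
    have h2 : u * star u = 1 := (Unitary.mem_iff.1 hu.1).2
    have h3 : b * star u = star u * b := by
      calc b * star u = (star u * u) * b * star u := by rw [h1, one_mul]
        _ = star u * (u * b) * star u := by noncomm_ring
        _ = star u * (b * u) * star u := by rw [hbu]
        _ = star u * b * (u * star u) := by noncomm_ring
        _ = star u * b := by rw [h2, mul_one]
    rw [sub_mul, mul_sub, h3, smul_mul_assoc, mul_smul_comm, one_mul, mul_one]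
  have hvu : u * v = v * u := hv3 u hyu.symm (by rw [hys]; exact hyu.symm)
  have hvus : star u * v = v * star u := hv3 (star u) hyus.symm (by rw [hys]; exact hyus.symm)
  have hvsu : star v * u = u * star v := by
    have := congrArg star hvus
    rwa [star_mul, star_mul, star_star] at this
  have hFu : F * u = u * F := by
    calc F * u = star v * (v * u) := by rw [hF, mul_assoc]
      _ = star v * (u * v) := by rw [hvu]
      _ = (star v * u) * v := by rw [mul_assoc]
      _ = u * (star v * v) := by rw [hvsu, mul_assoc]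
  have hvr : v * r = v := hv2 r hr.1 hyr
  have hFr : F * r = F := by rw [hF, mul_assoc, hvr]
  have hrF : r * F = F := by
    have := congrArg star hFr
    rwa [star_mul, hr.1, hFs] at this
  have hvc : v * c = 0 := by
    have h1 := hv2 (1 - c) (by rw [star_sub, star_one, hcs]) (by
      rw [mul_sub, mul_one, hyc0, sub_zero])
    rw [mul_sub, mul_one, sub_eq_self] at h1
    exact h1
  have hFc : F * c = 0 := by rw [hF, mul_assoc, hvc, mul_zero]
  have hFy : F * y = y := by
    have := congrArg star hyF
    rwa [star_mul, hFs, hys] at this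
  have hFb : F * b = (s : ℂ) • F + y := by
    have h1 : F * (b - (s : ℂ) • (1 : N)) = y := by
      rw [hyc, mul_sub, hFc, sub_zero, hFy]
    rw [mul_sub, mul_smul_comm, mul_one, sub_eq_iff_eq_add] at h1
    rw [h1]; abel
  refine ⟨F, s, hs0, hFp, hF0, hFu, hrF, ?_⟩
  intro f hf hfu hFf z hz
  have hfF : f * F = f := by
    have := congrArg star hFf
    rwa [star_mul, hFs, hf.1] at this
  have hzfu : z * f * u = u * (z * f) := by
    rw [mul_assoc, hfu, ← mul_assoc, hz.2 u, mul_assoc]
  have h1 : τ (z * f * e) = τ (z * f * b) := (hbt (z * f) hzfu).symm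
  have h2 : z * f * b = (s : ℂ) • (z * f) + z * f * y := by
    calc z * f * b = z * (f * F) * b := by rw [hfF]
      _ = z * f * (F * b) := by noncomm_ring
      _ = z * f * ((s : ℂ) • F + y) := by rw [hFb]
      _ = (s : ℂ) • (z * f * F) + z * f * y := by rw [mul_add, mul_smul_comm]
      _ = (s : ℂ) • (z * f) + z * f * y := by rw [mul_assoc z f F, hfF]
  have hzf := sl_proj_cmul hz hf
  have h3 : 0 ≤ (τ (z * f * y)).re := by
    have h4 := h.nonneg (k * (z * f))
    have e : star (k * (z * f)) * (k * (z * f)) = (z * f) * (y * (z * f)) := by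
      rw [star_mul, hzf.1, hyk]; noncomm_ring
    rw [e, h.tracial, mul_assoc, hzf.2, h.tracial] at h4
    exact h4
  rw [h1, h2, map_add, map_smul, smul_eq_mul, Complex.add_re, Complex.re_ofReal_mul]
  linarith

theorem small_lemma (h : IsTr τ) {u : N} (hu : u ∈ Haar τ) {r e : N} (hr : IsProj r)
    (hru : r * u = u * r) (he : IsProj e) (he0 : e ≠ 0) (hre : r * e = e) :
    ∃ f d : N, IsProj f ∧ f * u = u * f ∧ r * f = f ∧ f ≠ 0 ∧ star d * d = f ∧ e * d = d := by
  obtain ⟨F, s, hs0, hFp, hF0, hFu, hrF, hP⟩ := sl_cut h hu hr hru he he0 hre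
  have hfin : ∀ f : N, F * f = f → r * f = f := by
    intro f hf
    rw [← hf, ← mul_assoc, hrF]
  by_contra hno
  have key : ∀ m : ℕ, ∃ f : N, IsProj f ∧ f * u = u * f ∧ F * f = f ∧ f ≠ 0 ∧
      ∀ z : N, CProj z → 2 ^ m * (τ (z * f)).re ≤ (τ (z * F)).re := by
    intro m
    induction m with
    | zero =>
      exact ⟨F, hFp, hFu, hFp.2, hF0, fun z _ => by rw [pow_zero, one_mul]⟩
    | succ m ih =>
      obtain ⟨f, hf, hfu, hFf, hf0, hfz⟩ := ih
      rcases dichotomy h hu hf hfu with ⟨f', hf', hfu', hff', hf0', hz'⟩ | hall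
      · refine ⟨f', hf', hfu', ?_, hf0', fun z hz => ?_⟩
        · rw [← hff', ← mul_assoc, hFf]
        · have h1 := hz' z hz
          have h2 := hfz z hz
          have h3 : (0 : ℝ) < 2 ^ m := by positivity
          rw [pow_succ]
          nlinarith [mul_le_mul_of_nonneg_left h1 h3.le]
      · exfalso
        apply hno
        -- `e f ≠ 0`
        have hfs : (τ f).re ≠ 0 := by
          intro h0
          apply hf0
          apply h.faithful
          rw [hf.1, hf.2]
          refine Complex.ext h0 ?_
          have := h.real f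
          rwa [hf.1, hf.2] at this
        have hfn : 0 ≤ (τ f).re := by
          have := h.nonneg f
          rwa [hf.1, hf.2] at this
        have hfpos : 0 < (τ f).re := lt_of_le_of_ne hfn (Ne.symm hfs)
        have hef : e * f ≠ 0 := by
          intro h0
          have h1 := hP f hf hfu hFf 1 sl_cproj_one
          rw [one_mul, h.tracial f e, h0, map_zero, Complex.zero_re] at h1
          have := mul_pos hs0 hfpos
          linarith
        obtain ⟨d, hd0, hdd, hd1, hd2, -, -⟩ := polar2 h (e * f) hef
        have hdf : d * f = d := hd2 f hf.1 (by rw [mul_assoc, hf.2])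
        have hed : e * d = d := hd1 e (by rw [← mul_assoc, he.2])
        have hfd : f * star d = star d := by
          have := congrArg star hdf
          rwa [star_mul, hf.1] at this
        have hg : f * (star d * d) * f = star d * d := by
          rw [← mul_assoc, hfd, mul_assoc, hdf]
        refine ⟨star d * d, d, ⟨by rw [star_mul, star_star], hdd⟩, ?_, ?_, ?_, rfl, hed⟩
        · have h1 := hall (star d * d)
          rwa [hg] at h1
        · have h1 : F * (star d * d) = star d * d := by
            rw [← hg, ← mul_assoc, ← mul_assoc, hFf]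
          exact hfin _ h1
        · intro h0
          exact hd0 ((CStarRing.star_mul_self_eq_zero_iff d).1 h0)
  -- the trace of `f_m` is small
  obtain ⟨m, hm⟩ : ∃ m : ℕ, 1 / s < 2 ^ m := pow_unbounded_of_one_lt _ (by norm_num)
  obtain ⟨f, hf, hfu, hFf, hf0, hfz⟩ := key m
  apply hno
  have hle : ∀ z : N, CProj z → (τ (z * f)).re ≤ (τ (z * e)).re := by
    intro z hz
    have h1 := hfz z hz
    have h2 := hP F hFp hFu hFp.2 z hz
    -- `τ(z F e) ≤ τ(z e)`
    have h3 : 0 ≤ (τ (z * (1 - F) * e)).re := sl_tau_pp h (sl_proj_cmul hz (sl_proj_one_sub hFp)) he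
    have h4 : z * (1 - F) * e = z * e - z * F * e := by noncomm_ring
    rw [h4, map_sub, Complex.sub_re] at h3
    have h5 : 0 ≤ (τ (z * f)).re := by
      have := sl_tau_pp h (sl_proj_cmul hz hf) hf
      rwa [mul_assoc, hf.2] at this
    have h6 : 1 < s * 2 ^ m := by
      rw [div_lt_iff₀ hs0] at hm
      linarith
    have h7 : s * (2 ^ m * (τ (z * f)).re) ≤ s * (τ (z * F)).re :=
      mul_le_mul_of_nonneg_left h1 hs0.le
    nlinarith
  obtain ⟨d, hd1, hd2⟩ := sub_of_trace h hf he hle
  exact ⟨f, d, hf, hfu, hfin f hFf, hf0, hd1, hd2⟩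

end ST
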