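import Pool.Agent.H77.SC.S0
import Pool.Agent.H77.ST.U1

/-!
# T0: a 2-norm closed *-subalgebra is a tracial von Neumann algebra

`M` with the restricted trace.  Completeness: a 2-norm Cauchy sequence in the unit ball of `M` has a
limit `y ∈ N`, `‖y‖ ≤ 1`; `y ∈ M` as `M` is closed in the 2-norm (the norm of `M` is the restricted
norm).  Compare `sub_ii1` in `SC/S0.lean`.
-/

open Filter Topology

namespace ST

open SC

variable {N : Type*} [CStarAlgebra N] {τ : N →ₗ[ℂ] ℂ}

theorem sub_tr (h : IsTr τ) (M : StarSubalgebra ℂ N) (hM : Closed2 τ (M : Set N))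
    (hc : IsClosed (M : Set N)) :
    letI := subC M hc
    IsTr (subτ τ M) := by
  letI := subC M hc
  have hn2 : ∀ x : M, n2 (subτ τ M) x = n2 τ (x : N) := fun _ => rfl
  refine ⟨h.map_one, fun x y => h.tracial x y, fun x => h.nonneg x, fun x => h.real x,
    fun x hx => Subtype.ext (h.faithful x hx), ?_⟩
  intro x hx hC
  obtain ⟨y, hy1, hy2⟩ := h.complete (fun k => (x k : N)) (fun k => hx k) (fun ε hε => by
    obtain ⟨K, hK⟩ := hC ε hε
    exact ⟨K, fun k hk l hl => hK k hk l hl⟩)
  have hyM : y ∈ (M : Set N) := by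
    refine hM y fun ε hε => ?_
    obtain ⟨k, hk⟩ := ((Metric.tendsto_nhds.1 hy2) ε hε).exists
    refine ⟨x k, (x k).2, ?_⟩
    rw [Real.dist_eq, sub_zero, abs_of_nonneg (n2_nonneg _)] at hk
    have e : n2 τ (y - x k) = n2 τ ((x k : N) - y) := by
      unfold n2
      congr 3
      rw [← neg_sub (x k : N) y, star_neg, neg_mul_neg]
    rw [e]
    exact hk
  exact ⟨⟨y, hyM⟩, hy1, hy2⟩

end ST
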