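import Pool.Agent.H77.ST.T0
import Pool.Agent.H77.ST.Cl
import Pool.Agent.H77.ST.Ld
import Pool.Agent.H77.ST.Ux
import Pool.Agent.H77.ST.Gd
import Pool.Agent.H77.SC.O1

/-!
# T1: the general theorems inside a 2-norm closed *-subalgebra `M` (compare `SC/S1.lean`)
-/

open Filter Topology

namespace ST

open SC

variable {N : Type*} [CStarAlgebra N] {τ : N →ₗ[ℂ] ℂ} {U : Ultrafilter ℕ} {O : Set N}
  {M : StarSubalgebra ℂ N}

theorem sub_exp_all (h : IsII1 τ) (hM : Closed2 τ (M : Set N)) {w : N} (hw : w ∈ unitary N)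
    (hwM : w ∈ M) (ε : ℝ) (hε : 0 < ε) :
    ∃ y ∈ M, star y = -y ∧ ‖y‖ ≤ 7 ∧ n2 τ (w - NormedSpace.exp y) < ε := by
  have hc := isClosed_of_closed2 h hM
  letI := subC M hc
  have h' := sub_tr (isTr_of_isII1 h) M hM hc
  have hwu : (⟨w, hwM⟩ : M) ∈ unitary M := (sub_unitary M _).2 hw
  obtain ⟨y, hy, hn, hlt⟩ := unitary_exp h' hwu ε hε
  refine ⟨y, y.2, ?_, hn, ?_⟩
  · exact congrArg Subtype.val hy
  · rw [sub_n2 (τ := τ) M hc] at hlt
    have e : (((⟨w, hwM⟩ : M) - NormedSpace.exp y : M) : N) = w - NormedSpace.exp (y : N) := by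
      rw [← sub_exp_coe M hc y]
      rfl
    rwa [e] at hlt

theorem sub_conj_comm (h : IsII1 τ) (hM : Closed2 τ (M : Set N)) {u v : N}
    (hu : u ∈ Haar τ) (huM : u ∈ M) (hv : v ∈ Haar τ) (hvM : v ∈ M) (ε : ℝ) (hε : 0 < ε) :
    ∃ w ∈ unitary N, w ∈ M ∧ ∃ c ∈ Haar τ, c ∈ M ∧ c * u = u * c ∧
      n2 τ (w * c * star w - v) < ε := by
  have hc := isClosed_of_closed2 h hM
  letI := subC M hc
  have h' := sub_tr (isTr_of_isII1 h) M hM hc
  have hu' : (⟨u, huM⟩ : M) ∈ Haar (subτ τ M) := (sub_haar M hc _).2 hu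
  have hv' : (⟨v, hvM⟩ : M) ∈ Haar (subτ τ M) := (sub_haar M hc _).2 hv
  obtain ⟨w, hw, c, hcH, hcu, hlt⟩ := conj_comm_dense h' hu' hv' ε hε
  refine ⟨w, (sub_unitary M _).1 hw, w.2, c, (sub_haar M hc _).1 hcH, c.2,
    congrArg Subtype.val hcu, ?_⟩
  rw [sub_n2 (τ := τ) M hc] at hlt
  exact hlt

theorem sub_nz_all (h : IsII1 τ) (hO : IsOrb τ U O) (hM : IsGenBy τ O M)
    {w : N} (hw : w ∈ unitary N) (hwM : w ∈ M) (ε : ℝ) (hε : 0 < ε) :
    ∃ w' ∈ Nz O, w' ∈ M ∧ n2 τ (w - w') < ε := by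
  obtain ⟨hMc, hOM, hmin⟩ := hM
  obtain ⟨u₀, hu₀⟩ := orb_nonempty hO
  have hc := isClosed_of_closed2 h hMc
  letI := subC M hc
  have h' := sub_tr (isTr_of_isII1 h) M hMc hc
  have hΓ := cl_group h' {x : M | (x : N) ∈ Nz O} (fun w hw => (sub_unitary M _).2 hw.1)
    (nz_one : (1 : N) ∈ Nz O) (fun w hw w' hw' => nz_mul (O := O) hw hw')
    (fun w hw => nz_star (O := O) hw)
  have hin : ∀ w : M, (w : N) ∈ Nz O →
      w ∈ {x : M | ∀ ε : ℝ, 0 < ε → ∃ w ∈ {x : M | (x : N) ∈ Nz O}, n2 (subτ τ M) (x - w) < ε} := by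
    intro w hw ε hε
    refine ⟨w, hw, ?_⟩
    rw [sub_self, n2_zero]
    exact hε
  have hgen : Generates (subτ τ M) {x : M | (x : N) ∈ O} := by
    intro M' hM' hOM'
    have hle : M ≤ M'.map M.subtype := by
      apply hmin
      · intro x hx
        have hxM : x ∈ M := by
          apply hMc x
          intro δ hδ
          obtain ⟨y, hy, hlt⟩ := hx δ hδ
          obtain ⟨y', hy', rfl⟩ := hy
          exact ⟨_, y'.2, hlt⟩
        have hx' : (⟨x, hxM⟩ : M) ∈ M' := by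
          apply hM'
          intro δ hδ
          obtain ⟨y, hy, hlt⟩ := hx δ hδ
          obtain ⟨y', hy', rfl⟩ := hy
          refine ⟨y', hy', ?_⟩
          rw [sub_n2 (τ := τ) M hc]
          exact hlt
        exact ⟨⟨x, hxM⟩, hx', rfl⟩
      · intro x hx
        exact ⟨⟨x, hOM hx⟩, hOM' (show ((⟨x, hOM hx⟩ : M) : N) ∈ O from hx), rfl⟩
    rw [eq_top_iff]
    intro x _
    obtain ⟨y, hy, hyx⟩ := hle x.2
    have : y = x := Subtype.ext hyx
    rw [← this]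
    exact hy
  have hwu : (⟨w, hwM⟩ : M) ∈ unitary M := (sub_unitary M _).2 hw
  have hmem : (⟨w, hwM⟩ : M) ∈
      {x : M | ∀ ε : ℝ, 0 < ε → ∃ w ∈ {x : M | (x : N) ∈ Nz O}, n2 (subτ τ M) (x - w) < ε} := by
    apply hΓ.closed
    intro δ hδ
    obtain ⟨y, hy, _, hlt⟩ := unitary_exp h' hwu δ hδ
    refine ⟨NormedSpace.exp y, ?_, hlt⟩
    have hL := lie_full h' hΓ {x : M | (x : N) ∈ O} ⟨⟨u₀, hOM hu₀⟩, hu₀⟩
      (fun u hu => hin u (nz_self h hO hu))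
      (fun u hu w hw hwu => hin w (nz_comm h hO hu ((sub_unitary M _).1 hw)
        (congrArg Subtype.val hwu)))
      (fun u hu => orb_star h hO hu) hgen y hy
    have h1 := hL.2 1
    rwa [Complex.ofReal_one, one_smul] at h1
  obtain ⟨w', hw', hlt⟩ := hmem ε hε
  refine ⟨w', hw', w'.2, ?_⟩
  rw [sub_n2 (τ := τ) M hc] at hlt
  exact hlt

end ST
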