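import Pool.Agent.H77.ST.T1
import Pool.Agent.H77.SC.S2

/-!
# T2: every orbit is dense in the Haar unitaries of the algebra it generates

Let `v ∈ M` be a Haar unitary, `ε > 0`, `u ∈ O` (`orb_nonempty`).  `sub_conj_comm`: a unitary
`w ∈ M` and a Haar unitary `c ∈ M` commuting with `u` with `‖w c w* - v‖₂ < ε/2`; `c ∈ O`
(`path_comm`, `orb_of_path`).  `sub_nz_all`: `w' ∈ Nz O`, `‖w - w'‖₂ < ε/4`; by
`SC.n2_conj_sub`, `‖w c w* - w' c w'*‖₂ < ε/2`, and `w' c w'* ∈ O`.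
Compare `SC/S2.lean`.
-/

open Filter Topology

namespace ST

open SC

variable {N : Type*} [CStarAlgebra N] {τ : N →ₗ[ℂ] ℂ} {U : Ultrafilter ℕ} {O : Set N}
  {M : StarSubalgebra ℂ N}

theorem orb_dense_all (h : IsII1 τ) (hO : IsOrb τ U O) (hM : IsGenBy τ O M)
    {v : N} (hv : v ∈ Haar τ) (hvM : v ∈ M) (ε : ℝ) (hε : 0 < ε) :
    ∃ u ∈ O, n2 τ (v - u) < ε := by
  obtain ⟨u, hu⟩ := SC.orb_nonempty hO
  have huH := SC.orb_haar hO hu
  have huM : u ∈ M := hM.2.1 hu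
  obtain ⟨w, hw, hwM, c, hcH, hcM, hcu, hlt⟩ :=
    sub_conj_comm h hM.1 huH huM hv hvM (ε / 2) (by linarith)
  have hcO : c ∈ O := SC.orb_of_path hO hu (SC.path_comm huH hcH hcu.symm)
  obtain ⟨w', hw', hw'M, hlt'⟩ := sub_nz_all h hO hM hw hwM (ε / 4) (by linarith)
  refine ⟨w' * c * star w', (hw'.2 c).1 hcO, ?_⟩
  have h1 := SC.n2_sub_le h v (w * c * star w) (w' * c * star w')
  have h2 := SC.n2_conj_sub h hcH.1 hw hw'.1
  rw [SC.n2_sub_comm v (w * c * star w)] at h1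
  linarith

end ST
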