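import Pool.Agent.H77.ST.T1
import Pool.Agent.H77.SC.S3

/-!
# T3: version of `SC/O4.lean`, `SC/S3.lean` for arbitrary `M`

Baire in the unitary group of `M`, exponentials (`sub_exp_all`), conjugates of commuting Haar unitaries (`sub_conj_comm`).
-/

open Filter Topology

namespace ST

open SC

variable {N : Type*} [CStarAlgebra N] {τ : N →ₗ[ℂ] ℂ} {U : Ultrafilter ℕ} {O : Set N}
  {M : StarSubalgebra ℂ N}

/-- conjugation by `w'` after `w` -/
private theorem T3_conj_conj (w w' u : N) :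
    w * (w' * u * star w') * star w = w * w' * u * star (w * w') := by
  rw [star_mul]
  simp only [mul_assoc]

private theorem T3_conj_inv {w : N} (hw : w ∈ unitary N) (x : N) :
    star w * (w * x * star w) * star (star w) = x := by
  have hw1 : star w * w = 1 := (Unitary.mem_iff.mp hw).1
  rw [star_star]
  calc star w * (w * x * star w) * w = (star w * w) * x * (star w * w) := by
        simp only [mul_assoc]
    _ = x := by rw [hw1, one_mul, mul_one]

private theorem T3_near (h : IsII1 τ) (hU : (U : Filter ℕ) ≤ cofinite) {S : Set N}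
    (hSu : ∀ x ∈ S, x ∈ unitary N) (h1 : (1 : N) ∈ S) (hmul : ∀ x ∈ S, ∀ y ∈ S, x * y ∈ S)
    (hcl : Closed2 τ S) {u : N} (hu : u ∈ Haar τ)
    (hcov : ∀ w ∈ S, ∃ n, Path τ U n u (w * u * star w)) :
    ∃ m : ℕ, ∃ r : ℝ, 0 < r ∧ ∀ w ∈ S, n2 τ (w - 1) < r → Path τ U m u (w * u * star w) := by
  obtain ⟨n, x, hx, r, hr, hb⟩ := baire2 h S hSu ⟨1, h1⟩ hcl
    (fun n => {w | Path τ U n u (w * u * star w)}) (by
      intro n x hx hlim
      show Path τ U n u (x * u * star x)
      refine path_closed h hU n hu (SC.haar_conj h hu (hSu x hx)) fun ε hε => ?_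
      obtain ⟨y, hyS, hyp, hy⟩ := hlim (ε / 2) (by positivity)
      refine ⟨u, y * u * star y, hyp, ?_, ?_⟩
      · rw [sub_self, n2_zero]
        exact hε
      · have := SC.n2_conj_sub h hu.1 (hSu x hx) (hSu y hyS)
        linarith) hcov
  refine ⟨n + n + 1, r, hr, fun w hw hwr => ?_⟩
  have hxu := hSu x hx
  have p1 : Path τ U n u (x * u * star x) :=
    hb x hx (by rw [sub_self, n2_zero]; exact hr)
  have p2 : Path τ U n u ((x * w) * u * star (x * w)) := by
    refine hb (x * w) (hmul x hx w hw) ?_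
    have e : x * w - x = x * (w - 1) := by rw [mul_sub, mul_one]
    rw [e, n2_unitary_left hxu]
    exact hwr
  have p3 := path_trans (path_symm p1) p2
  rw [← T3_conj_conj] at p3
  have p4 := path_conj h (star_mem' hxu) p3
  rwa [T3_conj_inv hxu, T3_conj_inv hxu] at p4

private theorem T3_pow (h : IsII1 τ) {u w : N} (hu : u ∈ Haar τ) (hw : w ∈ unitary N) {m : ℕ}
    (hp : Path τ U m u (w * u * star w)) (j : ℕ) :
    Path τ U (j * (m + 1)) u (w ^ j * u * star (w ^ j)) := by
  induction j with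
  | zero =>
    rw [pow_zero, star_one, one_mul, mul_one]
    exact path_refl hu _
  | succ j ih =>
    have p := path_trans ih (path_conj h (pow_mem hw j) hp)
    rw [T3_conj_conj, ← pow_succ] at p
    rw [Nat.succ_mul]
    exact p

private theorem T3_exp_mem {M : StarSubalgebra ℂ N} (hc : IsClosed (M : Set N)) {y : N}
    (hy : y ∈ M) : NormedSpace.exp y ∈ M := by
  have e := SC.sub_exp_coe M hc ⟨y, hy⟩
  rw [← e]
  exact Subtype.prop _

theorem uniform_all (h : IsII1 τ) (hU : (U : Filter ℕ) ≤ cofinite) (hO : IsOrb τ U O)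
    (hM : IsGenBy τ O M) (hinv : ∀ w ∈ unitary N, w ∈ M → w ∈ Nz O) :
    ∃ n, ∀ u ∈ Haar τ, u ∈ M → ∀ v ∈ Haar τ, v ∈ M → Path τ U n u v := by
  obtain ⟨u, huO⟩ := orb_nonempty hO
  have hu : u ∈ Haar τ := orb_haar hO huO
  have huM : u ∈ M := hM.2.1 huO
  have hc : IsClosed (M : Set N) := isClosed_of_closed2 h hM.1
  obtain ⟨m, r, hr, hnear⟩ := T3_near (S := {w | w ∈ unitary N ∧ w ∈ M}) h hU
    (fun x hx => hx.1) ⟨one_mem _, one_mem _⟩
    (fun x hx y hy => ⟨mul_mem hx.1 hy.1, mul_mem hx.2 hy.2⟩)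
    (fun x hx => ⟨SC.unitary_closed h x fun ε hε => by
        obtain ⟨y, hy, hl⟩ := hx ε hε
        exact ⟨y, hy.1, hl⟩, hM.1 x fun ε hε => by
        obtain ⟨y, hy, hl⟩ := hx ε hε
        exact ⟨y, hy.2, hl⟩⟩) hu
    (fun w hw => orb_path hO huO (((hinv w hw.1 hw.2).2 u).1 huO))
  obtain ⟨k, hk⟩ := exists_nat_gt (7 / r)
  have hk0 : (0 : ℝ) < k := lt_trans (by positivity) hk
  have hkr : 7 < k * r := by rwa [div_lt_iff₀ hr] at hk
  have hexp : ∀ y ∈ M, star y = -y → ‖y‖ ≤ 7 →
      Path τ U (k * (m + 1)) u (NormedSpace.exp y * u * star (NormedSpace.exp y)) := by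
    intro y hy hs hn
    set z : N := ((k : ℂ)⁻¹) • y with hz
    have hzM : z ∈ M := M.smul_mem hy _
    have hzs : star z = -z := by
      rw [hz, star_smul, hs, smul_neg, star_inv₀]
      simp
    have hzk : k • z = y := by
      rw [hz, ← Nat.cast_smul_eq_nsmul ℂ, smul_smul, mul_inv_cancel₀, one_smul]
      exact_mod_cast hk0.ne'
    have hzn : ‖z‖ < r := by
      rw [hz, norm_smul, norm_inv, Complex.norm_natCast]
      rw [inv_mul_lt_iff₀ hk0]
      linarith
    have hex : NormedSpace.exp y = NormedSpace.exp z ^ k := by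
      let _ : NormedAlgebra ℚ N := NormedAlgebra.restrictScalars ℚ ℂ N
      rw [← hzk, NormedSpace.exp_nsmul]
    rw [hex]
    refine T3_pow h hu (SC.exp_skew_unitary hzs) (hnear _ ⟨SC.exp_skew_unitary hzs,
      T3_exp_mem hc hzM⟩ ?_) k
    have l1 := SC.exp_lip h hzs (z := 0) (by simp)
    rw [NormedSpace.exp_zero, sub_zero] at l1
    exact lt_of_le_of_lt (l1.trans (SC.n2_le_norm h z)) hzn
  -- all unitaries of `M`
  have hun : ∀ w ∈ unitary N, w ∈ M → Path τ U (k * (m + 1)) u (w * u * star w) := by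
    intro w hw hwM
    refine path_closed h hU _ hu (SC.haar_conj h hu hw) fun ε hε => ?_
    obtain ⟨y, hyM, hys, hyn, hy⟩ := sub_exp_all h hM.1 hw hwM (ε / 2) (by positivity)
    refine ⟨u, _, hexp y hyM hys hyn, ?_, ?_⟩
    · rw [sub_self, n2_zero]
      exact hε
    · have l1 := SC.n2_conj_sub h hu.1 hw (SC.exp_skew_unitary hys)
      linarith
  -- all Haar unitaries of `M`
  have hall : ∀ v ∈ Haar τ, v ∈ M → Path τ U (k * (m + 1) + 0 + 1) u v := by
    intro v hv hvM
    refine path_closed h hU _ hu hv fun ε hε => ?_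
    obtain ⟨w, hw, hwM, c, hcH, hcM, hcu, hlt⟩ := sub_conj_comm h hM.1 hu huM hv hvM ε hε
    have p0 : Path τ U 0 u c := path_comm hu hcH hcu.symm
    have p1 : Path τ U 0 (w * u * star w) (w * c * star w) := path_conj h hw p0
    have p2 : Path τ U (k * (m + 1) + 0 + 1) u (w * c * star w) := path_trans (n := k * (m + 1)) (m := 0) (hun w hw hwM) p1
    refine ⟨u, w * c * star w, p2, ?_, ?_⟩
    · rw [sub_self, n2_zero]
      exact hε
    · rw [n2_sub_comm]
      exact hlt
  exact ⟨_, fun a ha haM b hb hbM => path_trans (path_symm (hall a ha haM)) (hall b hb hbM)⟩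

end ST
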