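import Pool.Agent.H77.ST.T1
import Pool.Agent.H77.SC.S4

/-!
# T4: version of `SC/S4.lean` for arbitrary `M`

The same proof as `many_sub` in `SC/S4.lean` with `sub_nz_all` instead of `sub_nz_dense` (the
hypothesis `IsFac M` is not needed any more).
-/

open Filter Topology

namespace ST

open SC

variable {N : Type*} [CStarAlgebra N] {τ : N →ₗ[ℂ] ℂ} {U : Ultrafilter ℕ} {O : Set N}
  {M : StarSubalgebra ℂ N}

private theorem T4_zero : n2 τ (0 : N) = 0 := by
  unfold n2
  rw [star_zero, zero_mul, map_zero, Complex.zero_re, Real.sqrt_zero]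

private theorem T4_conj {w x : N} (hw : w ∈ unitary N) :
    star w * (w * x * star w) * star (star w) = x := by
  have h1 : star w * w = 1 := Unitary.star_mul_self_of_mem hw
  rw [star_star]
  calc star w * (w * x * star w) * w = (star w * w) * x * (star w * w) := by noncomm_ring
    _ = x := by rw [h1, one_mul, mul_one]

private theorem T4_one {w w' : N} (hw' : w' ∈ unitary N) :
    n2 τ (star w' * w - 1) = n2 τ (w - w') := by
  have h1 : star w' * w' = 1 := Unitary.star_mul_self_of_mem hw'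
  have h2 : star w' * w - 1 = star w' * (w - w') := by
    rw [mul_sub, h1]
  rw [h2, n2_unitary_left (star_mem' hw')]

private theorem T4_loc (h : IsII1 τ) (hO : IsOrb τ U O) {u w₀ w₀' : N} (hu : u ∈ O) (n : ℕ)
    (hw₀ : w₀ ∈ unitary N) (hw₀M : w₀ ∈ M) (hw₀' : w₀' ∈ unitary N) (hw₀'M : w₀' ∈ M) {r : ℝ}
    (hr : 0 < r)
    (hall : ∀ x ∈ unitary N, x ∈ M → ∀ y ∈ unitary N, y ∈ M → n2 τ (x - w₀) < r →
      n2 τ (y - w₀') < r → Path τ U n (x * u * star x) (y * u * star y)) {w : N}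
    (hw : w ∈ unitary N) (hwM : w ∈ M) (hwr : n2 τ (w - 1) < r) : w ∈ Nz O := by
  have hz : n2 τ (w₀ - w₀) < r := by
    rw [sub_self, T4_zero]
    exact hr
  have hz' : n2 τ (w₀' - w₀') < r := by
    rw [sub_self, T4_zero]
    exact hr
  have h1 : Path τ U n ((w₀ * w) * u * star (w₀ * w)) (w₀' * u * star w₀') := by
    refine hall (w₀ * w) (mul_mem hw₀ hw) (mul_mem hw₀M hwM) w₀' hw₀' hw₀'M ?_ hz'
    have h2 : w₀ * w - w₀ = w₀ * (w - 1) := by
      rw [mul_sub, mul_one]
    rw [h2, n2_unitary_left hw₀]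
    exact hwr
  have h2 : Path τ U n (w₀ * u * star w₀) (w₀' * u * star w₀') :=
    hall w₀ hw₀ hw₀M w₀' hw₀' hw₀'M hz hz'
  have h3 := path_conj h (star_mem' hw₀) (path_trans h2 (path_symm h1))
  rw [T4_conj hw₀] at h3
  have h4 : (w₀ * w) * u * star (w₀ * w) = w₀ * (w * u * star w) * star w₀ := by
    rw [star_mul]
    noncomm_ring
  rw [h4, T4_conj hw₀] at h3
  exact nz_of h hO hw hu (orb_of_path hO hu h3)

private theorem T4_closed (h : IsII1 τ) (hM : Closed2 τ (M : Set N)) :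
    Closed2 τ {w : N | w ∈ unitary N ∧ w ∈ M} := by
  intro x hx
  refine ⟨?_, ?_⟩
  · refine SC.unitary_closed h x fun ε hε => ?_
    obtain ⟨y, hy, hlt⟩ := hx ε hε
    exact ⟨y, hy.1, hlt⟩
  · refine hM x fun ε hε => ?_
    obtain ⟨y, hy, hlt⟩ := hx ε hε
    exact ⟨y, hy.2, hlt⟩

theorem many_all (h : IsII1 τ) (hU : (U : Filter ℕ) ≤ cofinite) (hO : IsOrb τ U O)
    (hM : IsGenBy τ O M) (hn : ¬ ∀ w ∈ unitary N, w ∈ M → w ∈ Nz O) :
    ∃ w : (ℕ → Bool) → N, (∀ s, w s ∈ unitary N ∧ w s ∈ M) ∧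
      ∀ s t, s ≠ t → conjSet (w s) O ≠ conjSet (w t) O := by
  obtain ⟨u, hu⟩ := orb_nonempty hO
  have huH : u ∈ Haar τ := orb_haar hO hu
  obtain ⟨f, hfS, hff⟩ := myc2 h {w : N | w ∈ unitary N ∧ w ∈ M} (fun x hx => hx.1)
    ⟨1, one_mem _, one_mem M⟩
    (T4_closed h hM.1) (fun n w w' => Path τ U n (w * u * star w) (w' * u * star w'))
    (by
      intro n x hx y hy hc
      refine path_closed h hU n (SC.haar_conj h huH hx.1) (SC.haar_conj h huH hy.1) ?_
      intro ε hε
      obtain ⟨x', hx', y', hy', hp, h1, h2⟩ := hc (ε / 2) (by linarith)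
      have h3 := SC.n2_conj_sub h huH.1 hx.1 hx'.1
      have h4 := SC.n2_conj_sub h huH.1 hy.1 hy'.1
      exact ⟨_, _, hp, by linarith, by linarith⟩)
    (by
      intro n x hx y hy r hr
      by_contra hcon
      push Not at hcon
      refine hn fun w hw hwM => ?_
      obtain ⟨w', hw', hw'M, hww'⟩ := sub_nz_all h hO hM hw hwM r hr
      have hw'u : w' ∈ unitary N := hw'.1
      have h1 : star w' * w ∈ Nz O := by
        refine T4_loc h hO hu n hx.1 hx.2 hy.1 hy.2 hr ?_ (mul_mem (star_mem' hw'u) hw)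
          (mul_mem (star_mem hw'M) hwM) ?_
        · intro x' hx' hx'M y' hy' hy'M h2 h3
          exact hcon x' ⟨hx', hx'M⟩ y' ⟨hy', hy'M⟩ h2 h3
        · rw [T4_one hw'u]
          exact hww'
      have h2 : w' * (star w' * w) = w := by
        rw [← mul_assoc, Unitary.mul_star_self_of_mem hw'u, one_mul]
      rw [← h2]
      exact nz_mul hw' h1)
  refine ⟨f, hfS, fun s t hst heq => ?_⟩
  have h1 : f s * u * star (f s) ∈ conjSet (f t) O := by
    rw [← heq]
    exact ⟨u, hu, rfl⟩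
  obtain ⟨y, hy, hye⟩ := h1
  obtain ⟨n, hp⟩ := orb_path hO hy hu
  refine hff s t hst n ?_
  show Path τ U n (f s * u * star (f s)) (f t * u * star (f t))
  rw [hye]
  exact path_conj h (hfS t).1 hp

end ST
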