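import Pool.Agent.H77.ST.T2
import Pool.Agent.H77.ST.T3
import Pool.Agent.H77.ST.T4
import Pool.Agent.H77.SC.R

/-!
# T5: the structure theorem for all orbits
-/

open Filter Topology

namespace ST

open SC

variable {N : Type*} [CStarAlgebra N] {τ : N →ₗ[ℂ] ℂ} {U : Ultrafilter ℕ}

theorem main (h : IsII1 τ) (hU : (U : Filter ℕ) ≤ cofinite) :
    (Haar τ).Nonempty ∧
    (∀ (O : Set N) (M : StarSubalgebra ℂ N), IsOrb τ U O → IsGenBy τ O M →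
      (∀ v ∈ Haar τ, v ∈ M → ∀ ε : ℝ, 0 < ε → ∃ u ∈ O, n2 τ (v - u) < ε) ∧
      ((O = {v : N | v ∈ Haar τ ∧ v ∈ M} ∧ ∃ n, ∀ u ∈ O, ∀ v ∈ O, Path τ U n u v) ∨
        (O ≠ {v : N | v ∈ Haar τ ∧ v ∈ M} ∧ ∃ w : (ℕ → Bool) → N,
          (∀ s, w s ∈ unitary N ∧ w s ∈ M ∧ IsOrb τ U (conjSet (w s) O) ∧
            IsGenBy τ (conjSet (w s) O) M) ∧
          ∀ s t, s ≠ t → conjSet (w s) O ≠ conjSet (w t) O))) ∧
    (∀ O : Set N, IsOrb τ U O → SomewhereDense τ O → IsGenBy τ O ⊤) ∧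
    ((∀ O : Set N, IsOrb τ U O → ¬ IsGenBy τ O ⊤) → ∃ f : (ℕ → Bool) → N,
      (∀ s, f s ∈ Haar τ) ∧ ∀ s t, s ≠ t → Orb τ U (f s) ≠ Orb τ U (f t)) := by
  obtain ⟨h0, -, h2, h3⟩ := SC.main h hU
  refine ⟨h0, fun O M hO hM => ⟨fun v hv hvM ε hε => orb_dense_all h hO hM hv hvM ε hε, ?_⟩,
    h2, h3⟩
  have hOM : ∀ x ∈ O, x ∈ M := fun x hx => hM.2.1 hx
  by_cases hn : ∀ w ∈ unitary N, w ∈ M → w ∈ Nz O
  · left
    obtain ⟨n, hnn⟩ := uniform_all h hU hO hM hn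
    obtain ⟨u, hu⟩ := orb_nonempty hO
    refine ⟨Set.Subset.antisymm (fun x hx => ⟨orb_haar hO hx, hOM x hx⟩)
      (fun x hx => ?_), n, fun x hx y hy => hnn x (orb_haar hO hx) (hOM x hx) y
        (orb_haar hO hy) (hOM y hy)⟩
    exact orb_of_path hO hu (hnn u (orb_haar hO hu) (hOM u hu) x hx.1 hx.2)
  · right
    obtain ⟨w, hw, hd⟩ := many_all h hU hO hM hn
    refine ⟨fun hOe => hn fun w hw hwM => ?_, w, fun s => ⟨(hw s).1, (hw s).2,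
      conj_orb h hO (hw s).1, genBy_conj h hM (hw s).1 (hw s).2⟩, hd⟩
    obtain ⟨u, hu⟩ := orb_nonempty hO
    refine nz_of h hO hw hu ?_
    rw [hOe]
    exact ⟨SC.haar_conj h (orb_haar hO hu) hw,
      mul_mem (mul_mem hwM (hOM u hu)) (star_mem hwM)⟩

end ST
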